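import Pool.Agent.PPH.Defs2
import Pool.Agent.MST.Defs

/-!
Definitions for densities of bounded variation times polynomial phases.
-/

namespace Pool.Agent.BVA

open MeasureTheory Set Pool.Agent.MP_6cbfb8_an Pool.Agent.PPH
open scoped ENNReal Real

/-- `a` has `L¹`-modulus of continuity of order `s` on the unit sphere of `R^3`, in the mean over
pairs of points: for `s = 1` these are the functions of bounded variation. -/
def BVar (s V : ℝ) (a : E 3 → ℂ) : Prop :=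
  ∀ r : ℝ, 0 < r →
    ∫⁻ x : S 3, (∫⁻ y in Metric.closedBall x r, ‖a x - a y‖ₑ ∂(sm 3)) ∂(sm 3) ≤
      ENNReal.ofReal (V * r ^ (2 + s))

/-- `a` is approximated on the dyadic squares of level `m` by constants, with an error
`V 2^{-sm}` in `L¹`. -/
def Apx (s V : ℝ) (a : ℝ × ℝ → ℂ) : Prop :=
  ∀ m : ℕ, 2 ≤ m → ∃ β : ℤ × ℤ → ℂ, (∀ i, ‖β i‖ ≤ 1) ∧
    ∑ i ∈ idx m, ∫⁻ y in sq m i, ‖a y - β i‖ₑ ≤ ENNReal.ofReal (V * 2 ^ (-(s * m)))

/-- The oscillatory integral with a weight. -/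
noncomputable def uW (w : ℝ × ℝ → ℂ) (F : Set (ℝ × ℝ)) (al q : RR) (x : ℝ × ℝ) : ℂ :=
  ∫ y in F, w y * am al q x y

/-- The step function of level `m` with values `β`. -/
noncomputable def stp (m : ℕ) (β : ℤ × ℤ → ℂ) (y : ℝ × ℝ) : ℂ :=
  β (⌊y.1 * 2 ^ m⌋, ⌊y.2 * 2 ^ m⌋)

/-- The union of the dyadic squares of level `m`. -/
def Qm (m : ℕ) : Set (ℝ × ℝ) := ⋃ i ∈ idx m, sq m i

end Pool.Agent.BVA
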