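import Pool.Agent.PPH.H2d
import Pool.Agent.PPH.H4a
import Pool.Agent.BVA.Defs

/-!
Packets with a step amplitude: the pointwise bound and the local `L²` bound.
-/

namespace Pool.Agent.BVA

open MeasureTheory Set MvPolynomial Pool.Agent.PPH
open scoped ENNReal Real

lemma stp_sq {m : ℕ} {β : ℤ × ℤ → ℂ} {i : ℤ × ℤ} {y : ℝ × ℝ} (hy : y ∈ sq m i) :
    stp m β y = β i := by
  have h2 : (0:ℝ) < 2 ^ m := by positivity
  obtain ⟨⟨h1, h1'⟩, ⟨h3, h3'⟩⟩ := hy
  have e1 : ⌊y.1 * 2 ^ m⌋ = i.1 := by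
    rw [Int.floor_eq_iff]
    exact ⟨(div_le_iff₀ h2).1 h1, (lt_div_iff₀ h2).1 h1'⟩
  have e2 : ⌊y.2 * 2 ^ m⌋ = i.2 := by
    rw [Int.floor_eq_iff]
    exact ⟨(div_le_iff₀ h2).1 h3, (lt_div_iff₀ h2).1 h3'⟩
  unfold stp
  rw [e1, e2]

lemma measurable_stp (m : ℕ) (β : ℤ × ℤ → ℂ) : Measurable (stp m β) := by
  have h1 : Measurable fun y : ℝ × ℝ => ((⌊y.1 * 2 ^ m⌋, ⌊y.2 * 2 ^ m⌋) : ℤ × ℤ) :=
    ((measurable_fst.mul_const _).floor).prodMk ((measurable_snd.mul_const _).floor)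
  have h2 : Measurable β := measurable_of_countable β
  exact h2.comp h1

lemma norm_stp_le {m : ℕ} {β : ℤ × ℤ → ℂ} (hβ : ∀ i, ‖β i‖ ≤ 1) (y : ℝ × ℝ) : ‖stp m β y‖ ≤ 1 :=
  hβ _

theorem integrableOn_w (w : ℝ × ℝ → ℂ) (hw : Measurable w) (B : ℝ) (hB : ∀ y, ‖w y‖ ≤ B)
    (al q : RR) (x : ℝ × ℝ) : IntegrableOn (fun y => w y * am al q x y) BB :=
  Integrable.bdd_mul (integrableOn_am al q x) hw.aestronglyMeasurable
    (Filter.Eventually.of_forall hB)

theorem uB_pointwise (D : ℕ) : ∃ K : ℝ, 0 < K ∧ ∀ (c : Cf D) (t A : ℝ) (al : RR) (m : ℕ), 2 ≤ m →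
    0 ≤ A → Amp A al → ∀ β : ℤ × ℤ → ℂ, (∀ i, ‖β i‖ ≤ 1) → ∀ x : ℝ × ℝ,
    ‖uW (stp m β) (Om D (qt c t) m) al (qt c t) x‖ₑ ≤
      ENNReal.ofReal (K * A) * ∑' cc : ℤ × ℤ, ENNReal.ofReal (NN D (qt c t) m cc) *
        ENNReal.ofReal (ww (cc - cell m x)) := by
  classical
  obtain ⟨K, hK, hp⟩ := packet D
  refine ⟨K, hK, ?_⟩
  intro c t A al m hm hA hal β hβ x
  set q := qt c t with hq
  rw [← sum_NN D q m (fun cc => ENNReal.ofReal (ww (cc - cell m x)))]
  have hsqBB : ∀ i ∈ (idx m).filter (fun i => Sel D q m i), sq m i ⊆ BB := fun i hi =>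
    (sq_subset hm (Finset.mem_filter.mp hi).1).trans BB0_subset
  have hsplit : uW (stp m β) (Om D q m) al q x =
      ∑ i ∈ (idx m).filter (fun i => Sel D q m i), β i * ∫ y in sq m i, am al q x y := by
    unfold uW
    rw [Om_eq]
    rw [integral_biUnion_finset _ (fun i _ => measurableSet_sq m i) (h1c_disj m _)
      (fun i hi => (integrableOn_w _ (measurable_stp m β) 1 (norm_stp_le hβ) al q x).mono_set
        (hsqBB i hi))]
    refine Finset.sum_congr rfl fun i _ => ?_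
    rw [← integral_const_mul]
    refine setIntegral_congr_fun (measurableSet_sq m i) fun y hy => ?_
    show stp m β y * am al q x y = β i * am al q x y
    rw [stp_sq hy]
  rw [hsplit, Finset.mul_sum]
  refine (enorm_sum_le _ _).trans (Finset.sum_le_sum fun i hi => ?_)
  obtain ⟨hi', hsel⟩ := Finset.mem_filter.mp hi
  have := hp c t A al m hm hA hal i hi' hsel
    ((i.1 : ℝ) / 2 ^ m, (i.2 : ℝ) / 2 ^ m) (((i.1 : ℝ) + 1) / 2 ^ m, ((i.2 : ℝ) + 1) / 2 ^ m)
    (le_refl _) x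
  rw [← ofReal_norm, norm_mul]
  have hww : 0 ≤ ww (cell m (gr q m i) - cell m x) := by
    unfold ww
    positivity
  calc ENNReal.ofReal (‖β i‖ * ‖∫ y in sq m i, am al q x y‖)
      ≤ ENNReal.ofReal (K * A / 4 ^ m * ww (cell m (gr q m i) - cell m x)) := by
        apply ENNReal.ofReal_le_ofReal
        calc ‖β i‖ * ‖∫ y in sq m i, am al q x y‖ ≤ 1 * ‖∫ y in sq m i, am al q x y‖ :=
              mul_le_mul_of_nonneg_right (hβ i) (norm_nonneg _)
          _ = ‖∫ y in sq m i, am al q x y‖ := one_mul _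
          _ ≤ _ := this
    _ = ENNReal.ofReal (K * A) * (ENNReal.ofReal (1 / 4 ^ m) *
          ENNReal.ofReal (ww (cell m (gr q m i) - cell m x))) := by
        rw [← ENNReal.ofReal_mul (by positivity), ← ENNReal.ofReal_mul (by positivity)]
        congr 1
        ring

theorem uB_local (D : ℕ) : ∃ K : ℝ, 0 < K ∧ ∀ (c : Cf D) (t A : ℝ) (al : RR) (m : ℕ), 2 ≤ m →
    0 ≤ A → Amp A al → ∀ β : ℤ × ℤ → ℂ, (∀ i, ‖β i‖ ≤ 1) → ∀ c' : ℤ × ℤ,
    ∫⁻ x in {x : ℝ × ℝ | cell m x = c'},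
      ‖uW (stp m β) (Om D (qt c t) m) al (qt c t) x‖ₑ ^ (2:ℝ) ≤
      ENNReal.ofReal (K * A ^ 2) * ∑' cc : ℤ × ℤ, ENNReal.ofReal (NN D (qt c t) m cc) *
        ENNReal.ofReal (ww (cc - c')) ^ 2 := by
  classical
  obtain ⟨K, hK, hpack⟩ := packet D
  refine ⟨2000 * K ^ 2, by positivity, fun c t A al m hm hA hAmp β hβ c' => ?_⟩
  set q := qt c t with hq
  set x0 : ℝ × ℝ := (2 ^ m * ((c'.1 : ℝ) + 1 / 2), 2 ^ m * ((c'.2 : ℝ) + 1 / 2)) with hx0
  have h2 : (2 : ℝ) ^ m ≠ 0 := by positivity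
  have hcell : cell m x0 = c' := by
    refine Prod.ext ?_ ?_
    · show ⌊2 ^ m * ((c'.1 : ℝ) + 1 / 2) / 2 ^ m⌋ = c'.1
      rw [mul_div_cancel_left₀ _ h2, Int.floor_eq_iff]
      constructor <;> linarith
    · show ⌊2 ^ m * ((c'.2 : ℝ) + 1 / 2) / 2 ^ m⌋ = c'.2
      rw [mul_div_cancel_left₀ _ h2, Int.floor_eq_iff]
      constructor <;> linarith
  set h0 : ℝ × ℝ → ℂ := fun y => ((ev al y : ℝ) : ℂ) * Complex.exp (((ev q y : ℝ) : ℂ) * Complex.I)
    with hh0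
  set h : ℝ × ℝ → ℂ := fun y => stp m β y * h0 y with hh
  have hmeas0 : Measurable h0 :=
    (Complex.measurable_ofReal.comp (measurable_ev al)).mul
      (((Complex.measurable_ofReal.comp (measurable_ev q)).mul_const _).cexp)
  have hmeas : Measurable h := (measurable_stp m β).mul hmeas0
  have hB : ∀ y ∈ BB, ‖h y‖ ≤ A := by
    intro y hy
    have h1 := hAmp 0 0 (by norm_num) (by norm_num) y hy
    have h3 : ‖h0 y‖ ≤ A := by
      show ‖((ev al y : ℝ) : ℂ) * Complex.exp (((ev q y : ℝ) : ℂ) * Complex.I)‖ ≤ A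
      rw [norm_mul, Complex.norm_exp_ofReal_mul_I, mul_one, Complex.norm_real, Real.norm_eq_abs]
      exact h1
    show ‖stp m β y * h0 y‖ ≤ A
    rw [norm_mul]
    calc ‖stp m β y‖ * ‖h0 y‖ ≤ 1 * ‖h0 y‖ :=
          mul_le_mul_of_nonneg_right (norm_stp_le hβ y) (norm_nonneg _)
      _ = ‖h0 y‖ := one_mul _
      _ ≤ A := h3
  have ham0 : ∀ x y, am al q x y =
      h0 y * Complex.exp (((-(x.1 * y.1 + x.2 * y.2) : ℝ) : ℂ) * Complex.I) := by
    intro x y
    show ((ev al y : ℝ) : ℂ) * Complex.exp (((ev q y - x.1 * y.1 - x.2 * y.2 : ℝ) : ℂ) * Complex.I) =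
      ((ev al y : ℝ) : ℂ) * Complex.exp (((ev q y : ℝ) : ℂ) * Complex.I) *
        Complex.exp (((-(x.1 * y.1 + x.2 * y.2) : ℝ) : ℂ) * Complex.I)
    rw [mul_assoc, ← Complex.exp_add]
    congr 2
    push_cast
    ring
  have ham : ∀ x y, stp m β y * am al q x y =
      h y * Complex.exp (((-(x.1 * y.1 + x.2 * y.2) : ℝ) : ℂ) * Complex.I) := by
    intro x y
    rw [ham0, ← mul_assoc]
  have hww : ∀ n, 0 ≤ ww n := fun n => by
    unfold ww
    positivity
  set W : ℤ × ℤ → ℝ := fun i => K * A * ww (cell m (gr q m i) - c') with hW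
  have hW0 : ∀ i, 0 ≤ W i := fun i => mul_nonneg (mul_nonneg hK.le hA) (hww _)
  have hloc := local_l2 m hm ((idx m).filter (fun i => Sel D q m i)) (Finset.filter_subset _ _)
    h hmeas A hB c' W hW0 (by
      intro i hi a b hab
      rw [Finset.mem_filter] at hi
      have h1 := hpack c t A al m hm hA hAmp i hi.1 hi.2 a b hab x0
      rw [hcell] at h1
      have h3 : ∫ y in Ico a.1 b.1 ×ˢ Ico a.2 b.2, h y *
          Complex.exp (((-(2 ^ m * ((c'.1 : ℝ) + 1 / 2) * y.1 +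
            2 ^ m * ((c'.2 : ℝ) + 1 / 2) * y.2) : ℝ) : ℂ) * Complex.I) =
          β i * ∫ y in Ico a.1 b.1 ×ˢ Ico a.2 b.2, am al q x0 y := by
        rw [← integral_const_mul]
        refine setIntegral_congr_fun (measurableSet_Ico.prod measurableSet_Ico) fun y hy => ?_
        have h4 := ham x0 y
        rw [stp_sq (hab hy)] at h4
        exact h4.symm
      rw [h3, norm_mul]
      calc ‖β i‖ * ‖∫ y in Ico a.1 b.1 ×ˢ Ico a.2 b.2, am al q x0 y‖
          ≤ 1 * ‖∫ y in Ico a.1 b.1 ×ˢ Ico a.2 b.2, am al q x0 y‖ :=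
            mul_le_mul_of_nonneg_right (hβ i) (norm_nonneg _)
        _ = ‖∫ y in Ico a.1 b.1 ×ˢ Ico a.2 b.2, am al q x0 y‖ := one_mul _
        _ ≤ _ := h1
        _ = W i / 4 ^ m := by
          show K * A / 4 ^ m * ww (cell m (gr q m i) - c') =
            K * A * ww (cell m (gr q m i) - c') / 4 ^ m
          ring)
  have hleft : ∫⁻ x in {x : ℝ × ℝ | cell m x = c'},
        ‖uW (stp m β) (Om D q m) al q x‖ₑ ^ (2:ℝ) =
      ∫⁻ x in {x : ℝ × ℝ | cell m x = c'},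
        ‖∫ y in ⋃ i ∈ (idx m).filter (fun i => Sel D q m i), sq m i, h y *
        Complex.exp (((-(x.1 * y.1 + x.2 * y.2) : ℝ) : ℂ) * Complex.I)‖ₑ ^ (2:ℝ) := by
    refine lintegral_congr fun x => ?_
    congr 2
    unfold uW
    have h5 : Om D q m = ⋃ i ∈ (idx m).filter (fun i => Sel D q m i), sq m i := by
      convert! Om_eq D q m
    rw [h5]
    exact integral_congr_ae (Filter.Eventually.of_forall fun y => ham x y)
  rw [hleft]
  refine hloc.trans (le_of_eq ?_)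
  have hs : ∑ i ∈ (idx m).filter (fun i => Sel D q m i), ENNReal.ofReal (1 / 4 ^ m) *
      ENNReal.ofReal (ww (cell m (gr q m i) - c')) ^ 2 =
      ∑' cc : ℤ × ℤ, ENNReal.ofReal (NN D q m cc) * ENNReal.ofReal (ww (cc - c')) ^ 2 := by
    convert! sum_NN D q m (fun cc => ENNReal.ofReal (ww (cc - c')) ^ 2)
  rw [← hs, Finset.mul_sum, Finset.mul_sum,
    ENNReal.ofReal_sum_of_nonneg fun i _ => by positivity]
  refine Finset.sum_congr rfl fun i _ => ?_
  rw [← ENNReal.ofReal_pow (hww _), ← ENNReal.ofReal_mul (by positivity),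
    ← ENNReal.ofReal_mul (by positivity)]
  congr 1
  show 2000 * ((K * A * ww (cell m (gr q m i) - c')) ^ 2 / 4 ^ m) = _
  ring

theorem measurable_uW (D : ℕ) (c : Cf D) (al : RR) (m : ℕ) (w : ℝ × ℝ → ℂ) (hw : Measurable w) :
    Measurable fun z : ℝ × (ℝ × ℝ) => uW w (Om D (qt c z.1) m) al (qt c z.1) z.2 := by
  set A : Set ((ℝ × (ℝ × ℝ)) × (ℝ × ℝ)) := {w | w.2 ∈ Om D (qt c w.1.1) m} with hA
  have hAm : MeasurableSet A := by
    have h1 : Measurable fun w : (ℝ × (ℝ × ℝ)) × (ℝ × ℝ) => (w.1.1, w.2) :=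
      (measurable_fst.comp measurable_fst).prodMk measurable_snd
    exact h1 (measurableSet_OmT D c m)
  have h2 : StronglyMeasurable (A.indicator fun v => w v.2 * am al (qt c v.1.1) v.1.2 v.2) :=
    (((hw.comp measurable_snd).mul (h4a_am D c al)).indicator hAm).stronglyMeasurable
  have h3 := h2.integral_prod_right' (ν := (volume : Measure (ℝ × ℝ)))
  have h4 : (fun z : ℝ × (ℝ × ℝ) => uW w (Om D (qt c z.1) m) al (qt c z.1) z.2) =
      fun z => ∫ y, (A.indicator fun v => w v.2 * am al (qt c v.1.1) v.1.2 v.2) (z, y) := by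
    funext z
    unfold uW
    rw [← integral_indicator (measurableSet_Om D (qt c z.1) m)]
    refine integral_congr_ae (Filter.Eventually.of_forall fun y => ?_)
    by_cases hy : y ∈ Om D (qt c z.1) m
    · have hy' : ((z, y) : (ℝ × (ℝ × ℝ)) × (ℝ × ℝ)) ∈ A := hy
      show (Om D (qt c z.1) m).indicator _ y = A.indicator _ (z, y)
      rw [Set.indicator_of_mem hy, Set.indicator_of_mem hy']
    · have hy' : ((z, y) : (ℝ × (ℝ × ℝ)) × (ℝ × ℝ)) ∉ A := hy
      show (Om D (qt c z.1) m).indicator _ y = A.indicator _ (z, y)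
      rw [Set.indicator_of_notMem hy, Set.indicator_of_notMem hy']
  rw [h4]
  exact h3.measurable

end Pool.Agent.BVA
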