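import Pool.Agent.PPH.H4c
import Pool.Agent.BVA.C1

/-!
One level with a bounded measurable weight which is small in `L¹`.
-/

namespace Pool.Agent.BVA

open MeasureTheory Set MvPolynomial Pool.Agent.PPH
open scoped ENNReal Real

lemma measurableSet_Qm (m : ℕ) : MeasurableSet (Qm m) :=
  Finset.measurableSet_biUnion _ fun i _ => measurableSet_sq m i

lemma Qm_subset {m : ℕ} (hm : 2 ≤ m) : Qm m ⊆ BB := by
  intro y hy
  unfold Qm at hy
  simp only [mem_iUnion] at hy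
  obtain ⟨i, hi, hyi⟩ := hy
  exact BB0_subset (sq_subset hm hi hyi)

lemma Om_sub_Qm (D : ℕ) (q : RR) (m : ℕ) : Om D q m ⊆ Qm m := by
  rintro y ⟨i, hi, -, hy⟩
  unfold Qm
  simp only [mem_iUnion]
  exact ⟨i, hi, hy⟩

theorem om_t_w (D : ℕ) : ∃ K : ℝ, 0 < K ∧ ∀ (c : Cf D) (m : ℕ), 2 ≤ m → ∀ g : ℝ × ℝ → ℝ≥0∞,
    Measurable g → ∫⁻ t, ∫⁻ y in Om D (qt c t) m, g y ≤
      ENNReal.ofReal (K * 4 ^ m) * ∫⁻ y in Qm m, g y := by
  obtain ⟨C1, eps0, hC1, -, hUL⟩ := Om_UL D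
  refine ⟨2 * C1, by linarith, fun c m hm g hg => ?_⟩
  have hA := measurableSet_OmT D c m
  set F : ℝ → ℝ × ℝ → ℝ≥0∞ := fun t y => {z : ℝ × (ℝ × ℝ) | z.2 ∈ Om D (qt c z.1) m}.indicator
    (fun z => g z.2) (t, y) with hF
  have hFm : Measurable (Function.uncurry F) := (hg.comp measurable_snd).indicator hA
  have h1 : ∀ t, ∫⁻ y in Om D (qt c t) m, g y = ∫⁻ y, F t y := by
    intro t
    rw [← lintegral_indicator (measurableSet_Om D (qt c t) m)]
    refine lintegral_congr fun y => ?_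
    by_cases hy : y ∈ Om D (qt c t) m
    · have hy' : ((t, y) : ℝ × (ℝ × ℝ)) ∈ {z : ℝ × (ℝ × ℝ) | z.2 ∈ Om D (qt c z.1) m} := hy
      rw [Set.indicator_of_mem hy, hF]
      simp only
      rw [Set.indicator_of_mem hy']
    · have hy' : ((t, y) : ℝ × (ℝ × ℝ)) ∉ {z : ℝ × (ℝ × ℝ) | z.2 ∈ Om D (qt c z.1) m} := hy
      rw [Set.indicator_of_notMem hy, hF]
      simp only
      rw [Set.indicator_of_notMem hy']
  simp only [h1]
  rw [lintegral_lintegral_swap hFm.aemeasurable]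
  have h4 : ∀ y : ℝ × ℝ, ∫⁻ t, F t y ≤
      (Qm m).indicator (fun y => ENNReal.ofReal (2 * C1 * 4 ^ m) * g y) y := by
    intro y
    have h5 : ∀ t, F t y = {t : ℝ | y ∈ Om D (qt c t) m}.indicator (fun _ => g y) t := by
      intro t
      rw [hF]
      by_cases hy : y ∈ Om D (qt c t) m
      · have hy' : ((t, y) : ℝ × (ℝ × ℝ)) ∈ {z : ℝ × (ℝ × ℝ) | z.2 ∈ Om D (qt c z.1) m} := hy
        have hy2 : t ∈ {t : ℝ | y ∈ Om D (qt c t) m} := hy
        simp only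
        rw [Set.indicator_of_mem hy', Set.indicator_of_mem hy2]
      · have hy' : ((t, y) : ℝ × (ℝ × ℝ)) ∉ {z : ℝ × (ℝ × ℝ) | z.2 ∈ Om D (qt c z.1) m} := hy
        have hy2 : t ∉ {t : ℝ | y ∈ Om D (qt c t) m} := hy
        simp only
        rw [Set.indicator_of_notMem hy', Set.indicator_of_notMem hy2]
    have h6 : MeasurableSet {t : ℝ | y ∈ Om D (qt c t) m} := by
      exact (measurable_id.prodMk measurable_const : Measurable fun t : ℝ => (t, y)) hA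
    simp only [h5]
    rw [lintegral_indicator h6, setLIntegral_const]
    by_cases hy : y ∈ Qm m
    · rw [Set.indicator_of_mem hy, mul_comm]
      refine mul_le_mul' ?_ le_rfl
      refine le_trans (measure_mono fun t ht => ?_)
        ((bd_t D C1 (2 ^ m) (by linarith) (by positivity) c y (Qm_subset hm hy)).trans ?_)
      · exact (hUL c t m hm).2.1 y ht
      · apply ENNReal.ofReal_le_ofReal
        have h7 : ((2 : ℝ) ^ m) ^ 2 = 4 ^ m := by
          rw [← pow_mul, mul_comm, pow_mul]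
          norm_num
        rw [h7]
    · rw [Set.indicator_of_notMem hy]
      have h8 : {t : ℝ | y ∈ Om D (qt c t) m} = ∅ := by
        ext t
        constructor
        · intro ht
          exact absurd (Om_sub_Qm D _ m ht) hy
        · intro ht
          exact absurd ht (Set.notMem_empty _)
      rw [h8, measure_empty, mul_zero]
  refine (lintegral_mono h4).trans ?_
  rw [lintegral_indicator (measurableSet_Qm m), lintegral_const_mul' _ _ ENNReal.ofReal_ne_top]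

lemma uW_enorm (A : ℝ) (al q : RR) (hAl : Amp A al) (w : ℝ × ℝ → ℂ) (x : ℝ × ℝ) {y : ℝ × ℝ}
    (hy : y ∈ BB) : ‖w y * am al q x y‖ₑ ≤ ‖w y‖ₑ * ENNReal.ofReal A := by
  rw [enorm_mul, h4c_enorm]
  refine mul_le_mul' le_rfl ?_
  have h4 := hAl 0 0 (by norm_num) (by norm_num) y hy
  rw [DD_zero] at h4
  exact ENNReal.ofReal_le_ofReal h4

theorem uW_sup (A : ℝ) (al q : RR) (hAl : Amp A al) (w : ℝ × ℝ → ℂ)
    (F : Set (ℝ × ℝ)) (hF : F ⊆ BB) (hFm : MeasurableSet F) (x : ℝ × ℝ) :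
    ‖uW w F al q x‖ₑ ≤ ENNReal.ofReal A * ∫⁻ y in F, ‖w y‖ₑ := by
  unfold uW
  calc ‖∫ y in F, w y * am al q x y‖ₑ ≤ ∫⁻ y in F, ‖w y * am al q x y‖ₑ :=
        enorm_integral_le_lintegral_enorm _
    _ ≤ ∫⁻ y in F, ENNReal.ofReal A * ‖w y‖ₑ := by
        refine setLIntegral_mono' hFm fun y hy => ?_
        exact (uW_enorm A al q hAl w x (hF hy)).trans_eq (mul_comm _ _)
    _ = ENNReal.ofReal A * ∫⁻ y in F, ‖w y‖ₑ := lintegral_const_mul' _ _ ENNReal.ofReal_ne_top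

theorem uW_L2 (A : ℝ) (al q : RR) (hAl : Amp A al) (w : ℝ × ℝ → ℂ) (hw : Measurable w)
    (hw2 : ∀ y, ‖w y‖ ≤ 2) (F : Set (ℝ × ℝ)) (hF : F ⊆ BB) (hFm : MeasurableSet F) :
    ∫⁻ x : ℝ × ℝ, ‖uW w F al q x‖ₑ ^ (2:ℝ) ≤
      ENNReal.ofReal ((2 * π) ^ 2) * (ENNReal.ofReal A ^ (2:ℝ) * 2 * ∫⁻ y in F, ‖w y‖ₑ) := by
  have hG : Integrable (F.indicator fun y => w y * am al q (0, 0) y) := by
    rw [integrable_indicator_iff hFm]
    exact (integrableOn_w w hw 2 hw2 al q (0, 0)).mono_set hF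
  have h1 := bes2 _ hG
  have h2 : ∀ x : ℝ × ℝ, ∫ y, (F.indicator fun y => w y * am al q (0, 0) y) y *
      Complex.exp (((-(x.1 * y.1 + x.2 * y.2) : ℝ) : ℂ) * Complex.I) = uW w F al q x := by
    intro x
    unfold uW
    rw [← integral_indicator hFm]
    refine integral_congr_ae (Filter.Eventually.of_forall fun y => ?_)
    by_cases hy : y ∈ F
    · simp only [Set.indicator_of_mem hy]
      rw [mul_assoc, h4c_split al q x y]
    · simp only [Set.indicator_of_notMem hy, zero_mul]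
  simp only [h2] at h1
  refine h1.trans (mul_le_mul' le_rfl ?_)
  have h3 : ∀ y : ℝ × ℝ, ‖(F.indicator fun y => w y * am al q (0, 0) y) y‖ₑ ^ (2:ℝ) ≤
      F.indicator (fun y => ENNReal.ofReal A ^ (2:ℝ) * 2 * ‖w y‖ₑ) y := by
    intro y
    by_cases hy : y ∈ F
    · rw [Set.indicator_of_mem hy, Set.indicator_of_mem hy]
      have h4 := uW_enorm A al q hAl w (0, 0) (hF hy)
      have h5 : ‖w y‖ₑ ≤ 2 := by
        have := hw2 y
        rw [← ofReal_norm]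
        calc ENNReal.ofReal ‖w y‖ ≤ ENNReal.ofReal 2 := ENNReal.ofReal_le_ofReal this
          _ = 2 := by simp
      calc ‖w y * am al q (0, 0) y‖ₑ ^ (2:ℝ) ≤ (‖w y‖ₑ * ENNReal.ofReal A) ^ (2:ℝ) :=
            ENNReal.rpow_le_rpow h4 (by norm_num)
        _ = ‖w y‖ₑ ^ (2:ℝ) * ENNReal.ofReal A ^ (2:ℝ) :=
            ENNReal.mul_rpow_of_nonneg _ _ (by norm_num)
        _ ≤ (2 * ‖w y‖ₑ) * ENNReal.ofReal A ^ (2:ℝ) := by
            refine mul_le_mul' ?_ le_rfl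
            have e : ‖w y‖ₑ ^ (2:ℝ) = ‖w y‖ₑ * ‖w y‖ₑ := by
              rw [show (2:ℝ) = ((2:ℕ) : ℝ) by norm_num, ENNReal.rpow_natCast, pow_two]
            rw [e]
            exact mul_le_mul' h5 le_rfl
        _ = ENNReal.ofReal A ^ (2:ℝ) * 2 * ‖w y‖ₑ := by ring
    · rw [Set.indicator_of_notMem hy, Set.indicator_of_notMem hy, enorm_zero,
        ENNReal.zero_rpow_of_pos (by norm_num)]
  have h6 : ENNReal.ofReal A ^ (2:ℝ) * 2 ≠ ∞ :=
    ENNReal.mul_ne_top (ENNReal.rpow_ne_top_of_nonneg (by norm_num) ENNReal.ofReal_ne_top)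
      (by norm_num)
  calc ∫⁻ y, ‖(F.indicator fun y => w y * am al q (0, 0) y) y‖ₑ ^ (2:ℝ)
      ≤ ∫⁻ y, F.indicator (fun y => ENNReal.ofReal A ^ (2:ℝ) * 2 * ‖w y‖ₑ) y := lintegral_mono h3
    _ = ENNReal.ofReal A ^ (2:ℝ) * 2 * ∫⁻ y in F, ‖w y‖ₑ := by
        rw [lintegral_indicator hFm, lintegral_const_mul' _ _ h6]

theorem err_level (D : ℕ) (A p : ℝ) (hp : 2 ≤ p) : ∃ K : ℝ≥0∞, K ≠ ∞ ∧
    ∀ (c : Cf D) (al : RR), Amp A al → ∀ m : ℕ, 2 ≤ m → ∀ w : ℝ × ℝ → ℂ, Measurable w →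
    (∀ y, ‖w y‖ ≤ 2) →
    ∫⁻ t, ∫⁻ x : ℝ × ℝ, ‖uW w (Om D (qt c t) m) al (qt c t) x‖ₑ ^ p ≤
      K * 4 ^ m * (∫⁻ y in Qm m, ‖w y‖ₑ) ^ (p - 1) := by
  obtain ⟨K0, hK0, hom⟩ := om_t_w D
  set B : ℝ≥0∞ := ENNReal.ofReal ((2 * π) ^ 2) * (ENNReal.ofReal A ^ (2:ℝ) * 2) with hB
  have h2 : ENNReal.ofReal A ^ (2:ℝ) ≠ ∞ :=
    ENNReal.rpow_ne_top_of_nonneg (by norm_num) ENNReal.ofReal_ne_top
  have hBt : B ≠ ∞ := ENNReal.mul_ne_top ENNReal.ofReal_ne_top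
    (ENNReal.mul_ne_top h2 (by norm_num))
  have h1 : ENNReal.ofReal A ^ (p - 2) ≠ ∞ :=
    ENNReal.rpow_ne_top_of_nonneg (by linarith) ENNReal.ofReal_ne_top
  refine ⟨ENNReal.ofReal A ^ (p - 2) * B * ENNReal.ofReal K0,
    ENNReal.mul_ne_top (ENNReal.mul_ne_top h1 hBt) ENNReal.ofReal_ne_top,
    fun c al hAl m hm w hw hw2 => ?_⟩
  set J : ℝ≥0∞ := ∫⁻ y in Qm m, ‖w y‖ₑ with hJ
  have hJt : J ≠ ∞ := by
    have h3 : J ≤ 2 * volume BB := by
      calc J ≤ ∫⁻ y in Qm m, 2 := by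
            refine lintegral_mono fun y => ?_
            rw [← ofReal_norm]
            calc ENNReal.ofReal ‖w y‖ ≤ ENNReal.ofReal 2 := ENNReal.ofReal_le_ofReal (hw2 y)
              _ = 2 := by simp
        _ = 2 * volume (Qm m) := setLIntegral_const _ _
        _ ≤ 2 * volume BB := mul_le_mul' le_rfl (measure_mono (Qm_subset hm))
    refine (h3.trans_lt ?_).ne
    rw [volume_BB]
    exact ENNReal.mul_lt_top (by norm_num) ENNReal.ofReal_lt_top
  have h3 : ∀ t : ℝ, ∫⁻ x : ℝ × ℝ, ‖uW w (Om D (qt c t) m) al (qt c t) x‖ₑ ^ p ≤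
      (ENNReal.ofReal A * J) ^ (p - 2) * (B * ∫⁻ y in Om D (qt c t) m, ‖w y‖ₑ) := by
    intro t
    have hE : Om D (qt c t) m ⊆ BB := (Om_subset D (qt c t) hm).trans BB0_subset
    have hEm := measurableSet_Om D (qt c t) m
    have hc1 : (ENNReal.ofReal A * J) ^ (p - 2) ≠ ∞ :=
      ENNReal.rpow_ne_top_of_nonneg (by linarith) (ENNReal.mul_ne_top ENNReal.ofReal_ne_top hJt)
    calc ∫⁻ x : ℝ × ℝ, ‖uW w (Om D (qt c t) m) al (qt c t) x‖ₑ ^ p
        ≤ ∫⁻ x : ℝ × ℝ, (ENNReal.ofReal A * J) ^ (p - 2) *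
            ‖uW w (Om D (qt c t) m) al (qt c t) x‖ₑ ^ (2:ℝ) := by
          refine lintegral_mono fun x => ?_
          have h4 : ‖uW w (Om D (qt c t) m) al (qt c t) x‖ₑ ^ p =
              ‖uW w (Om D (qt c t) m) al (qt c t) x‖ₑ ^ (p - 2) *
                ‖uW w (Om D (qt c t) m) al (qt c t) x‖ₑ ^ (2:ℝ) := by
            rw [← ENNReal.rpow_add_of_nonneg _ _ (by linarith) (by norm_num)]
            congr 1
            ring
          show ‖uW w (Om D (qt c t) m) al (qt c t) x‖ₑ ^ p ≤ _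
          rw [h4]
          refine mul_le_mul' (ENNReal.rpow_le_rpow ?_ (by linarith)) le_rfl
          refine (uW_sup A al _ hAl w _ hE hEm x).trans (mul_le_mul' le_rfl ?_)
          exact lintegral_mono_set (Om_sub_Qm D _ m)
      _ = (ENNReal.ofReal A * J) ^ (p - 2) *
            ∫⁻ x : ℝ × ℝ, ‖uW w (Om D (qt c t) m) al (qt c t) x‖ₑ ^ (2:ℝ) :=
          lintegral_const_mul' _ _ hc1
      _ ≤ (ENNReal.ofReal A * J) ^ (p - 2) * (B * ∫⁻ y in Om D (qt c t) m, ‖w y‖ₑ) := by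
          refine mul_le_mul' le_rfl ?_
          refine (uW_L2 A al _ hAl w hw hw2 _ hE hEm).trans (le_of_eq ?_)
          rw [hB]
          ring
  have hc2 : (ENNReal.ofReal A * J) ^ (p - 2) * B ≠ ∞ := ENNReal.mul_ne_top
    (ENNReal.rpow_ne_top_of_nonneg (by linarith) (ENNReal.mul_ne_top ENNReal.ofReal_ne_top hJt)) hBt
  calc ∫⁻ t, ∫⁻ x : ℝ × ℝ, ‖uW w (Om D (qt c t) m) al (qt c t) x‖ₑ ^ p
      ≤ ∫⁻ t, (ENNReal.ofReal A * J) ^ (p - 2) * B * ∫⁻ y in Om D (qt c t) m, ‖w y‖ₑ := by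
        exact lintegral_mono fun t => (h3 t).trans_eq (mul_assoc _ _ _).symm
    _ = (ENNReal.ofReal A * J) ^ (p - 2) * B * ∫⁻ t, ∫⁻ y in Om D (qt c t) m, ‖w y‖ₑ :=
        lintegral_const_mul' _ _ hc2
    _ ≤ (ENNReal.ofReal A * J) ^ (p - 2) * B * (ENNReal.ofReal (K0 * 4 ^ m) * J) :=
        mul_le_mul' le_rfl (hom c m hm _ hw.enorm)
    _ = ENNReal.ofReal A ^ (p - 2) * B * ENNReal.ofReal K0 * 4 ^ m * J ^ (p - 1) := by
        rw [ENNReal.mul_rpow_of_nonneg _ _ (by linarith), ENNReal.ofReal_mul hK0.le]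
        have e1 : J ^ (p - 1) = J ^ (p - 2) * J := by
          have : p - 1 = (p - 2) + 1 := by ring
          rw [this, ENNReal.rpow_add_of_nonneg _ _ (by linarith) (by norm_num), ENNReal.rpow_one]
        have e2 : ENNReal.ofReal ((4:ℝ) ^ m) = 4 ^ m := by
          rw [ENNReal.ofReal_pow (by norm_num)]
          norm_num
        rw [e1, e2]
        ring

end Pool.Agent.BVA
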