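import Pool.Agent.PPH.H4e
import Pool.Agent.BVA.C2
import Pool.Agent.BVA.C3

/-!
The core estimate in the chart for densities which are approximated by dyadic step functions.
-/

namespace Pool.Agent.BVA

open MeasureTheory Set MvPolynomial Pool.Agent.PPH
open scoped ENNReal Real

theorem uW_le_tsum (D : ℕ) (c : Cf D) (al : RR) (t : ℝ) (x : ℝ × ℝ) (w : ℝ × ℝ → ℂ)
    (hw : Measurable w) (hB : ∀ y, ‖w y‖ ≤ 1) :
    ‖uW w BB al (qt c t) x‖ₑ ≤ ∑' m : ℕ, ‖uW w (Om D (qt c t) (m + 2)) al (qt c t) x‖ₑ := by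
  obtain ⟨M, hM, hM1, hM2⟩ := Om_cover D c t
  have hae : (BB : Set (ℝ × ℝ)) =ᵐ[volume] BB0 := by
    rw [MeasureTheory.ae_eq_set]
    refine ⟨volume_BB_diff, ?_⟩
    rw [Set.sdiff_eq_empty.2 BB0_subset, measure_empty]
  have h1 : uW w BB al (qt c t) x = uW w BB0 al (qt c t) x := by
    unfold uW
    exact setIntegral_congr_set hae
  have h2 : uW w BB0 al (qt c t) x =
      ∑ m ∈ Finset.Icc 2 M, uW w (Om D (qt c t) m) al (qt c t) x := by
    unfold uW
    rw [hM2]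
    refine integral_biUnion_finset (Finset.Icc 2 M) (fun m _ => measurableSet_Om D _ m) ?_ ?_
    · intro i hi j hj hij
      exact Om_disjoint D _ (Finset.mem_Icc.1 (Finset.mem_coe.1 hi)).1
        (Finset.mem_Icc.1 (Finset.mem_coe.1 hj)).1 hij
    · intro i hi
      exact (integrableOn_w w hw 1 hB al (qt c t) x).mono_set
        ((Om_subset D _ (Finset.mem_Icc.1 hi).1).trans BB0_subset)
  rw [h1, h2]
  refine (enorm_sum_le _ _).trans ?_
  have h3 : ∑ m ∈ Finset.Icc 2 M, ‖uW w (Om D (qt c t) m) al (qt c t) x‖ₑ =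
      ∑ k ∈ Finset.range (M + 1 - 2), ‖uW w (Om D (qt c t) (k + 2)) al (qt c t) x‖ₑ := by
    rw [← Finset.Ico_add_one_right_eq_Icc, Finset.sum_Ico_eq_sum_range]
    refine Finset.sum_congr rfl fun k _ => ?_
    rw [add_comm 2 k]
  rw [h3]
  exact ENNReal.sum_le_tsum _

theorem geo_sum (p θ : ℝ) (hp : 1 ≤ p) (h0 : 0 < θ) (h1 : θ < 1) : ∃ C : ℝ≥0∞, C ≠ ∞ ∧
    ∀ (Z : Type) [MeasurableSpace Z] (μ : Measure Z) (g : ℕ → Z → ℝ≥0∞), (∀ m, Measurable (g m)) →
    ∀ M : ℝ≥0∞, (∀ m : ℕ, ∫⁻ z, g m z ^ p ∂μ ≤ M * ENNReal.ofReal (θ ^ m)) →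
    ∫⁻ z, (∑' m, g m z) ^ p ∂μ ≤ C * M := by
  have hp0 : 0 < p := by linarith
  set ρ : ℝ := √θ with hρ
  have hρ0 : 0 < ρ := Real.sqrt_pos.2 h0
  have hρ1 : ρ < 1 := by
    rw [hρ, Real.sqrt_lt' one_pos]
    linarith
  have hρ2 : ρ * ρ = θ := Real.mul_self_sqrt h0.le
  set η : ℝ := ρ ^ (1 / p) with hη
  have hη0 : 0 < η := Real.rpow_pos_of_pos hρ0 _
  have hη1 : η < 1 := Real.rpow_lt_one hρ0.le hρ1 (by positivity)
  have hηp : η ^ p = ρ := by
    rw [hη, ← Real.rpow_mul hρ0.le, one_div_mul_cancel hp0.ne', Real.rpow_one]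
  set w : ℕ → ℝ≥0∞ := fun k => ENNReal.ofReal (η ^ k) with hw
  have hw0 : ∀ k, w k ≠ 0 := fun k => by
    rw [hw]
    simp only [ne_eq, ENNReal.ofReal_eq_zero, not_le]
    positivity
  have hwt : ∀ k, w k ≠ ∞ := fun k => ENNReal.ofReal_ne_top
  have hwp : ∀ k, w k ^ p = ENNReal.ofReal (ρ ^ k) := fun k => by
    rw [hw]
    simp only
    rw [ENNReal.ofReal_rpow_of_nonneg (by positivity) hp0.le]
    congr 1
    rw [← hηp]
    rw [← Real.rpow_natCast, ← Real.rpow_natCast, ← Real.rpow_mul hη0.le, ← Real.rpow_mul hη0.le,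
      mul_comm]
  have hsw : ∑' k, w k ≠ ∞ := by
    rw [hw, ← ENNReal.ofReal_tsum_of_nonneg (fun k => by positivity)
      (summable_geometric_of_lt_one hη0.le hη1)]
    exact ENNReal.ofReal_ne_top
  have hsρ : ∑' k : ℕ, ENNReal.ofReal (ρ ^ k) ≠ ∞ := by
    rw [← ENNReal.ofReal_tsum_of_nonneg (fun k => by positivity)
      (summable_geometric_of_lt_one hρ0.le hρ1)]
    exact ENNReal.ofReal_ne_top
  refine ⟨(∑' k, w k) ^ p * ∑' k : ℕ, ENNReal.ofReal (ρ ^ k),
    ENNReal.mul_ne_top (ENNReal.rpow_ne_top_of_nonneg hp0.le hsw) hsρ, ?_⟩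
  intro Z _ μ g hg M hM
  have hc : (∑' k, w k) ^ p ≠ ∞ := ENNReal.rpow_ne_top_of_nonneg hp0.le hsw
  calc ∫⁻ z, (∑' m, g m z) ^ p ∂μ
      ≤ ∫⁻ z, (∑' k, w k) ^ p * ∑' k, g k z ^ p / w k ^ p ∂μ :=
        lintegral_mono fun z => h4d_tsum_rpow_le (fun k => g k z) w hw0 hwt hp0
    _ = (∑' k, w k) ^ p * ∑' k, ∫⁻ z, g k z ^ p / w k ^ p ∂μ := by
        rw [lintegral_const_mul' _ _ hc, lintegral_tsum fun k =>
          (((hg k).pow_const p).div_const _).aemeasurable]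
    _ ≤ (∑' k, w k) ^ p * ∑' k : ℕ, ENNReal.ofReal (ρ ^ k) * M := by
        refine mul_le_mul' le_rfl (ENNReal.tsum_le_tsum fun k => ?_)
        have e1 : ∫⁻ z, g k z ^ p / w k ^ p ∂μ = (∫⁻ z, g k z ^ p ∂μ) * (w k ^ p)⁻¹ := by
          simp only [div_eq_mul_inv]
          rw [lintegral_mul_const _ ((hg k).pow_const p)]
        rw [e1, hwp]
        have hk0 : 0 < ρ ^ k := by positivity
        calc (∫⁻ z, g k z ^ p ∂μ) * (ENNReal.ofReal (ρ ^ k))⁻¹
            ≤ (M * ENNReal.ofReal (θ ^ k)) * (ENNReal.ofReal (ρ ^ k))⁻¹ :=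
              mul_le_mul' (hM k) le_rfl
          _ = ENNReal.ofReal (ρ ^ k) * M := by
              have e2 : ENNReal.ofReal (θ ^ k) = ENNReal.ofReal (ρ ^ k) * ENNReal.ofReal (ρ ^ k) := by
                rw [← ENNReal.ofReal_mul hk0.le, ← mul_pow, hρ2]
              rw [e2]
              have e3 : ENNReal.ofReal (ρ ^ k) * (ENNReal.ofReal (ρ ^ k))⁻¹ = 1 :=
                ENNReal.mul_inv_cancel (by simpa using hk0) ENNReal.ofReal_ne_top
              calc M * (ENNReal.ofReal (ρ ^ k) * ENNReal.ofReal (ρ ^ k)) *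
                    (ENNReal.ofReal (ρ ^ k))⁻¹
                  = M * ENNReal.ofReal (ρ ^ k) *
                    (ENNReal.ofReal (ρ ^ k) * (ENNReal.ofReal (ρ ^ k))⁻¹) := by ring
                _ = ENNReal.ofReal (ρ ^ k) * M := by rw [e3, mul_one, mul_comm]
    _ = (∑' k, w k) ^ p * (∑' k : ℕ, ENNReal.ofReal (ρ ^ k)) * M := by
        rw [ENNReal.tsum_mul_right, mul_assoc]

theorem core_bv (D : ℕ) (A p s : ℝ) (hA : 0 ≤ A) (hs : 0 < s) (hp3 : 3 < p) (hp : 1 + 2 / s < p) :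
    ∃ C : ℝ≥0∞, C ≠ ∞ ∧ ∀ (c : Cf D) (al : RR), Amp A al → ∀ V : ℝ, 1 ≤ V →
    ∀ a : ℝ × ℝ → ℂ, Measurable a → (∀ y, ‖a y‖ ≤ 1) → Apx s V a →
    ∫⁻ z : ℝ × (ℝ × ℝ), ‖uW a BB al (qt c z.1) z.2‖ₑ ^ p ≤ C * ENNReal.ofReal V ^ (p - 1) := by
  obtain ⟨K1, hK1, hlev⟩ := levelB D A p hA hp3
  obtain ⟨K2, hK2, herr⟩ := err_level D A p (by linarith)
  have hp0 : 0 ≤ p := by linarith
  set θ : ℝ := 2 ^ (2 - s * (p - 1)) with hθ
  have hθ0 : 0 < θ := Real.rpow_pos_of_pos two_pos _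
  have hθ1 : θ < 1 := by
    refine Real.rpow_lt_one_of_one_lt_of_neg one_lt_two ?_
    have h1 : 2 / s < p - 1 := by linarith
    rw [div_lt_iff₀ hs] at h1
    linarith
  obtain ⟨C1, hC1, hS⟩ := sum_levels p K1 hp3 hK1
  obtain ⟨C2, hC2, hG⟩ := geo_sum p θ (by linarith) hθ0 hθ1
  refine ⟨2 ^ (p - 1) * (C1 + C2 * (16 * K2)), ?_, ?_⟩
  · refine ENNReal.mul_ne_top (ENNReal.rpow_ne_top_of_nonneg (by linarith) (by norm_num))
      (ENNReal.add_ne_top.2 ⟨hC1, ENNReal.mul_ne_top hC2 (ENNReal.mul_ne_top (by norm_num) hK2)⟩)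
  intro c al hal V hV a ha ha1 hapx
  have hβ : ∀ k : ℕ, ∃ β : ℤ × ℤ → ℂ, (∀ i, ‖β i‖ ≤ 1) ∧
    ∑ i ∈ idx (k + 2), ∫⁻ y in sq (k + 2) i, ‖a y - β i‖ₑ ≤
      ENNReal.ofReal (V * 2 ^ (-(s * ((k + 2 : ℕ) : ℝ)))) := fun k => hapx (k + 2) (by omega)
  choose β hβ1 hβ2 using hβ
  have hV1 : 1 ≤ ENNReal.ofReal V ^ (p - 1) := by
    refine ENNReal.one_le_rpow ?_ (by linarith)
    rw [← ENNReal.ofReal_one]
    exact ENNReal.ofReal_le_ofReal hV
  -- the two families
  set wt : ℕ → ℝ × ℝ → ℂ := fun k => if k = 0 then a else fun y => a y - stp (k + 2) (β k) y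
    with hwt
  set f : ℕ → ℝ × (ℝ × ℝ) → ℝ≥0∞ := fun k z => if k = 0 then 0 else
    ‖uW (stp (k + 2) (β k)) (Om D (qt c z.1) (k + 2)) al (qt c z.1) z.2‖ₑ with hf
  set g : ℕ → ℝ × (ℝ × ℝ) → ℝ≥0∞ := fun k z =>
    ‖uW (wt k) (Om D (qt c z.1) (k + 2)) al (qt c z.1) z.2‖ₑ with hg
  have hwm : ∀ k, Measurable (wt k) := by
    intro k
    rw [hwt]
    by_cases hk : k = 0
    · simp only [hk, if_true]
      exact ha
    · simp only [hk, if_false]
      exact ha.sub (measurable_stp _ _)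
  have hw2 : ∀ k y, ‖wt k y‖ ≤ 2 := by
    intro k y
    rw [hwt]
    by_cases hk : k = 0
    · simp only [hk, if_true]
      linarith [ha1 y]
    · simp only [hk, if_false]
      calc ‖a y - stp (k + 2) (β k) y‖ ≤ ‖a y‖ + ‖stp (k + 2) (β k) y‖ := norm_sub_le _ _
        _ ≤ 2 := by linarith [ha1 y, norm_stp_le (m := k + 2) (hβ1 k) y]
  have hfm : ∀ k, Measurable (f k) := by
    intro k
    rw [hf]
    by_cases hk : k = 0
    · simp only [hk, if_true]
      exact measurable_const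
    · simp only [hk, if_false]
      exact (measurable_uW D c al (k + 2) _ (measurable_stp _ _)).enorm
  have hgm : ∀ k, Measurable (g k) := fun k => (measurable_uW D c al (k + 2) _ (hwm k)).enorm
  have hle : ∀ z : ℝ × (ℝ × ℝ), ‖uW a BB al (qt c z.1) z.2‖ₑ ≤ (∑' k, f k z) + ∑' k, g k z := by
    intro z
    rw [← ENNReal.tsum_add]
    refine (uW_le_tsum D c al z.1 z.2 a ha ha1).trans (ENNReal.tsum_le_tsum fun k => ?_)
    rw [hf, hg]
    by_cases hk : k = 0
    · simp only [hk, if_true, hwt, zero_add]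
      exact le_rfl
    · simp only [hk, if_false, hwt]
      have hsub : Om D (qt c z.1) (k + 2) ⊆ BB :=
        (Om_subset D (qt c z.1) (by omega)).trans BB0_subset
      have i1 : IntegrableOn (fun y => stp (k + 2) (β k) y * am al (qt c z.1) z.2 y)
          (Om D (qt c z.1) (k + 2)) :=
        (integrableOn_w _ (measurable_stp _ _) 1 (norm_stp_le (hβ1 k)) al _ _).mono_set hsub
      have i2 : IntegrableOn (fun y => (a y - stp (k + 2) (β k) y) * am al (qt c z.1) z.2 y)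
          (Om D (qt c z.1) (k + 2)) := by
        refine (integrableOn_w _ (ha.sub (measurable_stp _ _)) 2 (fun y => ?_) al _ _).mono_set hsub
        calc ‖a y - stp (k + 2) (β k) y‖ ≤ ‖a y‖ + ‖stp (k + 2) (β k) y‖ := norm_sub_le _ _
          _ ≤ 2 := by linarith [ha1 y, norm_stp_le (m := k + 2) (hβ1 k) y]
      have e : uW a (Om D (qt c z.1) (k + 2)) al (qt c z.1) z.2 =
          uW (stp (k + 2) (β k)) (Om D (qt c z.1) (k + 2)) al (qt c z.1) z.2 +
          uW (fun y => a y - stp (k + 2) (β k) y) (Om D (qt c z.1) (k + 2)) al (qt c z.1) z.2 := by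
        unfold uW
        rw [← integral_add i1 i2]
        refine integral_congr_ae (Filter.Eventually.of_forall fun y => ?_)
        simp only
        ring
      rw [e]
      exact enorm_add_le _ _
  have hfub : ∀ (w : ℝ × ℝ → ℂ) (k : ℕ), Measurable w →
      ∫⁻ z : ℝ × (ℝ × ℝ), ‖uW w (Om D (qt c z.1) (k + 2)) al (qt c z.1) z.2‖ₑ ^ p =
      ∫⁻ t, ∫⁻ x : ℝ × ℝ, ‖uW w (Om D (qt c t) (k + 2)) al (qt c t) x‖ₑ ^ p := by
    intro w k hw
    rw [Measure.volume_eq_prod ℝ (ℝ × ℝ)]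
    exact lintegral_prod _ ((measurable_uW D c al (k + 2) w hw).enorm.pow_const p).aemeasurable
  have hF : ∫⁻ z, (∑' k, f k z) ^ p ≤ C1 := by
    refine hS (ℝ × (ℝ × ℝ)) volume f hfm ?_ ?_
    · have : ∀ z, f 0 z ^ p = 0 := by
        intro z
        rw [hf]
        simp only [if_true]
        exact ENNReal.zero_rpow_of_pos (by linarith)
      simp only [this, lintegral_zero]
      exact zero_le
    · intro k hk
      have hk0 : k ≠ 0 := by omega
      have e : ∀ z, f k z ^ p =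
          ‖uW (stp (k + 2) (β k)) (Om D (qt c z.1) (k + 2)) al (qt c z.1) z.2‖ₑ ^ p := by
        intro z
        rw [hf]
        simp only [hk0, if_false]
      simp only [e]
      rw [hfub _ _ (measurable_stp _ _)]
      refine (hlev c al hal (k + 2) (by omega) (β k) (hβ1 k)).trans ?_
      push_cast
      exact le_rfl
  have hGG : ∫⁻ z, (∑' k, g k z) ^ p ≤ C2 * (16 * K2 * ENNReal.ofReal V ^ (p - 1)) := by
    refine hG (ℝ × (ℝ × ℝ)) volume g hgm _ fun k => ?_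
    have e0 : ∫⁻ z, g k z ^ p ≤ K2 * 4 ^ (k + 2) * (∫⁻ y in Qm (k + 2), ‖wt k y‖ₑ) ^ (p - 1) := by
      rw [hg]
      simp only
      rw [hfub _ _ (hwm k)]
      exact herr c al hal (k + 2) (by omega) (wt k) (hwm k) (hw2 k)
    refine e0.trans ?_
    by_cases hk : k = 0
    · have h3 : ∫⁻ y in Qm (k + 2), ‖wt k y‖ₑ ≤ 1 := by
        calc ∫⁻ y in Qm (k + 2), ‖wt k y‖ₑ ≤ ∫⁻ y in Qm (k + 2), 1 := by
              refine lintegral_mono fun y => ?_
              rw [hwt]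
              simp only [hk, if_true]
              rw [← ofReal_norm, ← ENNReal.ofReal_one]
              exact ENNReal.ofReal_le_ofReal (ha1 y)
          _ = volume (Qm (k + 2)) := setLIntegral_one _
          _ ≤ volume BB := measure_mono (Qm_subset (by omega))
          _ ≤ 1 := by
              rw [volume_BB, ← ENNReal.ofReal_one]
              exact ENNReal.ofReal_le_ofReal (by norm_num)
      calc K2 * 4 ^ (k + 2) * (∫⁻ y in Qm (k + 2), ‖wt k y‖ₑ) ^ (p - 1)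
          ≤ K2 * 4 ^ (k + 2) * 1 := by
            refine mul_le_mul' le_rfl ?_
            calc (∫⁻ y in Qm (k + 2), ‖wt k y‖ₑ) ^ (p - 1) ≤ 1 ^ (p - 1) :=
                  ENNReal.rpow_le_rpow h3 (by linarith)
              _ = 1 := ENNReal.one_rpow _
        _ = 16 * K2 * 1 := by
            rw [hk]
            norm_num
            ring
        _ ≤ 16 * K2 * ENNReal.ofReal V ^ (p - 1) := mul_le_mul' le_rfl hV1
        _ = 16 * K2 * ENNReal.ofReal V ^ (p - 1) * ENNReal.ofReal (θ ^ k) := by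
            rw [hk, pow_zero, ENNReal.ofReal_one, mul_one]
    · have h3 : ∫⁻ y in Qm (k + 2), ‖wt k y‖ₑ ≤ ENNReal.ofReal (V * 2 ^ (-(s * ((k + 2 : ℕ) : ℝ)))) := by
        refine le_trans (le_of_eq ?_) (hβ2 k)
        unfold Qm
        rw [lintegral_biUnion_finset (h1c_disj (k + 2) _) fun i _ => measurableSet_sq (k + 2) i]
        refine Finset.sum_congr rfl fun i _ => ?_
        refine setLIntegral_congr_fun (measurableSet_sq (k + 2) i) fun y hy => ?_
        rw [hwt]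
        simp only [hk, if_false]
        rw [stp_sq hy]
      have hV0 : 0 ≤ V := by linarith
      have h4 : (∫⁻ y in Qm (k + 2), ‖wt k y‖ₑ) ^ (p - 1) ≤
          ENNReal.ofReal V ^ (p - 1) * ENNReal.ofReal ((2 ^ (-(s * (p - 1)))) ^ (k + 2)) := by
        refine (ENNReal.rpow_le_rpow h3 (by linarith)).trans (le_of_eq ?_)
        rw [ENNReal.ofReal_mul hV0, ENNReal.mul_rpow_of_nonneg _ _ (by linarith)]
        congr 1
        rw [ENNReal.ofReal_rpow_of_nonneg (by positivity) (by linarith)]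
        congr 1
        rw [← Real.rpow_natCast (2 ^ (-(s * (p - 1)))), ← Real.rpow_mul (by norm_num),
          ← Real.rpow_mul (by norm_num)]
        congr 1
        ring
      calc K2 * 4 ^ (k + 2) * (∫⁻ y in Qm (k + 2), ‖wt k y‖ₑ) ^ (p - 1)
          ≤ K2 * 4 ^ (k + 2) * (ENNReal.ofReal V ^ (p - 1) *
            ENNReal.ofReal ((2 ^ (-(s * (p - 1)))) ^ (k + 2))) := mul_le_mul' le_rfl h4
        _ = K2 * ENNReal.ofReal V ^ (p - 1) * ENNReal.ofReal (θ ^ (k + 2)) := by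
            have e4 : ((4:ℝ≥0∞)) ^ (k + 2) = ENNReal.ofReal (4 ^ (k + 2)) := by
              rw [ENNReal.ofReal_pow (by norm_num)]
              norm_num
            have e5 : θ ^ (k + 2) = 4 ^ (k + 2) * (2 ^ (-(s * (p - 1)))) ^ (k + 2) := by
              rw [← mul_pow]
              congr 1
              rw [hθ, sub_eq_add_neg, Real.rpow_add two_pos]
              norm_num
            rw [e4, e5, ENNReal.ofReal_mul (by positivity)]
            ring
        _ ≤ 16 * K2 * ENNReal.ofReal V ^ (p - 1) * ENNReal.ofReal (θ ^ k) := by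
            refine mul_le_mul' (mul_le_mul' ?_ le_rfl) (ENNReal.ofReal_le_ofReal ?_)
            · calc K2 = 1 * K2 := (one_mul _).symm
                _ ≤ 16 * K2 := mul_le_mul' (by norm_num) le_rfl
            · exact pow_le_pow_of_le_one hθ0.le hθ1.le (by omega)
  have hm1 : Measurable fun z : ℝ × (ℝ × ℝ) => (∑' k, f k z) ^ p :=
    (Measurable.ennreal_tsum hfm).pow_const p
  calc ∫⁻ z : ℝ × (ℝ × ℝ), ‖uW a BB al (qt c z.1) z.2‖ₑ ^ p
      ≤ ∫⁻ z, 2 ^ (p - 1) * ((∑' k, f k z) ^ p + (∑' k, g k z) ^ p) :=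
        lintegral_mono fun z => (ENNReal.rpow_le_rpow (hle z) hp0).trans
          (ENNReal.rpow_add_le_mul_rpow_add_rpow _ _ (by linarith))
    _ = 2 ^ (p - 1) * ((∫⁻ z, (∑' k, f k z) ^ p) + ∫⁻ z, (∑' k, g k z) ^ p) := by
        rw [lintegral_const_mul' _ _ (ENNReal.rpow_ne_top_of_nonneg (by linarith) (by norm_num)),
          lintegral_add_left hm1]
    _ ≤ 2 ^ (p - 1) * (C1 * ENNReal.ofReal V ^ (p - 1) +
          C2 * (16 * K2 * ENNReal.ofReal V ^ (p - 1))) := by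
        refine mul_le_mul' le_rfl (add_le_add (hF.trans ?_) hGG)
        calc C1 = C1 * 1 := (mul_one _).symm
          _ ≤ _ := mul_le_mul' le_rfl hV1
    _ = 2 ^ (p - 1) * (C1 + C2 * (16 * K2)) * ENNReal.ofReal V ^ (p - 1) := by ring

end Pool.Agent.BVA
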