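import Pool.Agent.BVA.Defs

/-!
The class of amplitudes.
-/

namespace Pool.Agent.BVA

open MeasureTheory Set Pool.Agent.MP_6cbfb8_an
open scoped ENNReal Real

/-- Measurable functions bounded by one with the modulus of continuity `V r ^ s` in `L¹`. -/
def Cl (s V : ℝ) (a : E 3 → ℂ) : Prop := Measurable a ∧ (∀ x, ‖a x‖ ≤ 1) ∧ BVar s V a

end Pool.Agent.BVA
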