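import Pool.Agent.PPH.S0
import Pool.Agent.PPH.S2
import Pool.Agent.PPH.S4a
import Pool.Agent.PPH.S4b

/-!
ROW R1b. The damped cuts for `a * GG c cs` with one fixed bounded measurable `a`
(a copy of PPH S4b with `GA a c cs` in place of `GG c cs`).
-/

namespace Pool.Agent.BVA

open MeasureTheory Set MvPolynomial Pool.Agent.PPH
open scoped ENNReal Real

/-- The density `a (1/ψ) e^{i q_c} ∏ 1_{q_{c_i} > 0}`. -/
noncomputable def GA (a : ℝ × ℝ → ℂ) {D N : ℕ} (c : Cf D) (cs : Fin N → Cf D) (y : ℝ × ℝ) : ℂ :=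
  a y * GG c cs y

theorem measurable_GA {a : ℝ × ℝ → ℂ} (ham : Measurable a) {D N : ℕ} (c : Cf D)
    (cs : Fin N → Cf D) : Measurable (GA a c cs) := ham.mul (measurable_GG c cs)

theorem norm_GA_le {a : ℝ × ℝ → ℂ} (ha : ∀ y, ‖a y‖ ≤ 1) {D N : ℕ} (c : Cf D)
    (cs : Fin N → Cf D) {y : ℝ × ℝ} (hy : y ∈ BB) : ‖GA a c cs y‖ ≤ 10 / 9 := by
  unfold GA
  rw [norm_mul]
  calc ‖a y‖ * ‖GG c cs y‖ ≤ 1 * (10 / 9) :=
        mul_le_mul (ha y) (norm_GG_le c cs hy) (norm_nonneg _) zero_le_one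
    _ = 10 / 9 := one_mul _

lemma r1b_shift (a : ℝ × ℝ → ℂ) {D N : ℕ} (c : Cf D) (cs : Fin N → Cf D) (c1 : Cf D) (r s : ℝ)
    (y : ℝ × ℝ) :
    GA a (c + (s * r) • c1) cs y = GA a c cs y *
      Complex.exp (((s * (r * ev (qq c1) y) : ℝ) : ℂ) * Complex.I) := by
  unfold GA
  rw [s4b_shift, mul_assoc]

lemma r1b_formula {a : ℝ × ℝ → ℂ} (ham : Measurable a) (ha : ∀ y, ‖a y‖ ≤ 1) {D N : ℕ} (c : Cf D) (cs : Fin N → Cf D) (c1 : Cf D) (r : ℝ)
    (z : ℝ × (ℝ × ℝ)) :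
    VV (fun y => GA a c cs y *
      ((r * ev (qq c1) y * Real.exp (-(r * ev (qq c1) y) ^ 2) : ℝ) : ℂ)) z =
      ∫ s : ℝ, s4b_w s * VV (GA a (c + (s * r) • c1) cs) z := by
  set Ez : ℝ × ℝ → ℂ := fun y =>
    Complex.exp (((z.1 * psi y - z.2.1 * y.1 - z.2.2 * y.2 : ℝ) : ℂ) * Complex.I) with hEz
  have hEzm : Measurable Ez := by
    rw [hEz]
    have := continuous_psi.measurable
    fun_prop
  set f : ℝ × ℝ → ℝ → ℂ := fun y s => s4b_w s * (GA a (c + (s * r) • c1) cs y * Ez y) with hf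
  have hq := measurable_ev (qq c1)
  have hGm := measurable_GA ham c cs
  have hfm : Measurable (Function.uncurry f) := by
    have : Function.uncurry f = fun x : (ℝ × ℝ) × ℝ => s4b_w x.2 * ((GA a c cs x.1 *
        Complex.exp (((x.2 * (r * ev (qq c1) x.1) : ℝ) : ℂ) * Complex.I)) * Ez x.1) := by
      funext x
      simp only [Function.uncurry, hf, r1b_shift]
    rw [this]
    have h1 : Measurable fun x : (ℝ × ℝ) × ℝ => s4b_w x.2 := s4b_w_meas.comp measurable_snd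
    have h2 : Measurable fun x : (ℝ × ℝ) × ℝ => GA a c cs x.1 := hGm.comp measurable_fst
    have h3 : Measurable fun x : (ℝ × ℝ) × ℝ => Ez x.1 := hEzm.comp measurable_fst
    have h4 : Measurable fun x : (ℝ × ℝ) × ℝ => ev (qq c1) x.1 := hq.comp measurable_fst
    refine h1.mul ((h2.mul ?_).mul h3)
    fun_prop
  have hGi : IntegrableOn (GA a c cs) BB := by
    refine Measure.integrableOn_of_bounded (M := 10 / 9) isCompact_BB.measure_lt_top.ne
      hGm.aestronglyMeasurable ?_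
    exact (ae_restrict_iff' measurableSet_BB).mpr
      (Filter.Eventually.of_forall fun y hy => norm_GA_le ha c cs hy)
  have hfi : Integrable (Function.uncurry f) ((volume.restrict BB).prod volume) := by
    refine (Integrable.mul_prod (Integrable.norm hGi) s4b_g_int).mono'
      hfm.aestronglyMeasurable (Filter.Eventually.of_forall fun x => ?_)
    simp only [Function.uncurry, hf, r1b_shift, norm_mul, s4b_w_norm, hEz, s4b_norm_exp, mul_one]
    rw [mul_comm]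
  unfold VV
  have step : ∀ y : ℝ × ℝ, (GA a c cs y *
      ((r * ev (qq c1) y * Real.exp (-(r * ev (qq c1) y) ^ 2) : ℝ) : ℂ)) * Ez y =
      ∫ s : ℝ, f y s := by
    intro y
    rw [gauss_four, ← integral_const_mul, ← integral_mul_const]
    congr 1
    funext s
    simp only [hf, r1b_shift, s4b_w]
    ring
  calc ∫ y in BB, (GA a c cs y *
        ((r * ev (qq c1) y * Real.exp (-(r * ev (qq c1) y) ^ 2) : ℝ) : ℂ)) * Ez y
      = ∫ y in BB, ∫ s : ℝ, f y s := by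
        congr 1
        funext y
        exact step y
    _ = ∫ s : ℝ, ∫ y in BB, f y s := integral_integral_swap hfi
    _ = _ := by
        congr 1
        funext s
        simp only [hf]
        rw [integral_const_mul]

theorem damped_bv {a : ℝ × ℝ → ℂ} (ham : Measurable a) (ha : ∀ y, ‖a y‖ ≤ 1) {D N : ℕ}
    (p : ℝ) (hp : 1 ≤ p) (C : ℝ≥0∞)
    (H : ∀ (c : Cf D) (cs : Fin N → Cf D),
      ∫⁻ z : ℝ × (ℝ × ℝ), ‖VV (GA a c cs) z‖ₑ ^ p ≤ C)
    (c : Cf D) (cs : Fin N → Cf D) (c1 : Cf D) (r : ℝ) :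
    ∫⁻ z : ℝ × (ℝ × ℝ), ‖VV (fun y => GA a c cs y *
      ((r * ev (qq c1) y * Real.exp (-(r * ev (qq c1) y) ^ 2) : ℝ) : ℂ)) z‖ₑ ^ p ≤ C := by
  set ν : Measure ℝ := volume.withDensity (fun s => ENNReal.ofReal (s4b_g s)) with hν
  have hνu : ν univ ≤ 1 := by
    rw [hν, withDensity_apply _ MeasurableSet.univ, Measure.restrict_univ]
    exact gauss_mass
  have hfin : IsFiniteMeasure ν := ⟨lt_of_le_of_lt hνu (by simp)⟩
  have hGm := measurable_GA ham c cs
  have hq := measurable_ev (qq c1)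
  have hhm : Measurable (Function.uncurry fun (s : ℝ) (y : ℝ × ℝ) =>
      GA a (c + (s * r) • c1) cs y) := by
    have : (Function.uncurry fun (s : ℝ) (y : ℝ × ℝ) => GA a (c + (s * r) • c1) cs y) =
        fun x : ℝ × (ℝ × ℝ) => GA a c cs x.2 *
          Complex.exp (((x.1 * (r * ev (qq c1) x.2) : ℝ) : ℂ) * Complex.I) := by
      funext x
      simp only [Function.uncurry, r1b_shift]
    rw [this]
    have h2 : Measurable fun x : ℝ × (ℝ × ℝ) => GA a c cs x.2 := hGm.comp measurable_snd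
    have h4 : Measurable fun x : ℝ × (ℝ × ℝ) => ev (qq c1) x.2 := hq.comp measurable_snd
    refine h2.mul ?_
    fun_prop
  have hVm := measurable_VV (fun (s : ℝ) (y : ℝ × ℝ) => GA a (c + (s * r) • c1) cs y) hhm
  set F : ℝ → ℝ × (ℝ × ℝ) → ℝ≥0∞ := fun s z => ‖VV (GA a (c + (s * r) • c1) cs) z‖ₑ with hF
  have hFm : Measurable (Function.uncurry F) := hVm.enorm
  have hpt : ∀ z : ℝ × (ℝ × ℝ), ‖VV (fun y => GA a c cs y *
      ((r * ev (qq c1) y * Real.exp (-(r * ev (qq c1) y) ^ 2) : ℝ) : ℂ)) z‖ₑ ≤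
      ∫⁻ s, F s z ∂ν := by
    intro z
    rw [r1b_formula ham ha]
    refine (enorm_integral_le_lintegral_enorm _).trans (le_of_eq ?_)
    have hFz : Measurable fun s => F s z := Measurable.of_uncurry_right hFm
    rw [hν, lintegral_withDensity_eq_lintegral_mul _ s4b_g_meas.ennreal_ofReal hFz]
    congr 1
    funext s
    rw [Pi.mul_apply, enorm_mul, ← ofReal_norm, s4b_w_norm]
  calc ∫⁻ z : ℝ × (ℝ × ℝ), ‖VV (fun y => GA a c cs y *
        ((r * ev (qq c1) y * Real.exp (-(r * ev (qq c1) y) ^ 2) : ℝ) : ℂ)) z‖ₑ ^ p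
      ≤ ∫⁻ z : ℝ × (ℝ × ℝ), (∫⁻ s, F s z ∂ν) ^ p :=
        lintegral_mono fun z => ENNReal.rpow_le_rpow (hpt z) (by linarith)
    _ ≤ ν univ ^ (p - 1) * ∫⁻ s, (∫⁻ z, F s z ^ p) ∂ν := mink ν volume F hFm p hp
    _ ≤ 1 * ∫⁻ _s, C ∂ν := by
        gcongr
        · exact ENNReal.rpow_le_one hνu (by linarith)
        · exact H _ _
    _ ≤ C := by
        rw [lintegral_const, one_mul]
        calc C * ν univ ≤ C * 1 := by gcongr
          _ = C := mul_one C

end Pool.Agent.BVA
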