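import Pool.Agent.PPH.S4c
import Pool.Agent.BVA.R1b

/-!
ROW R1c. One more polynomial cut for `a * GG c cs` (a copy of PPH S4c with `GA a c cs` in place
of `GG c cs`).
-/

namespace Pool.Agent.BVA

open MeasureTheory Set MvPolynomial Pool.Agent.PPH
open scoped ENNReal Real

/-- the damped cut -/
noncomputable def TA (a : ℝ × ℝ → ℂ) {D N : ℕ} (c : Cf D) (cs : Fin N → Cf D) (c1 : Cf D) (r : ℝ) (y : ℝ × ℝ) : ℂ :=
  GA a c cs y * ((r * ev (qq c1) y * Real.exp (-(r * ev (qq c1) y) ^ 2) : ℝ) : ℂ)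

lemma r1c_meas {a : ℝ × ℝ → ℂ} (ham : Measurable a) {D N : ℕ} (c : Cf D) (cs : Fin N → Cf D) (c1 : Cf D) :
    Measurable (fun q : ℝ × (ℝ × ℝ) => TA a c cs c1 q.1 q.2) := by
  unfold TA
  have h1 : Measurable (fun q : ℝ × (ℝ × ℝ) => GA a c cs q.2) := (measurable_GA ham c cs).comp measurable_snd
  have h2 : Measurable (fun q : ℝ × (ℝ × ℝ) => ev (qq c1) q.2) := (measurable_ev _).comp measurable_snd
  have h3 : Measurable (fun q : ℝ × (ℝ × ℝ) =>
      q.1 * ev (qq c1) q.2 * Real.exp (-(q.1 * ev (qq c1) q.2) ^ 2)) :=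
    (measurable_fst.mul h2).mul (Real.measurable_exp.comp (((measurable_fst.mul h2).pow_const 2).neg))
  exact h1.mul (Complex.measurable_ofReal.comp h3)

/-- Fubini -/
lemma r1c_step {a : ℝ × ℝ → ℂ} (ham : Measurable a) (ha : ∀ y, ‖a y‖ ≤ 1) {D N : ℕ} (c : Cf D) (cs : Fin N → Cf D) (c1 : Cf D) (hc1 : c1 ≠ 0)
    (z : ℝ × (ℝ × ℝ)) :
    ‖VV (fun y => GA a c cs y * cut c1 y) z‖ₑ ≤ ‖VV (GA a c cs) z‖ₑ +
      ∫⁻ r in Ioi (0:ℝ), ENNReal.ofReal (1 / r) * ‖VV (TA a c cs c1 r) z‖ₑ := by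
  set q : ℝ × ℝ → ℝ := ev (qq c1) with hq
  have hqm : Measurable q := measurable_ev _
  set f : ℝ × ℝ → ℝ → ℂ := fun y r => GA a c cs y * osc z y *
    ((q y * Real.exp (-(r * q y) ^ 2) : ℝ) : ℂ) with hf
  have hfm : Measurable (Function.uncurry f) := by
    simp only [hf]
    have h1 : Measurable (fun p : (ℝ × ℝ) × ℝ => GA a c cs p.1) := (measurable_GA ham c cs).comp measurable_fst
    have h2 : Measurable (fun p : (ℝ × ℝ) × ℝ => q p.1) := hqm.comp measurable_fst
    have h3 : Measurable (fun p : (ℝ × ℝ) × ℝ => q p.1 * Real.exp (-(p.2 * q p.1) ^ 2)) :=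
      h2.mul (Real.measurable_exp.comp (((measurable_snd.mul h2).pow_const 2).neg))
    have h4 : Measurable (fun p : (ℝ × ℝ) × ℝ => osc z p.1) := (osc_meas z).comp measurable_fst
    exact (h1.mul h4).mul (Complex.measurable_ofReal.comp h3)
  have hGle : ∀ y ∈ BB, ‖GA a c cs y * osc z y‖ ≤ 10 / 9 := fun y hy => by
    rw [norm_mul, osc_norm, mul_one]
    exact norm_GA_le ha c cs hy
  have hGint : IntegrableOn (fun y => GA a c cs y * osc z y) BB volume := by
    refine Measure.integrableOn_of_bounded (M := 10 / 9) s4c_BB_fin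
      (((measurable_GA ham c cs).mul (osc_meas z)).aestronglyMeasurable) ?_
    exact (ae_restrict_iff' measurableSet_BB).2 (Filter.Eventually.of_forall hGle)
  have hfint : Integrable (Function.uncurry f)
      ((volume.restrict BB).prod (volume.restrict (Ioi (0:ℝ)))) := by
    refine ⟨hfm.aestronglyMeasurable, ?_⟩
    rw [HasFiniteIntegral, lintegral_prod _ hfm.enorm.aemeasurable]
    calc ∫⁻ y in BB, ∫⁻ r in Ioi (0:ℝ), ‖Function.uncurry f (y, r)‖ₑ
        ≤ ∫⁻ y in BB, ENNReal.ofReal (10 / 9) * ENNReal.ofReal (√π / 2) := by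
          apply setLIntegral_mono' measurableSet_BB
          intro y hy
          calc ∫⁻ r in Ioi (0:ℝ), ‖Function.uncurry f (y, r)‖ₑ
              ≤ ∫⁻ r in Ioi (0:ℝ), ENNReal.ofReal (10 / 9) *
                  ENNReal.ofReal (|q y| * Real.exp (-(r * q y) ^ 2)) := by
                apply lintegral_mono
                intro r
                simp only [Function.uncurry, hf]
                rw [← ENNReal.ofReal_mul (by norm_num), ← ofReal_norm, norm_mul]
                apply ENNReal.ofReal_le_ofReal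
                rw [Complex.norm_real, Real.norm_eq_abs, abs_mul, Real.abs_exp]
                exact mul_le_mul_of_nonneg_right (hGle y hy) (by positivity)
            _ = ENNReal.ofReal (10 / 9) * ∫⁻ r in Ioi (0:ℝ),
                  ENNReal.ofReal (|q y| * Real.exp (-(r * q y) ^ 2)) := by
                rw [lintegral_const_mul' _ _ ENNReal.ofReal_ne_top]
            _ ≤ _ := mul_le_mul_right (gauss_Ioi_abs (q y)) _
      _ < ∞ := by
          rw [setLIntegral_const]
          exact ENNReal.mul_lt_top (ENNReal.mul_lt_top ENNReal.ofReal_lt_top ENNReal.ofReal_lt_top)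
            s4c_BB_fin.lt_top
  have hnull : ∀ᵐ y ∂(volume.restrict BB), q y ≠ 0 := by
    rw [ae_restrict_iff' measurableSet_BB, ae_iff]
    have := zero_null c1 hc1
    convert this using 2
    ext y
    simp [hq]
  have hstep : VV (fun y => GA a c cs y * cut c1 y) z = 1 / 2 * VV (GA a c cs) z +
      ((1 / √π : ℝ) : ℂ) * ∫ r in Ioi (0:ℝ), ((1 / r : ℝ) : ℂ) * VV (TA a c cs c1 r) z := by
    have e1 : VV (fun y => GA a c cs y * cut c1 y) z = ∫ y in BB, (1 / 2 * (GA a c cs y * osc z y) +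
        ((1 / √π : ℝ) : ℂ) * ∫ r in Ioi (0:ℝ), f y r) := by
      unfold VV
      apply integral_congr_ae
      filter_upwards [hnull] with y hy
      have h1 : cut c1 y = _ := s4c_cut hy
      change GA a c cs y * cut c1 y * osc z y = _
      rw [h1]
      simp only [hf]
      rw [integral_const_mul]
      ring
    have hInt2 : Integrable (fun y => ∫ r in Ioi (0:ℝ), f y r) (volume.restrict BB) :=
      hfint.integral_prod_left
    have e2 : ∫ r in Ioi (0:ℝ), ((1 / r : ℝ) : ℂ) * VV (TA a c cs c1 r) z =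
        ∫ r in Ioi (0:ℝ), ∫ y in BB, f y r := by
      apply setIntegral_congr_fun measurableSet_Ioi
      intro r hr
      have hr0 : r ≠ 0 := (mem_Ioi.1 hr).ne'
      simp only [VV]
      rw [← integral_const_mul]
      apply integral_congr_ae
      apply Filter.Eventually.of_forall
      intro y
      simp only [hf, TA, osc]
      have hrc : (r : ℂ) ≠ 0 := by exact_mod_cast hr0
      push_cast
      field_simp
      rfl
    rw [e1, integral_add (hGint.const_mul _) (hInt2.const_mul _), integral_const_mul,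
      integral_const_mul, e2]
    congr 2
    exact integral_integral_swap hfint
  have hpi1 : 1 / √π ≤ 1 := by
    rw [div_le_one (Real.sqrt_pos.2 Real.pi_pos)]
    rw [Real.one_le_sqrt]
    linarith [Real.pi_gt_three]
  have hpi0 : 0 ≤ 1 / √π := by positivity
  rw [hstep]
  refine (enorm_add_le _ _).trans (add_le_add ?_ ?_)
  · rw [enorm_mul]
    have : ‖(1 / 2 : ℂ)‖ₑ ≤ 1 := by
      rw [← ofReal_norm]
      have : ‖(1 / 2 : ℂ)‖ = 1 / 2 := by norm_num
      rw [this]
      exact ENNReal.ofReal_le_one.2 (by norm_num)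
    exact (mul_le_mul_left this _).trans (by rw [one_mul])
  · rw [enorm_mul]
    have : ‖((1 / √π : ℝ) : ℂ)‖ₑ ≤ 1 := by
      rw [← ofReal_norm, Complex.norm_real, Real.norm_eq_abs, abs_of_nonneg hpi0]
      exact ENNReal.ofReal_le_one.2 hpi1
    refine (mul_le_mul_left this _).trans ?_
    rw [one_mul]
    refine (enorm_integral_le_lintegral_enorm _).trans ?_
    apply setLIntegral_mono' measurableSet_Ioi
    intro r hr
    have hr0 : 0 < r := hr
    rw [enorm_mul]
    apply mul_le_mul_left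
    rw [← ofReal_norm, Complex.norm_real, Real.norm_eq_abs, abs_of_nonneg (by positivity)]

/-- the uniform bound of the damped pieces -/
lemma r1c_unif (D : ℕ) : ∃ K : ℝ, 0 < K ∧ ∀ (a : ℝ × ℝ → ℂ), (∀ y, ‖a y‖ ≤ 1) → ∀ (N : ℕ) (c : Cf D) (cs : Fin N → Cf D) (c1 : Cf D),
    ‖c1‖ = 1 → ∀ r : ℝ, 0 < r → ∀ z : ℝ × (ℝ × ℝ),
    ‖VV (TA a c cs c1 r) z‖ₑ ≤ ENNReal.ofReal (K * wr D r) := by
  obtain ⟨K, hK0, hK⟩ := l1_bound D
  refine ⟨10 / 9 * K, by positivity, fun a ha N c cs c1 hc1 r hr z => ?_⟩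
  refine (VV_le _ _).trans ?_
  calc ∫⁻ y in BB, ‖TA a c cs c1 r y‖ₑ
      ≤ ∫⁻ y in BB, ENNReal.ofReal (10 / 9) *
          ENNReal.ofReal (|r * ev (qq c1) y| * Real.exp (-(r * ev (qq c1) y) ^ 2)) := by
        apply setLIntegral_mono' measurableSet_BB
        intro y hy
        rw [← ENNReal.ofReal_mul (by norm_num), ← ofReal_norm]
        apply ENNReal.ofReal_le_ofReal
        unfold TA
        rw [norm_mul, Complex.norm_real, Real.norm_eq_abs, abs_mul, Real.abs_exp]
        exact mul_le_mul_of_nonneg_right (norm_GA_le ha c cs hy) (by positivity)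
    _ = ENNReal.ofReal (10 / 9) * ∫⁻ y in BB,
          ENNReal.ofReal (|r * ev (qq c1) y| * Real.exp (-(r * ev (qq c1) y) ^ 2)) := by
        rw [lintegral_const_mul' _ _ ENNReal.ofReal_ne_top]
    _ ≤ ENNReal.ofReal (10 / 9) * ENNReal.ofReal (K * wr D r) :=
        mul_le_mul_right (hK c1 hc1 r hr) _
    _ = _ := by
        rw [← ENNReal.ofReal_mul (by norm_num), mul_assoc]

theorem one_cut_bv (D N : ℕ) (p' p : ℝ) (hp'1 : 1 ≤ p') (hp'p : p' < p) : ∃ K : ℝ≥0∞, K ≠ ∞ ∧
    ∀ a : ℝ × ℝ → ℂ, Measurable a → (∀ y, ‖a y‖ ≤ 1) → ∀ C' C0 : ℝ≥0∞,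
    (∀ (c : Cf D) (cs : Fin N → Cf D), ∫⁻ z : ℝ × (ℝ × ℝ), ‖VV (GA a c cs) z‖ₑ ^ p' ≤ C') →
    (∀ (c : Cf D) (cs : Fin N → Cf D), ∫⁻ z : ℝ × (ℝ × ℝ), ‖VV (GA a c cs) z‖ₑ ^ p ≤ C0) →
    ∀ (c : Cf D) (cs : Fin N → Cf D) (c1 : Cf D),
      ∫⁻ z : ℝ × (ℝ × ℝ), ‖VV (fun y => GA a c cs y * cut c1 y) z‖ₑ ^ p ≤ K * (C0 + C') := by
  obtain ⟨K, hK0, hK⟩ := r1c_unif D
  have hp0 : 0 < p := by linarith
  set θ : ℝ := (p - p') / p with hθ
  have hθ0 : 0 < θ := div_pos (by linarith) hp0
  have hν := s4c_nur_fin D hθ0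
  set ν := nur D θ with hνd
  have hνu : ν univ ≠ ∞ := measure_ne_top ν univ
  set K2 : ℝ≥0∞ := ν univ ^ (p - 1) * (ENNReal.ofReal K ^ (p - p') * ν univ) with hK2
  have hK2f : K2 ≠ ∞ := by
    rw [hK2]
    refine ENNReal.mul_ne_top (ENNReal.rpow_ne_top_of_nonneg (by linarith) hνu) ?_
    exact ENNReal.mul_ne_top
      (ENNReal.rpow_ne_top_of_nonneg (by linarith) ENNReal.ofReal_ne_top) hνu
  refine ⟨2 ^ (p - 1) * (1 + K2), ?_, ?_⟩
  · refine ENNReal.mul_ne_top (ENNReal.rpow_ne_top_of_nonneg (by linarith) (by norm_num)) ?_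
    exact ENNReal.add_ne_top.2 ⟨ENNReal.one_ne_top, hK2f⟩
  intro a ham ha C' C0 hC'b hC0b
  set C2 : ℝ≥0∞ := ν univ ^ (p - 1) * (ENNReal.ofReal K ^ (p - p') * C' * ν univ) with hC2
  have hC2K : C2 = K2 * C' := by
    rw [hC2, hK2]
    ring
  have hfinal : 2 ^ (p - 1) * (C0 + C2) ≤ 2 ^ (p - 1) * (1 + K2) * (C0 + C') := by
    rw [hC2K, mul_assoc (2 ^ (p - 1)) (1 + K2) (C0 + C')]
    refine mul_le_mul' le_rfl ?_
    calc C0 + K2 * C' ≤ (C0 + C') + K2 * (C0 + C') :=
          add_le_add le_self_add (mul_le_mul' le_rfl le_add_self)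
      _ = (1 + K2) * (C0 + C') := by ring
  -- the normalised case
  have main : ∀ (c : Cf D) (cs : Fin N → Cf D) (c1 : Cf D), ‖c1‖ = 1 →
      ∫⁻ z : ℝ × (ℝ × ℝ), ‖VV (fun y => GA a c cs y * cut c1 y) z‖ₑ ^ p ≤
        2 ^ (p - 1) * (C0 + C2) := by
    intro c cs c1 hc1
    have hc10 : c1 ≠ 0 := by
      rintro rfl
      rw [norm_zero] at hc1
      exact zero_ne_one hc1
    set X : ℝ → ℝ × (ℝ × ℝ) → ℝ≥0∞ := fun r z => ‖VV (TA a c cs c1 r) z‖ₑ with hX
    have hXm : Measurable (Function.uncurry X) := by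
      have := measurable_VV (fun r y => TA a c cs c1 r y) (r1c_meas ham c cs c1)
      exact this.enorm
    set F : ℝ → ℝ × (ℝ × ℝ) → ℝ≥0∞ := fun r z => X r z * ENNReal.ofReal (wr D r ^ (-θ)) with hF
    have hFm : Measurable (Function.uncurry F) := by
      have h9 : Measurable fun r : ℝ => ENNReal.ofReal (wr D r ^ (-θ)) :=
        ENNReal.measurable_ofReal.comp ((s4c_wr_meas D).pow_const _)
      have h10 : Measurable fun q : ℝ × (ℝ × (ℝ × ℝ)) => Function.uncurry X q *
          ENNReal.ofReal (wr D q.1 ^ (-θ)) := hXm.mul (h9.comp measurable_fst)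
      exact h10
    have hY : ∀ z, ∫⁻ r in Ioi (0:ℝ), ENNReal.ofReal (1 / r) * X r z = ∫⁻ r, F r z ∂ν := by
      intro z
      have hFz : Measurable fun r => F r z := hFm.of_uncurry_right
      have hd : Measurable fun r : ℝ => ENNReal.ofReal (wr D r ^ θ / r) :=
        ENNReal.measurable_ofReal.comp (((s4c_wr_meas D).pow_const _).div measurable_id)
      rw [hνd, nur, lintegral_withDensity_eq_lintegral_mul _ hd hFz]
      apply setLIntegral_congr_fun measurableSet_Ioi
      intro r hr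
      have hr0 : 0 < r := hr
      have hw := s4c_wr_pos D hr0
      simp only [Pi.mul_apply, hF]
      have e : ENNReal.ofReal (1 / r) = ENNReal.ofReal (wr D r ^ θ / r) *
          ENNReal.ofReal (wr D r ^ (-θ)) := by
        rw [← ENNReal.ofReal_mul (by positivity)]
        congr 1
        rw [Real.rpow_neg hw.le]
        have : wr D r ^ θ ≠ 0 := (Real.rpow_pos_of_pos hw _).ne'
        field_simp
      rw [e]
      ring
    have hFp : ∀ r, 0 < r → ∫⁻ z, F r z ^ p ≤ ENNReal.ofReal K ^ (p - p') * C' := by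
      intro r hr
      have hw := s4c_wr_pos D hr
      have hXp : ∀ z, F r z ^ p ≤ ENNReal.ofReal K ^ (p - p') * X r z ^ p' := by
        intro z
        have hXf : X r z ≤ ENNReal.ofReal (K * wr D r) := hK a ha N c cs c1 hc1 r hr z
        simp only [hF]
        rw [ENNReal.mul_rpow_of_nonneg _ _ hp0.le]
        have e1 : X r z ^ p = X r z ^ (p - p') * X r z ^ p' := by
          rw [← ENNReal.rpow_add_of_nonneg _ _ (by linarith) (by linarith)]
          congr 1
          ring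
        have e2 : X r z ^ (p - p') ≤ ENNReal.ofReal K ^ (p - p') *
            ENNReal.ofReal (wr D r) ^ (p - p') := by
          rw [← ENNReal.mul_rpow_of_nonneg _ _ (by linarith), ← ENNReal.ofReal_mul hK0.le]
          exact ENNReal.rpow_le_rpow hXf (by linarith)
        have e3 : ENNReal.ofReal (wr D r) ^ (p - p') * ENNReal.ofReal (wr D r ^ (-θ)) ^ p = 1 := by
          rw [ENNReal.ofReal_rpow_of_pos hw, ENNReal.ofReal_rpow_of_pos (Real.rpow_pos_of_pos hw _),
            ← ENNReal.ofReal_mul (by positivity), ← Real.rpow_mul hw.le, ← Real.rpow_add hw]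
          have : p - p' + -θ * p = 0 := by
            rw [hθ]
            field_simp
            ring
          rw [this, Real.rpow_zero, ENNReal.ofReal_one]
        rw [e1]
        calc X r z ^ (p - p') * X r z ^ p' * ENNReal.ofReal (wr D r ^ (-θ)) ^ p
            ≤ (ENNReal.ofReal K ^ (p - p') * ENNReal.ofReal (wr D r) ^ (p - p')) * X r z ^ p' *
                ENNReal.ofReal (wr D r ^ (-θ)) ^ p := by gcongr
          _ = ENNReal.ofReal K ^ (p - p') * X r z ^ p' *
                (ENNReal.ofReal (wr D r) ^ (p - p') * ENNReal.ofReal (wr D r ^ (-θ)) ^ p) := by ring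
          _ = _ := by rw [e3, mul_one]
      calc ∫⁻ z, F r z ^ p ≤ ∫⁻ z, ENNReal.ofReal K ^ (p - p') * X r z ^ p' := lintegral_mono hXp
        _ = ENNReal.ofReal K ^ (p - p') * ∫⁻ z, X r z ^ p' := by
            rw [lintegral_const_mul' _ _
              (ENNReal.rpow_ne_top_of_nonneg (by linarith) ENNReal.ofReal_ne_top)]
        _ ≤ _ := mul_le_mul_right (damped_bv ham ha p' (by linarith) C' hC'b c cs c1 r) _
    have hYp : ∫⁻ z, (∫⁻ r, F r z ∂ν) ^ p ≤ C2 := by
      refine (mink ν volume F hFm p (by linarith)).trans ?_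
      rw [hC2]
      apply mul_le_mul_right
      have hae : ∀ᵐ r ∂ν, ∫⁻ z, F r z ^ p ≤ ENNReal.ofReal K ^ (p - p') * C' := by
        have h1 : ∀ᵐ r ∂(volume.restrict (Ioi (0:ℝ))),
            ∫⁻ z, F r z ^ p ≤ ENNReal.ofReal K ^ (p - p') * C' :=
          (ae_restrict_iff' measurableSet_Ioi).2 (Filter.Eventually.of_forall fun r hr => hFp r hr)
        exact (withDensity_absolutelyContinuous _ _).ae_le h1
      calc ∫⁻ r, (∫⁻ z, F r z ^ p) ∂ν ≤ ∫⁻ r, ENNReal.ofReal K ^ (p - p') * C' ∂ν :=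
            lintegral_mono_ae hae
        _ = _ := by rw [lintegral_const]
    have hVm : Measurable fun z : ℝ × (ℝ × ℝ) => ‖VV (GA a c cs) z‖ₑ ^ p := by
      have h0 : Measurable (Function.uncurry fun (_ : ℝ) y => GA a c cs y) :=
        (measurable_GA ham c cs).comp measurable_snd
      have h1 := measurable_VV (fun (_ : ℝ) y => GA a c cs y) h0
      have h3 : Measurable fun z : ℝ × (ℝ × ℝ) => ((0 : ℝ), z) :=
        measurable_const.prodMk measurable_id
      have h2 : Measurable fun z : ℝ × (ℝ × ℝ) => VV (GA a c cs) z := by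
        have h4 := h1.comp h3
        exact h4
      exact h2.enorm.pow_const _
    calc ∫⁻ z : ℝ × (ℝ × ℝ), ‖VV (fun y => GA a c cs y * cut c1 y) z‖ₑ ^ p
        ≤ ∫⁻ z : ℝ × (ℝ × ℝ), 2 ^ (p - 1) * (‖VV (GA a c cs) z‖ₑ ^ p + (∫⁻ r, F r z ∂ν) ^ p) := by
          apply lintegral_mono
          intro z
          have hz : ‖VV (fun y => GA a c cs y * cut c1 y) z‖ₑ ≤
              ‖VV (GA a c cs) z‖ₑ + ∫⁻ r, F r z ∂ν := by
            have h1 := r1c_step ham ha c cs c1 hc10 z
            have h2 := hY z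
            simp only [hX] at h2
            rwa [h2] at h1
          have hz2 : ‖VV (fun y => GA a c cs y * cut c1 y) z‖ₑ ^ p ≤
              (‖VV (GA a c cs) z‖ₑ + ∫⁻ r, F r z ∂ν) ^ p := ENNReal.rpow_le_rpow hz hp0.le
          exact hz2.trans (ENNReal.rpow_add_le_mul_rpow_add_rpow _ _ (by linarith))
      _ = 2 ^ (p - 1) * ((∫⁻ z : ℝ × (ℝ × ℝ), ‖VV (GA a c cs) z‖ₑ ^ p) +
            ∫⁻ z, (∫⁻ r, F r z ∂ν) ^ p) := by
          rw [lintegral_const_mul' _ _ (ENNReal.rpow_ne_top_of_nonneg (by linarith) (by norm_num)),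
            lintegral_add_left hVm]
      _ ≤ _ := mul_le_mul_right (add_le_add (hC0b c cs) hYp) _
  intro c cs c1
  refine le_trans ?_ hfinal
  by_cases hc1 : c1 = 0
  · subst hc1
    have h0 : ∀ y, cut (0 : Cf D) y = 0 := by
      intro y
      unfold cut
      have : ev (qq (0 : Cf D)) y = 0 := by
        have h := qq_smul (0:ℝ) (0 : Cf D)
        rw [zero_smul] at h
        rw [h, map_zero, zero_mul]
        simp [ev]
      rw [this, if_neg (lt_irrefl _)]
    have hV : ∀ z, VV (fun y => GA a c cs y * cut (0 : Cf D) y) z = 0 := by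
      intro z
      unfold VV
      simp [h0]
    simp only [hV]
    simp [ENNReal.zero_rpow_of_pos hp0]
  · have hn : 0 < ‖c1‖ := norm_pos_iff.2 hc1
    have hcut : ∀ y, cut c1 y = cut (‖c1‖⁻¹ • c1) y := by
      intro y
      unfold cut
      rw [qq_smul, ev_mul, ev_C]
      have : 0 < ‖c1‖⁻¹ := inv_pos.2 hn
      congr 1
      rw [eq_iff_iff]
      exact (mul_pos_iff_of_pos_left this).symm
    have := main c cs (‖c1‖⁻¹ • c1) (by rw [norm_smul, norm_inv, norm_norm, inv_mul_cancel₀ hn.ne'])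
    simpa only [hcut] using this

end Pool.Agent.BVA
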