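import Pool.Agent.BVA.R1a
import Pool.Agent.BVA.R1c

/-!
The estimate in the chart for a density of the class, a polynomial phase and finitely many
polynomial cuts: induction on the number of cuts.
-/

namespace Pool.Agent.BVA

open MeasureTheory Set MvPolynomial Pool.Agent.PPH
open scoped ENNReal Real

theorem GA_succ (a : ℝ × ℝ → ℂ) {D N : ℕ} (c : Cf D) (cs : Fin (N + 1) → Cf D) (y : ℝ × ℝ) :
    a y * GG c cs y = GA a c (fun i : Fin N => cs i.castSucc) y * cut (cs (Fin.last N)) y := by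
  unfold GA GG
  rw [Fin.prod_univ_castSucc, mul_assoc, mul_assoc, mul_assoc, mul_assoc]

theorem all_cuts_bv (D N : ℕ) (s : ℝ) (hs : 0 < s) : ∀ p : ℝ, 3 < p → 1 + 2 / s < p →
    ∃ C : ℝ≥0∞, C ≠ ∞ ∧ ∀ V : ℝ, 1 ≤ V →
    ∀ a : ℝ × ℝ → ℂ, Measurable a → (∀ y, ‖a y‖ ≤ 1) → Apx s V a →
    ∀ (c : Cf D) (cs : Fin N → Cf D),
    ∫⁻ z : ℝ × (ℝ × ℝ), ‖VV (fun y => a y * GG c cs y) z‖ₑ ^ p ≤
      C * ENNReal.ofReal V ^ (p - 1) := by
  induction N with
  | zero =>
    intro p hp3 hp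
    obtain ⟨A, hA, hAmp⟩ := amp_X3
    obtain ⟨C, hC, h⟩ := core_bv D A p s hA hs hp3 hp
    refine ⟨C, hC, fun V hV a ham ha haV c cs => ?_⟩
    have := h c (X 3) hAmp V hV a ham ha haV
    simp only [VV_zero_cuts]
    exact this
  | succ N ih =>
    intro p hp3 hp
    obtain ⟨p', hp'1, hp'p⟩ : ∃ p', max 3 (1 + 2 / s) < p' ∧ p' < p :=
      exists_between (max_lt hp3 hp)
    have hp'3 : 3 < p' := lt_of_le_of_lt (le_max_left _ _) hp'1
    have hp's : 1 + 2 / s < p' := lt_of_le_of_lt (le_max_right _ _) hp'1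
    obtain ⟨C', hC', h'⟩ := ih p' hp'3 hp's
    obtain ⟨C0, hC0, h0⟩ := ih p hp3 hp
    obtain ⟨K, hK, hK1⟩ := one_cut_bv D N p' p (by linarith) hp'p
    refine ⟨K * (C0 + C'), ENNReal.mul_ne_top hK (ENNReal.add_ne_top.2 ⟨hC0, hC'⟩),
      fun V hV a ham ha haV c cs => ?_⟩
    have hV1 : 1 ≤ ENNReal.ofReal V := by
      rw [← ENNReal.ofReal_one]
      exact ENNReal.ofReal_le_ofReal hV
    have h1 := hK1 a ham ha (C' * ENNReal.ofReal V ^ (p - 1)) (C0 * ENNReal.ofReal V ^ (p - 1))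
      (fun c cs => (h' V hV a ham ha haV c cs).trans
        (mul_le_mul' le_rfl (ENNReal.rpow_le_rpow_of_exponent_le hV1 (by linarith))))
      (fun c cs => h0 V hV a ham ha haV c cs) c (fun i : Fin N => cs i.castSucc)
      (cs (Fin.last N))
    have h2 : (fun y => a y * GG c cs y) =
        fun y => GA a c (fun i : Fin N => cs i.castSucc) y * cut (cs (Fin.last N)) y :=
      funext fun y => GA_succ a c cs y
    rw [h2]
    refine h1.trans (le_of_eq ?_)
    ring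

end Pool.Agent.BVA
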