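import Pool.Agent.BVA.Core
import Pool.Agent.PPH.S4d

/-!
The case without cuts.
-/

namespace Pool.Agent.BVA

open MeasureTheory Set MvPolynomial Pool.Agent.PPH
open scoped ENNReal Real

theorem amp_X3 : ∃ A : ℝ, 0 ≤ A ∧ Amp A (X 3) := by
  choose K hK0 hK using fun f : RR => ev_bdd f
  refine ⟨K (DD 0 0 (X 3)) + K (DD 0 1 (X 3)) + K (DD 1 0 (X 3)) + K (DD 1 1 (X 3)), ?_, ?_⟩
  · have h1 := hK0 (DD 0 0 (X 3))
    have h2 := hK0 (DD 0 1 (X 3))
    have h3 := hK0 (DD 1 0 (X 3))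
    have h4 := hK0 (DD 1 1 (X 3))
    linarith
  · intro a b ha hb y hy
    have h1 := hK0 (DD 0 0 (X 3))
    have h2 := hK0 (DD 0 1 (X 3))
    have h3 := hK0 (DD 1 0 (X 3))
    have h4 := hK0 (DD 1 1 (X 3))
    have hab : (a = 0 ∨ a = 1) ∧ (b = 0 ∨ b = 1) := by omega
    rcases hab with ⟨rfl | rfl, rfl | rfl⟩
    · have := hK (DD 0 0 (X 3)) y hy
      linarith
    · have := hK (DD 0 1 (X 3)) y hy
      linarith
    · have := hK (DD 1 0 (X 3)) y hy
      linarith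
    · have := hK (DD 1 1 (X 3)) y hy
      linarith

theorem VV_zero_cuts {D : ℕ} (a : ℝ × ℝ → ℂ) (c : Cf D) (cs : Fin 0 → Cf D) (z : ℝ × (ℝ × ℝ)) :
    VV (fun y => a y * GG c cs y) z = uW a BB (X 3) (qt c z.1) z.2 := by
  unfold VV uW
  congr 1
  funext y
  unfold GG am phs
  beta_reduce
  rw [Fin.prod_univ_zero, mul_one, mul_assoc, mul_assoc, ← Complex.exp_add, ev_X3]
  congr 3
  have : ev (qt c z.1) y = ev (qq c) y + z.1 * psi y := by
    rw [qt, ev_add, ev_mul, ev_C, ev_X2]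
  rw [this]
  push_cast
  ring

end Pool.Agent.BVA
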