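import Pool.Agent.PPH.S5b
import Pool.Agent.PPH.C1a
import Pool.Agent.BVA.Defs

/-!
ROW R2. From the sphere to the chart and to the dyadic squares: the mean oscillation of a function
of bounded variation on the squares of side `2^(-m)`.
-/

set_option autoImplicit false

namespace Pool.Agent.BVA

open MeasureTheory Set Pool.Agent.MP_6cbfb8_an Pool.Agent.PPH
open scoped ENNReal Real

/-- The point of the upper half sphere over `y`. -/
noncomputable def gph (y : ℝ × ℝ) : E 3 := WithLp.toLp 2 ![y.1, y.2, psi y]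

theorem gph_eq (y : ℝ × ℝ) : gph y = join (s5bJ y) (psi y) := (s5b_join y (psi y)).symm

theorem measurable_gph : Measurable gph := by
  have h2 : Measurable fun y : ℝ × ℝ => (join (s5bJ y) (psi y) : E 3) :=
    measurable_join.comp (s5bJ.measurable.prodMk continuous_psi.measurable)
  have h3 : gph = fun y : ℝ × ℝ => (join (s5bJ y) (psi y) : E 3) := funext gph_eq
  rw [h3]
  exact h2

/-- surface measure dominates Lebesgue measure in the chart -/
theorem lint_BB_le (f : E 3 → ℝ≥0∞) (hf : Measurable f) :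
    ∫⁻ y in BB, f (gph y) ≤ ∫⁻ x : S 3, f x ∂sm 3 := by
  have hch := MST.chart_lintegral 1 f hf
  calc ∫⁻ y in BB, f (gph y) = ∫⁻ y, BB.indicator (fun y => f (gph y)) y :=
        (lintegral_indicator measurableSet_BB _).symm
    _ ≤ ∫⁻ y, (Metric.ball (0 : E 2) 1).indicator (fun u : E 2 => f (join u √(1 - ‖u‖ ^ 2)) *
        ENNReal.ofReal (1 / √(1 - ‖u‖ ^ 2))) (s5bJ y) := by
        refine lintegral_mono fun y => ?_
        by_cases hy : y ∈ BB
        · have hball : s5bJ y ∈ Metric.ball (0 : E 2) 1 := by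
            rw [mem_ball_zero_iff]
            have h3 := s5b_norm y
            have h4 := BB_sq hy
            nlinarith [norm_nonneg (s5bJ y)]
          rw [indicator_of_mem hy, indicator_of_mem hball, s5b_psi, ← gph_eq]
          have h1 : (1 : ℝ≥0∞) ≤ ENNReal.ofReal (1 / psi y) := by
            rw [← ENNReal.ofReal_one]
            refine ENNReal.ofReal_le_ofReal ?_
            obtain ⟨h5, h6⟩ := BB_psi hy
            rw [le_div_iff₀ (by linarith)]
            linarith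
          calc f (gph y) = f (gph y) * 1 := (mul_one _).symm
            _ ≤ _ := by gcongr
        · rw [indicator_of_notMem hy]
          exact bot_le
    _ = ∫⁻ u : E 2, (Metric.ball (0 : E 2) 1).indicator (fun u : E 2 =>
        f (join u √(1 - ‖u‖ ^ 2)) * ENNReal.ofReal (1 / √(1 - ‖u‖ ^ 2))) u :=
        s5b_mp.lintegral_comp_emb s5bJ.measurableEmbedding _
    _ = ∫⁻ u in Metric.ball (0 : E 2) 1, f (join u √(1 - ‖u‖ ^ 2)) *
        ENNReal.ofReal (1 / √(1 - ‖u‖ ^ 2)) := lintegral_indicator Metric.isOpen_ball.measurableSet _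
    _ = ∫⁻ x : S 3, (if 0 < (x : E 3) (Fin.last 2) then f x else 0) ∂(sm 3) := hch.symm
    _ ≤ ∫⁻ x : S 3, f x ∂sm 3 := by
        refine lintegral_mono fun x => ?_
        split_ifs
        · exact le_rfl
        · exact bot_le

theorem lint_BB2_le (F : E 3 → E 3 → ℝ≥0∞) (hF : Measurable (Function.uncurry F)) :
    ∫⁻ y in BB, ∫⁻ y' in BB, F (gph y) (gph y') ≤
      ∫⁻ x : S 3, ∫⁻ x' : S 3, F x x' ∂sm 3 ∂sm 3 := by
  calc ∫⁻ y in BB, ∫⁻ y' in BB, F (gph y) (gph y')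
      ≤ ∫⁻ y in BB, ∫⁻ x' : S 3, F (gph y) x' ∂sm 3 := by
        refine lintegral_mono fun y => ?_
        exact lint_BB_le (fun z => F (gph y) z) (hF.comp measurable_prodMk_left)
    _ ≤ _ := by
        refine lint_BB_le (fun z => ∫⁻ x' : S 3, F z x' ∂sm 3) ?_
        have h1 : Measurable fun q : E 3 × S 3 => F q.1 q.2 :=
          hF.comp (measurable_fst.prodMk (measurable_subtype_coe.comp measurable_snd))
        exact h1.lintegral_prod_right'

theorem gph_dist {m : ℕ} (hm : 2 ≤ m) {i : ℤ × ℤ} (hi : i ∈ idx m) {y z : ℝ × ℝ}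
    (hy : y ∈ sq m i) (hz : z ∈ sq m i) : ‖gph y - gph z‖ ≤ 2 / 2 ^ m := by
  have hyB : y ∈ BB := BB0_subset (sq_subset hm hi hy)
  have hzB : z ∈ BB := BB0_subset (sq_subset hm hi hz)
  obtain ⟨δ, hδ⟩ : ∃ δ : ℝ, δ = 1 / 2 ^ m := ⟨_, rfl⟩
  have hδ0 : 0 < δ := by rw [hδ]; positivity
  have key : ∀ (n : ℤ) (a b : ℝ), a ∈ Ico ((n : ℝ) / 2 ^ m) (((n : ℝ) + 1) / 2 ^ m) →
      b ∈ Ico ((n : ℝ) / 2 ^ m) (((n : ℝ) + 1) / 2 ^ m) → |a - b| ≤ δ := by
    intro n a b ha hb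
    have e : ((n : ℝ) + 1) / 2 ^ m = (n : ℝ) / 2 ^ m + δ := by rw [hδ]; ring
    rw [e] at ha hb
    rw [abs_le]
    constructor
    · linarith [ha.1, hb.2]
    · linarith [ha.2, hb.1]
  have d1 : |y.1 - z.1| ≤ δ := key _ _ _ hy.1 hz.1
  have d2 : |y.2 - z.2| ≤ δ := key _ _ _ hy.2 hz.2
  have d3 : |psi y - psi z| ≤ δ := by
    obtain ⟨p1, -⟩ := BB_psi hyB
    obtain ⟨p2, -⟩ := BB_psi hzB
    have s1 := psi_sq (y := y) (by linarith [BB_sq hyB])
    have s2 := psi_sq (y := z) (by linarith [BB_sq hzB])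
    obtain ⟨⟨a1, a2⟩, ⟨a3, a4⟩⟩ := hyB
    obtain ⟨⟨b1, b2⟩, ⟨b3, b4⟩⟩ := hzB
    have h1 : (psi y - psi z) * (psi y + psi z) =
        -((y.1 - z.1) * (y.1 + z.1) + (y.2 - z.2) * (y.2 + z.2)) := by
      have : (psi y - psi z) * (psi y + psi z) = psi y ^ 2 - psi z ^ 2 := by ring
      rw [this, s1, s2]
      ring
    have h2 : |psi y - psi z| * (psi y + psi z) ≤ δ := by
      rw [← abs_of_pos (show 0 < psi y + psi z by linarith), ← abs_mul, h1, abs_neg]
      refine (abs_add_le _ _).trans ?_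
      rw [abs_mul, abs_mul]
      have e1 : |y.1 + z.1| ≤ 1 / 2 := abs_le.2 ⟨by linarith, by linarith⟩
      have e2 : |y.2 + z.2| ≤ 1 / 2 := abs_le.2 ⟨by linarith, by linarith⟩
      have f1 : |y.1 - z.1| * |y.1 + z.1| ≤ δ * (1 / 2) :=
        mul_le_mul d1 e1 (abs_nonneg _) hδ0.le
      have f2 : |y.2 - z.2| * |y.2 + z.2| ≤ δ * (1 / 2) :=
        mul_le_mul d2 e2 (abs_nonneg _) hδ0.le
      linarith
    nlinarith [abs_nonneg (psi y - psi z)]
  have h0 : ‖gph y - gph z‖ ^ 2 = (y.1 - z.1) ^ 2 + (y.2 - z.2) ^ 2 + (psi y - psi z) ^ 2 := by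
    rw [EuclideanSpace.norm_sq_eq, Fin.sum_univ_three]
    simp [gph]
  have g1 : (y.1 - z.1) ^ 2 ≤ δ ^ 2 := sq_le_sq' (by linarith [(abs_le.1 d1).1]) (abs_le.1 d1).2
  have g2 : (y.2 - z.2) ^ 2 ≤ δ ^ 2 := sq_le_sq' (by linarith [(abs_le.1 d2).1]) (abs_le.1 d2).2
  have g3 : (psi y - psi z) ^ 2 ≤ δ ^ 2 :=
    sq_le_sq' (by linarith [(abs_le.1 d3).1]) (abs_le.1 d3).2
  have h4 : (2 : ℝ) / 2 ^ m = 2 * δ := by rw [hδ]; ring
  rw [h4]
  refine le_of_sq_le_sq ?_ (by positivity)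
  rw [h0]
  nlinarith

/-- the mean of `α` over the square `i` of level `m` -/
noncomputable def avg (m : ℕ) (i : ℤ × ℤ) (α : ℝ × ℝ → ℂ) : ℂ := (4 : ℝ) ^ m • ∫ z in sq m i, α z

theorem mean_sq (m : ℕ) (i : ℤ × ℤ) {α : ℝ × ℝ → ℂ} (hα : IntegrableOn α (sq m i)) (y : ℝ × ℝ) :
    ‖α y - avg m i α‖ₑ ≤ 4 ^ m * ∫⁻ z in sq m i, ‖α y - α z‖ₑ := by
  have hv : (volume : Measure (ℝ × ℝ)).real (sq m i) = 1 / 4 ^ m := by
    rw [measureReal_def, volume_sq, ENNReal.toReal_ofReal (by positivity)]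
  have h4 : (4 : ℝ) ^ m ≠ 0 := by positivity
  have hfin : volume (sq m i) ≠ ∞ := by rw [volume_sq]; exact ENNReal.ofReal_ne_top
  have h1 : α y - avg m i α = (4 : ℝ) ^ m • ∫ z in sq m i, (α y - α z) := by
    have hc : IntegrableOn (fun _ : ℝ × ℝ => α y) (sq m i) := integrableOn_const hfin (by simp)
    rw [integral_sub hc hα, setIntegral_const, hv, smul_sub, smul_smul,
      mul_one_div_cancel h4, one_smul, avg]
  rw [h1, enorm_smul]
  have h2 : ‖(4 : ℝ) ^ m‖ₑ = 4 ^ m := by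
    rw [enorm_pow]
    congr 1
    rw [Real.enorm_eq_ofReal (by norm_num)]
    norm_num
  rw [h2]
  gcongr
  exact enorm_integral_le_lintegral_enorm _

/-- the sum over the squares -/
theorem sum_sq {m : ℕ} (hm : 2 ≤ m) (F : ℝ × ℝ → ℝ × ℝ → ℝ≥0∞) :
    ∑ i ∈ idx m, ∫⁻ y in sq m i, ∫⁻ z in sq m i, F y z ≤
      ∫⁻ y in BB, ∫⁻ z in BB, (if ‖gph y - gph z‖ ≤ 2 / 2 ^ m then F y z else 0) := by
  have h1 : ∀ i ∈ idx m, ∫⁻ y in sq m i, ∫⁻ z in sq m i, F y z ≤
      ∫⁻ y in sq m i, ∫⁻ z in BB, (if ‖gph y - gph z‖ ≤ 2 / 2 ^ m then F y z else 0) := by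
    intro i hi
    refine setLIntegral_mono' (measurableSet_sq m i) fun y hy => ?_
    calc ∫⁻ z in sq m i, F y z
        ≤ ∫⁻ z in sq m i, (if ‖gph y - gph z‖ ≤ 2 / 2 ^ m then F y z else 0) := by
          refine setLIntegral_mono' (measurableSet_sq m i) fun z hz => ?_
          rw [if_pos (gph_dist hm hi hy hz)]
      _ ≤ _ := lintegral_mono_set ((sq_subset hm hi).trans BB0_subset)
  refine (Finset.sum_le_sum h1).trans ?_
  rw [← lintegral_biUnion_finset (s := idx m) (t := fun i => sq m i)]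
  · refine lintegral_mono_set ?_
    refine iUnion₂_subset fun i hi => ?_
    exact (sq_subset hm hi).trans BB0_subset
  · intro i _ j _ hij
    refine Set.disjoint_left.2 fun y h1 h2 => hij (sq_unique h1 h2)
  · exact fun i _ => measurableSet_sq m i

theorem norm_avg_le (m : ℕ) (i : ℤ × ℤ) {α : ℝ × ℝ → ℂ} (hb : ∀ y, ‖α y‖ ≤ 1) :
    ‖avg m i α‖ ≤ 1 := by
  have hv : (volume : Measure (ℝ × ℝ)).real (sq m i) = 1 / 4 ^ m := by
    rw [measureReal_def, volume_sq, ENNReal.toReal_ofReal (by positivity)]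
  have hfin : volume (sq m i) < ∞ := by rw [volume_sq]; exact ENNReal.ofReal_lt_top
  have h1 : ‖∫ z in sq m i, α z‖ ≤ 1 * (volume : Measure (ℝ × ℝ)).real (sq m i) :=
    norm_setIntegral_le_of_norm_le_const hfin fun y _ => hb y
  rw [hv, one_mul] at h1
  unfold avg
  rw [norm_smul, Real.norm_of_nonneg (by positivity)]
  calc (4 : ℝ) ^ m * ‖∫ z in sq m i, α z‖ ≤ (4 : ℝ) ^ m * (1 / 4 ^ m) := by gcongr
    _ = 1 := by field_simp

/-- the two forms of the condition of bounded variation -/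
theorem bvar_ite (r : ℝ) (a : E 3 → ℂ) :
    ∫⁻ x : S 3, ∫⁻ y : S 3, (if ‖(x : E 3) - y‖ ≤ r then ‖a x - a y‖ₑ else 0) ∂sm 3 ∂sm 3 =
      ∫⁻ x : S 3, (∫⁻ y in Metric.closedBall x r, ‖a x - a y‖ₑ ∂(sm 3)) ∂(sm 3) := by
  refine lintegral_congr fun x => ?_
  rw [← lintegral_indicator Metric.isClosed_closedBall.measurableSet]
  refine lintegral_congr fun y => ?_
  have h1 : ‖(x : E 3) - y‖ = dist y x := by
    rw [← dist_eq_norm, dist_comm]
    rfl
  by_cases h : ‖(x : E 3) - y‖ ≤ r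
  · rw [if_pos h, indicator_of_mem (by rw [Metric.mem_closedBall, ← h1]; exact h)]
  · rw [if_neg h, indicator_of_notMem (by rw [Metric.mem_closedBall, ← h1]; exact h)]

/-- The mean oscillation on the squares. -/
theorem osc_sq {s V : ℝ} {a : E 3 → ℂ} (ha : Measurable a) (hb : ∀ x, ‖a x‖ ≤ 1)
    (h : BVar s V a) {m : ℕ} (hm : 2 ≤ m) :
    ∑ i ∈ idx m, ∫⁻ y in sq m i, ‖a (gph y) - avg m i (fun z => a (gph z))‖ₑ ≤
      ENNReal.ofReal (2 ^ (2 + s) * V * 2 ^ (-(s * m))) := by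
  have hα : Measurable fun y => a (gph y) := ha.comp measurable_gph
  have hint : ∀ i, IntegrableOn (fun y => a (gph y)) (sq m i) := by
    intro i
    refine Measure.integrableOn_of_bounded (M := 1) ?_ hα.aestronglyMeasurable
      (Filter.Eventually.of_forall fun y => hb _)
    rw [volume_sq]
    exact ENNReal.ofReal_ne_top
  have h4 : (4 : ℝ≥0∞) ^ m ≠ ∞ := ENNReal.pow_ne_top (by norm_num)
  calc ∑ i ∈ idx m, ∫⁻ y in sq m i, ‖a (gph y) - avg m i (fun z => a (gph z))‖ₑ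
      ≤ ∑ i ∈ idx m, 4 ^ m * ∫⁻ y in sq m i, ∫⁻ z in sq m i, ‖a (gph y) - a (gph z)‖ₑ := by
        refine Finset.sum_le_sum fun i _ => ?_
        rw [← lintegral_const_mul' _ _ h4]
        exact lintegral_mono fun y => mean_sq m i (hint i) y
    _ = 4 ^ m * ∑ i ∈ idx m, ∫⁻ y in sq m i, ∫⁻ z in sq m i, ‖a (gph y) - a (gph z)‖ₑ :=
        (Finset.mul_sum _ _ _).symm
    _ ≤ 4 ^ m * ∫⁻ y in BB, ∫⁻ z in BB,
        (if ‖gph y - gph z‖ ≤ 2 / 2 ^ m then ‖a (gph y) - a (gph z)‖ₑ else 0) := by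
        gcongr
        exact sum_sq hm fun y z => ‖a (gph y) - a (gph z)‖ₑ
    _ ≤ 4 ^ m * ∫⁻ x : S 3, ∫⁻ y : S 3,
        (if ‖(x : E 3) - y‖ ≤ 2 / 2 ^ m then ‖a x - a y‖ₑ else 0) ∂sm 3 ∂sm 3 := by
        gcongr
        refine lint_BB2_le
          (fun x y => if ‖x - y‖ ≤ 2 / 2 ^ m then ‖a x - a y‖ₑ else 0) ?_
        refine Measurable.ite ?_ ?_ measurable_const
        · exact measurableSet_le ((measurable_fst.sub measurable_snd).norm) measurable_const
        · exact ((ha.comp measurable_fst).sub (ha.comp measurable_snd)).enorm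
    _ ≤ 4 ^ m * ENNReal.ofReal (V * (2 / 2 ^ m) ^ (2 + s)) := by
        gcongr
        rw [bvar_ite]
        exact h _ (by positivity)
    _ = ENNReal.ofReal (2 ^ (2 + s) * V * 2 ^ (-(s * m))) := by
        rw [show (4 : ℝ≥0∞) ^ m = ENNReal.ofReal (4 ^ m) by
          rw [ENNReal.ofReal_pow (by norm_num)]; norm_num, ← ENNReal.ofReal_mul (by positivity)]
        congr 1
        have h2 : (0 : ℝ) < 2 ^ m := by positivity
        have h7 : (2 : ℝ) ^ (-(s * m)) = (2 ^ m) ^ (-s) := by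
          rw [← Real.rpow_natCast 2 m, ← Real.rpow_mul (by norm_num)]
          congr 1
          ring
        rw [h7, Real.div_rpow (by norm_num) h2.le, Real.rpow_neg h2.le, Real.rpow_add h2,
          show ((2 : ℝ) ^ m) ^ (2 : ℝ) = 4 ^ m by
            rw [show (2 : ℝ) = ((2 : ℕ) : ℝ) by norm_num, Real.rpow_natCast, ← pow_mul,
              mul_comm m 2, pow_mul]
            norm_num]
        have h5 : (0 : ℝ) < (2 ^ m) ^ s := Real.rpow_pos_of_pos h2 _
        have h6 : (4 : ℝ) ^ m ≠ 0 := by positivity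
        field_simp

/-- ROW R2: a function of bounded variation on the sphere is approximated by step functions in the
chart. -/
theorem apx_of_bvar (s : ℝ) (hs : 0 < s) : ∃ K : ℝ, 1 ≤ K ∧ ∀ (V : ℝ) (a : E 3 → ℂ), 0 ≤ V →
    Measurable a → (∀ x, ‖a x‖ ≤ 1) → BVar s V a →
    Apx s (K * V) (fun y => a (WithLp.toLp 2 ![y.1, y.2, psi y])) := by
  refine ⟨2 ^ (2 + s), Real.one_le_rpow (by norm_num) (by linarith), ?_⟩
  intro V a _ ha hb h m hm
  exact ⟨fun i => avg m i fun z => a (gph z), fun i => norm_avg_le m i fun y => hb _,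
    osc_sq ha hb h hm⟩

end Pool.Agent.BVA
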