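import Pool.Agent.BVA.R3a
import Pool.Agent.BVA.R1
import Pool.Agent.BVA.R2

/-!
ROW R3: the statements of BVA_Spec.
-/

namespace Pool.Agent.BVA

open MeasureTheory Set MvPolynomial Pool.Agent.MP_6cbfb8_an Pool.Agent.PPH
open scoped ENNReal Real

section spec

open Metric

theorem bvar_rot (s V : ℝ) (a : E 3 → ℂ) (_ha : Measurable a) (h : BVar s V a)
    (R : E 3 ≃ₗᵢ[ℝ] E 3) : BVar s V (fun x => a (R x)) := by
  intro r hr
  obtain ⟨T, hT⟩ : ∃ T : S 3 → S 3, T = fun x : S 3 => (⟨R x, by simp⟩ : S 3) := ⟨_, rfl⟩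
  have hmp : MeasurePreserving T (sm 3) (sm 3) := by
    rw [hT]
    exact measurePreserving_isometry R
  have hcont : Continuous T := by
    rw [hT]
    exact (R.continuous.comp continuous_subtype_val).subtype_mk _
  have hemb : MeasurableEmbedding T := by
    refine hcont.measurableEmbedding ?_
    intro x y hxy
    rw [hT] at hxy
    have : R (x : E 3) = R (y : E 3) := congrArg Subtype.val hxy
    exact Subtype.ext (R.injective this)
  have hTv : ∀ x : S 3, ((T x : S 3) : E 3) = R x := fun x => by rw [hT]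
  have hpre : ∀ x : S 3, T ⁻¹' closedBall (T x) r = closedBall x r := by
    intro x
    ext y
    rw [mem_preimage, mem_closedBall, mem_closedBall, Subtype.dist_eq, Subtype.dist_eq, hTv, hTv,
      R.dist_map]
  have hin : ∀ x : S 3, ∫⁻ y in closedBall x r, ‖a (R x) - a (R y)‖ₑ ∂(sm 3) =
      ∫⁻ y in closedBall (T x) r, ‖a (T x : S 3) - a y‖ₑ ∂(sm 3) := by
    intro x
    have h2 := hmp.setLIntegral_comp_preimage_emb hemb
      (fun y : S 3 => ‖a (T x : S 3) - a y‖ₑ) (closedBall (T x) r)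
    rw [hpre] at h2
    rw [← h2]
    simp only [hTv]
  simp_rw [hin]
  rw [hmp.lintegral_comp_emb hemb
    (fun x : S 3 => ∫⁻ y in closedBall x r, ‖a x - a y‖ₑ ∂(sm 3))]
  exact h r hr

/-- the least variation to the power `p - 1` -/
noncomputable def r3_cost (s p : ℝ) (a : E 3 → ℂ) : ℝ≥0∞ :=
  ⨅ V : {V : ℝ // 1 ≤ V ∧ BVar s V a}, ENNReal.ofReal V ^ (p - 1)

theorem main3_bv (D N : ℕ) (s p : ℝ) (hs : 0 < s) (hp3 : 3 < p) (hp : 1 + 2 / s < p) :
    ∃ C : ℝ≥0∞, C ≠ ∞ ∧ ∀ (V : ℝ) (a : E 3 → ℂ), 1 ≤ V →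
    Measurable a → (∀ x, ‖a x‖ ≤ 1) → BVar s V a →
    ∀ (P : MvPolynomial (Fin 3) ℝ) (Q : Fin N → MvPolynomial (Fin 3) ℝ), P.totalDegree ≤ D →
    (∀ i, (Q i).totalDegree ≤ D) →
    ∫⁻ ξ : E 3, ‖extn (fun x => a x * pol P Q x) ξ‖ₑ ^ p ≤ C * ENNReal.ofReal V ^ (p - 1) := by
  obtain ⟨K, hK, hK2⟩ := apx_of_bvar s hs
  have hp1 : 0 ≤ p - 1 := by linarith
  obtain ⟨C, hC, H⟩ := r3_main3_chart (fun a => Measurable a ∧ ∀ x, ‖a x‖ ≤ 1) (r3_cost s p)
    (fun a ha => ha.1) (fun a ha => ha.2) (fun a ha R => by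
      refine ⟨⟨ha.1.comp R.continuous.measurable, fun x => ha.2 _⟩, ?_⟩
      refine le_iInf fun V => ?_
      exact iInf_le (fun V : {V : ℝ // 1 ≤ V ∧ BVar s V (fun x => a (R x))} =>
        ENNReal.ofReal V ^ (p - 1)) ⟨V, V.2.1, bvar_rot s V a ha.1 V.2.2 R⟩)
    D N p (by linarith) (fun N => by
      obtain ⟨C, hC, H⟩ := all_cuts_bv (D + 1) N s hs p hp3 hp
      refine ⟨C * ENNReal.ofReal K ^ (p - 1) + 1, ENNReal.add_ne_top.2
        ⟨ENNReal.mul_ne_top hC (ENNReal.rpow_ne_top_of_nonneg hp1 ENNReal.ofReal_ne_top),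
          ENNReal.one_ne_top⟩, fun a c cs ha => ?_⟩
      unfold r3_cost
      have hne0 : C * ENNReal.ofReal K ^ (p - 1) + 1 ≠ 0 := by simp
      have hnet : C * ENNReal.ofReal K ^ (p - 1) + 1 ≠ ∞ := ENNReal.add_ne_top.2
        ⟨ENNReal.mul_ne_top hC (ENNReal.rpow_ne_top_of_nonneg hp1 ENNReal.ofReal_ne_top),
          ENNReal.one_ne_top⟩
      rw [ENNReal.mul_iInf' (fun h => absurd h hnet) (fun h => absurd h hne0)]
      refine le_iInf fun V => ?_
      have hV0 : (0:ℝ) ≤ V := zero_le_one.trans V.2.1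
      have hKV : 1 ≤ K * V := one_le_mul_of_one_le_of_one_le hK V.2.1
      have hm : Measurable fun y : ℝ × ℝ => (WithLp.toLp 2 ![y.1, y.2, psi y] : E 3) := by
        have h1 : Measurable fun y : ℝ × ℝ => (![y.1, y.2, psi y] : Fin 3 → ℝ) := by
          rw [measurable_pi_iff]
          intro i
          fin_cases i
          · exact measurable_fst
          · exact measurable_snd
          · show Measurable fun y : ℝ × ℝ => psi y
            unfold psi
            fun_prop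
        exact (WithLp.measurable_toLp 2 _).comp h1
      have h1 := H (K * V) hKV (fun y => a (WithLp.toLp 2 ![y.1, y.2, psi y])) (ha.1.comp hm)
        (fun y => ha.2 _) (hK2 V a hV0 ha.1 ha.2 V.2.2) c cs
      refine h1.trans ?_
      rw [ENNReal.ofReal_mul (by linarith), ENNReal.mul_rpow_of_nonneg _ _ hp1, ← mul_assoc]
      exact mul_le_mul' le_self_add le_rfl)
  refine ⟨C, hC, fun V a hV ha hb hvar P Q hP hQ => ?_⟩
  refine (H a P Q ⟨ha, hb⟩ hP hQ).trans (mul_le_mul' le_rfl ?_)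
  exact iInf_le (fun V : {V : ℝ // 1 ≤ V ∧ BVar s V a} => ENNReal.ofReal V ^ (p - 1)) ⟨V, hV, hvar⟩

end spec

end Pool.Agent.BVA
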