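import Pool.Agent.PPH.S5e

/-!
ROW R3 (port of S5c, S5e with an amplitude `a` of a class `A` which is invariant under linear
isometries; `F a` is the cost of `a`).
-/

namespace Pool.Agent.BVA

open MeasureTheory Set MvPolynomial Pool.Agent.MP_6cbfb8_an Pool.Agent.PPH
open scoped ENNReal Real

theorem r3_meas_chi (R : E 3 ≃ₗᵢ[ℝ] E 3) : Measurable (chi R) := by
  unfold chi
  exact Measurable.ite (R.continuous.measurable measurableSet_UU) measurable_const measurable_const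

theorem r3_meas_unn (L : List (E 3 ≃ₗᵢ[ℝ] E 3)) : Measurable (unn L) := by
  have hs : MeasurableSet {x : E 3 | ∃ R ∈ L, R x ∈ UU} := by
    induction L with
    | nil => simp
    | cons R L ih =>
      have : {x : E 3 | ∃ R' ∈ R :: L, R' x ∈ UU} =
          {x : E 3 | R x ∈ UU} ∪ {x : E 3 | ∃ R' ∈ L, R' x ∈ UU} := by
        ext x
        simp only [mem_union, mem_ofPred_eq, List.mem_cons, exists_eq_or_imp]
      rw [this]
      exact (R.continuous.measurable measurableSet_UU).union ih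
  unfold unn
  exact Measurable.ite hs measurable_const measurable_const

theorem r3_norm_chi (R : E 3 ≃ₗᵢ[ℝ] E 3) (x : E 3) : ‖chi R x‖ ≤ 1 := by
  unfold chi
  split_ifs <;> simp

theorem r3_norm_unn (L : List (E 3 ≃ₗᵢ[ℝ] E 3)) (x : E 3) : ‖unn L x‖ ≤ 1 := by
  unfold unn
  split_ifs <;> simp

theorem r3_cons (R : E 3 ≃ₗᵢ[ℝ] E 3) (L : List (E 3 ≃ₗᵢ[ℝ] E 3)) (x : E 3) :
    unn (R :: L) x = unn L x + chi R x - chi R x * unn L x := by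
  unfold unn chi
  by_cases h1 : R x ∈ UU
  · by_cases h2 : ∃ R' ∈ L, R' x ∈ UU
    · rw [if_pos ⟨R, by simp, h1⟩, if_pos h2, if_pos h1]
      ring
    · rw [if_pos ⟨R, by simp, h1⟩, if_neg h2, if_pos h1]
      ring
  · by_cases h2 : ∃ R' ∈ L, R' x ∈ UU
    · obtain ⟨R', hR', hx⟩ := h2
      rw [if_pos ⟨R', by simp [hR'], hx⟩, if_pos ⟨R', hR', hx⟩, if_neg h1]
      ring
    · have h3 : ¬ ∃ R' ∈ R :: L, R' x ∈ UU := by
        rintro ⟨R', hR', hx⟩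
        rcases List.mem_cons.1 hR' with h | h
        · subst h
          exact h1 hx
        · exact h2 ⟨R', h, hx⟩
      rw [if_neg h1, if_neg h2, if_neg h3]
      ring

theorem r3_int {g : E 3 → ℂ} (hg : Measurable g) (hb : ∀ x, ‖g x‖ ≤ 1) (ξ : E 3) :
    Integrable (fun x : S 3 => g x *
      Complex.exp (((-(2 * π * inner ℝ (x : E 3) ξ) : ℝ) : ℂ) * Complex.I)) (sm 3) := by
  have h1 : Measurable fun x : S 3 => g x *
      Complex.exp (((-(2 * π * inner ℝ (x : E 3) ξ) : ℝ) : ℂ) * Complex.I) := by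
    have h2 : Measurable fun x : S 3 => g (x : E 3) := hg.comp measurable_subtype_coe
    have h3 : Measurable fun x : S 3 => (inner ℝ (x : E 3) ξ : ℝ) := by
      have h4 : Measurable fun x : S 3 => (x : E 3) := measurable_subtype_coe
      exact h4.inner measurable_const
    exact h2.mul (by fun_prop)
  refine Integrable.of_bound h1.aestronglyMeasurable 1 (Filter.Eventually.of_forall fun x => ?_)
  rw [norm_mul, norm_phase, mul_one]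
  exact hb x

theorem r3_extn {f1 f2 f3 : E 3 → ℂ} (h1 : Measurable f1) (h2 : Measurable f2)
    (h3 : Measurable f3) (b1 : ∀ x, ‖f1 x‖ ≤ 1) (b2 : ∀ x, ‖f2 x‖ ≤ 1) (b3 : ∀ x, ‖f3 x‖ ≤ 1)
    (ξ : E 3) : extn (fun x => f1 x + f2 x - f3 x) ξ = extn f1 ξ + extn f2 ξ - extn f3 ξ := by
  have e1 := integral_add (r3_int h1 b1 ξ) (r3_int h2 b2 ξ)
  have e2 := integral_sub ((r3_int h1 b1 ξ).add (r3_int h2 b2 ξ)) (r3_int h3 b3 ξ)
  unfold extn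
  rw [← e1]
  refine Eq.trans ?_ e2
  refine integral_congr_ae (Filter.Eventually.of_forall fun x => ?_)
  simp only [Pi.add_apply]
  ring

theorem r3_three {f1 f2 f3 : E 3 → ℂ} (h1 : Measurable f1) (h2 : Measurable f2)
    (h3 : Measurable f3) (b1 : ∀ x, ‖f1 x‖ ≤ 1) (b2 : ∀ x, ‖f2 x‖ ≤ 1) (b3 : ∀ x, ‖f3 x‖ ≤ 1)
    {p : ℝ} (hp : 0 ≤ p) {C1 C2 C3 : ℝ≥0∞} (c1 : ∫⁻ ξ, ‖extn f1 ξ‖ₑ ^ p ≤ C1)
    (c2 : ∫⁻ ξ, ‖extn f2 ξ‖ₑ ^ p ≤ C2) (c3 : ∫⁻ ξ, ‖extn f3 ξ‖ₑ ^ p ≤ C3) :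
    ∫⁻ ξ, ‖extn (fun x => f1 x + f2 x - f3 x) ξ‖ₑ ^ p ≤ 3 ^ p * (C1 + C2 + C3) := by
  have m1 : Measurable fun ξ => ‖extn f1 ξ‖ₑ ^ p := (measurable_extn f1 h1).enorm.pow_const p
  have m2 : Measurable fun ξ => ‖extn f2 ξ‖ₑ ^ p := (measurable_extn f2 h2).enorm.pow_const p
  have hpt : ∀ ξ, ‖extn (fun x => f1 x + f2 x - f3 x) ξ‖ₑ ^ p ≤
      3 ^ p * (‖extn f1 ξ‖ₑ ^ p + ‖extn f2 ξ‖ₑ ^ p + ‖extn f3 ξ‖ₑ ^ p) := by
    intro ξ
    rw [r3_extn h1 h2 h3 b1 b2 b3 ξ]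
    refine le_trans (ENNReal.rpow_le_rpow ?_ hp) (add_rpow_le_three hp)
    calc ‖extn f1 ξ + extn f2 ξ - extn f3 ξ‖ₑ
        ≤ ‖extn f1 ξ + extn f2 ξ‖ₑ + ‖extn f3 ξ‖ₑ := enorm_sub_le
      _ ≤ ‖extn f1 ξ‖ₑ + ‖extn f2 ξ‖ₑ + ‖extn f3 ξ‖ₑ := by
          gcongr
          exact enorm_add_le _ _
  calc ∫⁻ ξ, ‖extn (fun x => f1 x + f2 x - f3 x) ξ‖ₑ ^ p
      ≤ ∫⁻ ξ, 3 ^ p * (‖extn f1 ξ‖ₑ ^ p + ‖extn f2 ξ‖ₑ ^ p + ‖extn f3 ξ‖ₑ ^ p) :=
        lintegral_mono hpt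
    _ ≤ 3 ^ p * ((∫⁻ ξ, ‖extn f1 ξ‖ₑ ^ p) + (∫⁻ ξ, ‖extn f2 ξ‖ₑ ^ p) +
          ∫⁻ ξ, ‖extn f3 ξ‖ₑ ^ p) := by
        have h3ne : (3 : ℝ≥0∞) ^ p ≠ ∞ := ENNReal.rpow_ne_top_of_nonneg hp (by norm_num)
        have e1 : ∫⁻ ξ, (‖extn f1 ξ‖ₑ ^ p + ‖extn f2 ξ‖ₑ ^ p + ‖extn f3 ξ‖ₑ ^ p) =
            (∫⁻ ξ, (‖extn f1 ξ‖ₑ ^ p + ‖extn f2 ξ‖ₑ ^ p)) + ∫⁻ ξ, ‖extn f3 ξ‖ₑ ^ p :=
          lintegral_add_left (m1.add m2) _
        rw [lintegral_const_mul' _ _ h3ne, e1, lintegral_add_left m1]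
    _ ≤ 3 ^ p * (C1 + C2 + C3) := by gcongr

section cls

variable (A : (E 3 → ℂ) → Prop) (F : (E 3 → ℂ) → ℝ≥0∞)
  (hAm : ∀ a, A a → Measurable a) (hAb : ∀ a, A a → ∀ x, ‖a x‖ ≤ 1)
  (hAR : ∀ a, A a → ∀ R : E 3 ≃ₗᵢ[ℝ] E 3, A (fun x => a (R x)) ∧ F (fun x => a (R x)) ≤ F a)

/-- the point of the sphere over `y` -/
noncomputable def r3_pt (y : ℝ × ℝ) : E 3 := WithLp.toLp 2 ![y.1, y.2, psi y]

include hAm hAb in
theorem r3_one_piece (D N : ℕ) (p : ℝ) (hp : 0 < p)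
    (hchart : ∃ C : ℝ≥0∞, C ≠ ∞ ∧ ∀ (a : E 3 → ℂ) (c : Cf D) (cs : Fin N → Cf D), A a →
      ∫⁻ z : ℝ × (ℝ × ℝ), ‖VV (fun y => a (r3_pt y) * GG c cs y) z‖ₑ ^ p ≤ C * F a) :
    ∃ C : ℝ≥0∞, C ≠ ∞ ∧ ∀ (a : E 3 → ℂ) (P : MvPolynomial (Fin 3) ℝ)
      (Q : Fin N → MvPolynomial (Fin 3) ℝ), A a → P.totalDegree ≤ D →
      (∀ i, (Q i).totalDegree ≤ D) →
      ∫⁻ ξ : E 3, ‖extn (fun x => a x * (pol P Q x * UU.indicator (fun _ => (1:ℂ)) x)) ξ‖ₑ ^ p ≤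
        C * F a := by
  obtain ⟨C, hC, hall⟩ := hchart
  refine ⟨C, hC, fun a P Q ha hP hQ => ?_⟩
  obtain ⟨c, hc⟩ := canon D P hP
  choose cs hcs using fun i => canon D (Q i) (hQ i)
  have hg : Measurable fun x => a x * (pol P Q x * UU.indicator (fun _ => (1:ℂ)) x) :=
    (hAm a ha).mul ((measurable_pol P Q).mul (measurable_const.indicator measurableSet_UU))
  have hb : ∀ x, ‖a x * (pol P Q x * UU.indicator (fun _ => (1:ℂ)) x)‖ ≤ 1 := by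
    intro x
    rw [norm_mul]
    refine mul_le_one₀ (hAb a ha x) (norm_nonneg _) ?_
    by_cases hx : x ∈ UU
    · rw [Set.indicator_of_mem hx, mul_one]
      exact norm_pol_le P Q x
    · rw [Set.indicator_of_notMem hx, mul_zero, norm_zero]
      exact zero_le_one
  have hU : ∀ x, x ∉ UU → a x * (pol P Q x * UU.indicator (fun _ => (1:ℂ)) x) = 0 := by
    intro x hx
    rw [Set.indicator_of_notMem hx, mul_zero, mul_zero]
  refine (lint_chart _ hg hb hU p hp).trans ?_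
  refine le_trans (le_of_eq ?_) (hall a c cs ha)
  refine lintegral_congr fun z => ?_
  congr 2
  unfold VV
  refine setIntegral_congr_ae measurableSet_BB ?_
  have hne : ∀ a : ℝ, ∀ᵐ x : ℝ, x ≠ a := fun a => compl_mem_ae_iff.2 (measure_singleton a)
  have h1 : ∀ a : ℝ, ∀ᵐ y : ℝ × ℝ, y.1 ≠ a := fun a =>
    Measure.quasiMeasurePreserving_fst.ae (hne a)
  have h2 : ∀ a : ℝ, ∀ᵐ y : ℝ × ℝ, y.2 ≠ a := fun a =>
    Measure.quasiMeasurePreserving_snd.ae (hne a)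
  filter_upwards [h1 (1/4), h1 (-(1/4)), h2 (1/4), h2 (-(1/4))] with y ha' hb' hc' hd hy
  congr 1
  have hpsi := BB_psi hy
  have hy' := hy
  obtain ⟨⟨ha1, ha2⟩, ⟨hb1, hb2⟩⟩ := hy'
  have hmem : (WithLp.toLp 2 ![y.1, y.2, psi y] : E 3) ∈ UU := by
    refine ⟨?_, ?_, ?_⟩
    · show |y.1| < 1 / 4
      rw [abs_lt]
      exact ⟨lt_of_le_of_ne ha1 (Ne.symm hb'), lt_of_le_of_ne ha2 ha'⟩
    · show |y.2| < 1 / 4
      rw [abs_lt]
      exact ⟨lt_of_le_of_ne hb1 (Ne.symm hd), lt_of_le_of_ne hb2 hc'⟩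
    · show 0 < psi y
      linarith [hpsi.1]
  rw [Set.indicator_of_mem hmem, mul_one]
  have hdisc := BB_sub_disc hy
  unfold pol GG phs cut r3_pt
  have he : ∀ F : MvPolynomial (Fin 3) ℝ,
      eval (fun i => (WithLp.toLp 2 ![y.1, y.2, psi y] : E 3) i) F =
        eval ![y.1, y.2, psi y] F := fun F => rfl
  rw [he, hc y hdisc]
  have hprod : (∏ i, if 0 < eval (fun j => (WithLp.toLp 2 ![y.1, y.2, psi y] : E 3) j) (Q i)
      then (1:ℂ) else 0) = ∏ i, if 0 < ev (qq (cs i)) y then (1:ℂ) else 0 := by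
    refine Finset.prod_congr rfl fun i _ => ?_
    rw [he, hcs i y hdisc]
  rw [hprod]
  ring

include hAR in
theorem r3_rot_piece (D N : ℕ) (p : ℝ)
    (hone : ∃ C : ℝ≥0∞, C ≠ ∞ ∧ ∀ (a : E 3 → ℂ) (P : MvPolynomial (Fin 3) ℝ)
      (Q : Fin N → MvPolynomial (Fin 3) ℝ), A a → P.totalDegree ≤ D →
      (∀ i, (Q i).totalDegree ≤ D) →
      ∫⁻ ξ : E 3, ‖extn (fun x => a x * (pol P Q x * UU.indicator (fun _ => (1:ℂ)) x)) ξ‖ₑ ^ p ≤
        C * F a) : ∃ C : ℝ≥0∞, C ≠ ∞ ∧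
    ∀ (a : E 3 → ℂ) (R : E 3 ≃ₗᵢ[ℝ] E 3) (P : MvPolynomial (Fin 3) ℝ)
      (Q : Fin N → MvPolynomial (Fin 3) ℝ), A a →
    P.totalDegree ≤ D → (∀ i, (Q i).totalDegree ≤ D) →
    ∫⁻ ξ : E 3, ‖extn (fun x => a x * (pol P Q x * chi R x)) ξ‖ₑ ^ p ≤ C * F a := by
  obtain ⟨C, hC, hone⟩ := hone
  refine ⟨C, hC, fun a R P Q ha hP hQ => ?_⟩
  obtain ⟨P', hP', hPe⟩ := rot_poly R P
  choose Q' hQ' hQe using fun i => rot_poly R (Q i)
  have hfun : ∀ x : E 3, a x * (pol P Q x * chi R x) =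
      (fun x => a (R.symm x) * (pol P' Q' x * UU.indicator (fun _ => (1:ℂ)) x)) (R x) := by
    intro x
    simp only
    have h1 : pol P Q x = pol P' Q' (R x) := by
      unfold pol
      rw [hPe x]
      congr 1
      refine Finset.prod_congr rfl fun i _ => ?_
      rw [hQe i x]
    have h2 : chi R x = UU.indicator (fun _ => (1:ℂ)) (R x) := by
      unfold chi
      by_cases hx : R x ∈ UU
      · rw [if_pos hx, Set.indicator_of_mem hx]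
      · rw [if_neg hx, Set.indicator_of_notMem hx]
    rw [h1, h2, R.symm_apply_apply]
  have hext : ∀ ξ : E 3, extn (fun x => a x * (pol P Q x * chi R x)) ξ =
      extn (fun x => a (R.symm x) * (pol P' Q' x * UU.indicator (fun _ => (1:ℂ)) x)) (R ξ) := by
    intro ξ
    rw [← extn_isometry]
    unfold extn
    refine integral_congr_ae (Filter.Eventually.of_forall fun x => ?_)
    simp only
    rw [hfun]
  simp_rw [hext]
  have hmp : MeasurePreserving (R : E 3 → E 3) volume volume := R.measurePreserving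
  rw [hmp.lintegral_comp_emb R.toMeasurableEquiv.measurableEmbedding
    (fun ξ => ‖extn (fun x => a (R.symm x) *
      (pol P' Q' x * UU.indicator (fun _ => (1:ℂ)) x)) ξ‖ₑ ^ p)]
  obtain ⟨h3, h4⟩ := hAR a ha R.symm
  refine (hone (fun x => a (R.symm x)) P' Q' h3 (hP'.trans hP)
    (fun i => (hQ' i).trans (hQ i))).trans ?_
  gcongr

include hAm hAb in
theorem r3_union_bound (D : ℕ) (hD : 1 ≤ D) (p : ℝ) (hp : 0 < p)
    (hrot : ∀ N : ℕ, ∃ C : ℝ≥0∞, C ≠ ∞ ∧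
      ∀ (a : E 3 → ℂ) (R : E 3 ≃ₗᵢ[ℝ] E 3) (P : MvPolynomial (Fin 3) ℝ)
        (Q : Fin N → MvPolynomial (Fin 3) ℝ), A a →
      P.totalDegree ≤ D → (∀ i, (Q i).totalDegree ≤ D) →
      ∫⁻ ξ : E 3, ‖extn (fun x => a x * (pol P Q x * chi R x)) ξ‖ₑ ^ p ≤ C * F a)
    (L : List (E 3 ≃ₗᵢ[ℝ] E 3)) :
    ∀ N : ℕ, ∃ C : ℝ≥0∞, C ≠ ∞ ∧
    ∀ (a : E 3 → ℂ) (P : MvPolynomial (Fin 3) ℝ) (Q : Fin N → MvPolynomial (Fin 3) ℝ), A a →
    P.totalDegree ≤ D → (∀ i, (Q i).totalDegree ≤ D) →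
    ∫⁻ ξ : E 3, ‖extn (fun x => a x * (pol P Q x * unn L x)) ξ‖ₑ ^ p ≤ C * F a := by
  induction L with
  | nil =>
    intro N
    refine ⟨0, ENNReal.zero_ne_top, fun a P Q _ _ _ => ?_⟩
    have h1 : ∀ ξ : E 3, ‖extn (fun x => a x * (pol P Q x * unn [] x)) ξ‖ₑ ^ p = 0 := by
      intro ξ
      have h2 : extn (fun x => a x * (pol P Q x * unn [] x)) ξ = 0 := by
        unfold extn unn
        simp
      rw [h2, enorm_zero, ENNReal.zero_rpow_of_pos hp]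
    simp_rw [h1]
    simp
  | cons R L ih =>
    intro N
    obtain ⟨C1, hC1, k1⟩ := ih N
    obtain ⟨C2, hC2, k2⟩ := hrot N
    obtain ⟨C3, hC3, k3⟩ := ih (N + 5)
    refine ⟨3 ^ p * (C1 + C2 + C3), ?_, fun a P Q ha hP hQ => ?_⟩
    · exact ENNReal.mul_ne_top (ENNReal.rpow_ne_top_of_nonneg hp.le (by norm_num))
        (ENNReal.add_ne_top.2 ⟨ENNReal.add_ne_top.2 ⟨hC1, hC2⟩, hC3⟩)
    obtain ⟨H, hH, hchi⟩ := chi_eq R
    have hQH : ∀ i, (Fin.append Q H i).totalDegree ≤ D := by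
      intro i
      refine Fin.addCases (fun i => ?_) (fun i => ?_) i
      · rw [Fin.append_left]
        exact hQ i
      · rw [Fin.append_right]
        exact (hH i).trans hD
    have ham := hAm a ha
    have hab := hAb a ha
    have hmp := measurable_pol P Q
    have hmpH := measurable_pol P (Fin.append Q H)
    have hfun : (fun x => a x * (pol P Q x * unn (R :: L) x)) = fun x =>
        (fun x => a x * (pol P Q x * unn L x)) x + (fun x => a x * (pol P Q x * chi R x)) x -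
          (fun x => a x * (pol P (Fin.append Q H) x * unn L x)) x := by
      funext x
      simp only
      rw [r3_cons, pol_append, ← hchi x]
      ring
    rw [hfun]
    have hbd : ∀ {g h : E 3 → ℂ}, (∀ x, ‖g x‖ ≤ 1) → (∀ x, ‖h x‖ ≤ 1) → ∀ x, ‖g x * h x‖ ≤ 1 := by
      intro g h hg hh x
      rw [norm_mul]
      exact mul_le_one₀ (hg x) (norm_nonneg _) (hh x)
    refine (r3_three (ham.mul (hmp.mul (r3_meas_unn L))) (ham.mul (hmp.mul (r3_meas_chi R)))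
      (ham.mul (hmpH.mul (r3_meas_unn L)))
      (hbd hab (hbd (norm_pol_le P Q) (r3_norm_unn L)))
      (hbd hab (hbd (norm_pol_le P Q) (r3_norm_chi R)))
      (hbd hab (hbd (norm_pol_le P (Fin.append Q H)) (r3_norm_unn L))) hp.le (k1 a P Q ha hP hQ)
      (k2 a R P Q ha hP hQ) (k3 a P (Fin.append Q H) ha hP hQH)).trans (le_of_eq ?_)
    ring

include hAm hAb hAR in
/-- From one chart to the whole sphere, for amplitudes of a class `A` which is invariant under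
linear isometries, with cost `F`. -/
theorem r3_main3 (D N : ℕ) (p : ℝ) (hp : 0 < p)
    (hone : ∀ N : ℕ, ∃ C : ℝ≥0∞, C ≠ ∞ ∧ ∀ (a : E 3 → ℂ) (P : MvPolynomial (Fin 3) ℝ)
      (Q : Fin N → MvPolynomial (Fin 3) ℝ), A a → P.totalDegree ≤ D + 1 →
      (∀ i, (Q i).totalDegree ≤ D + 1) →
      ∫⁻ ξ : E 3, ‖extn (fun x => a x * (pol P Q x * UU.indicator (fun _ => (1:ℂ)) x)) ξ‖ₑ ^ p ≤
        C * F a) : ∃ C : ℝ≥0∞, C ≠ ∞ ∧
    ∀ (a : E 3 → ℂ) (P : MvPolynomial (Fin 3) ℝ) (Q : Fin N → MvPolynomial (Fin 3) ℝ), A a →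
    P.totalDegree ≤ D → (∀ i, (Q i).totalDegree ≤ D) →
    ∫⁻ ξ : E 3, ‖extn (fun x => a x * pol P Q x) ξ‖ₑ ^ p ≤ C * F a := by
  obtain ⟨L, hL⟩ := cover
  obtain ⟨C, hC, hub⟩ := r3_union_bound A F hAm hAb (D + 1) (by omega) p hp
    (fun N => r3_rot_piece A F hAR (D + 1) N p (hone N)) L N
  refine ⟨C, hC, fun a P Q ha hP hQ => ?_⟩
  have h1 : extn (fun x => a x * pol P Q x) = extn (fun x => a x * (pol P Q x * unn L x)) := by
    refine extn_congr_sphere fun x hx => ?_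
    have h2 : unn L x = 1 := by
      unfold unn
      rw [if_pos (hL x hx)]
    rw [h2, mul_one]
  rw [h1]
  exact hub a P Q ha (hP.trans (Nat.le_succ D)) fun i => (hQ i).trans (Nat.le_succ D)

include hAm hAb hAR in
/-- `r3_main3` over the chart: `hchart` is `all_cuts` (S4d) with the amplitude `a` read in the chart. -/
theorem r3_main3_chart (D N : ℕ) (p : ℝ) (hp : 0 < p)
    (hchart : ∀ N : ℕ, ∃ C : ℝ≥0∞, C ≠ ∞ ∧
      ∀ (a : E 3 → ℂ) (c : Cf (D + 1)) (cs : Fin N → Cf (D + 1)), A a →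
      ∫⁻ z : ℝ × (ℝ × ℝ), ‖VV (fun y => a (r3_pt y) * GG c cs y) z‖ₑ ^ p ≤ C * F a) :
    ∃ C : ℝ≥0∞, C ≠ ∞ ∧
    ∀ (a : E 3 → ℂ) (P : MvPolynomial (Fin 3) ℝ) (Q : Fin N → MvPolynomial (Fin 3) ℝ), A a →
    P.totalDegree ≤ D → (∀ i, (Q i).totalDegree ≤ D) →
    ∫⁻ ξ : E 3, ‖extn (fun x => a x * pol P Q x) ξ‖ₑ ^ p ≤ C * F a :=
  r3_main3 A F hAm hAb hAR D N p hp fun N => r3_one_piece A F hAm hAb (D + 1) N p hp (hchart N)

end cls

end Pool.Agent.BVA
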