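import Pool.Agent.BVA.R3
import Pool.Agent.PPH.Fin

/-!
Superpositions and all higher dimensions for densities of bounded variation times polynomial phases
with polynomial cuts.
-/

namespace Pool.Agent.BVA

open MeasureTheory Set MvPolynomial Pool.Agent.PPH Pool.Agent.MP_6cbfb8_an
open scoped ENNReal Real

/-- The densities `a · pol P Q` with `a` bounded by one and `BVar s V a`. -/
def r4cls (D N : ℕ) (s V : ℝ) (g : E 3 → ℂ) : Prop :=
  ∃ (a : E 3 → ℂ) (P : MvPolynomial (Fin 3) ℝ) (Q : Fin N → MvPolynomial (Fin 3) ℝ),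
    Measurable a ∧ (∀ x, ‖a x‖ ≤ 1) ∧ BVar s V a ∧ P.totalDegree ≤ D ∧
    (∀ i, (Q i).totalDegree ≤ D) ∧ g = fun x => a x * pol P Q x

theorem r4cls_measurable {D N : ℕ} {s V : ℝ} {g : E 3 → ℂ} (h : r4cls D N s V g) :
    Measurable g := by
  obtain ⟨a, P, Q, ha, -, -, -, -, rfl⟩ := h
  exact ha.mul (measurable_pol P Q)

theorem r4cls_norm {D N : ℕ} {s V : ℝ} {g : E 3 → ℂ} (h : r4cls D N s V g) (x : E 3) :
    ‖g x‖ ≤ 1 := by
  obtain ⟨a, P, Q, -, ha, -, -, -, rfl⟩ := h
  rw [norm_mul]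
  exact mul_le_one₀ (ha x) (norm_nonneg _) (norm_pol_le P Q x)

/-- The factor of the passage from half spaces to powers of the last coordinate. -/
noncomputable def r4K (q : ℝ) : ℕ → ℝ≥0∞
  | 0 => 1
  | j + 1 => powν j univ ^ q

theorem r4K_ne_top {q : ℝ} (hq : 0 ≤ q) (j : ℕ) : r4K q j ≠ ∞ := by
  rcases j with _ | j
  · exact ENNReal.one_ne_top
  · exact ENNReal.rpow_ne_top_of_nonneg hq (measure_ne_top _ _)

/-- A density whose cuts by the half spaces `x 2 > t` are under control is under control after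
multiplication by powers of the last coordinate. -/
theorem r4_tpow_gen (g : E 3 → ℂ) (hg : Measurable g) (hb : ∀ x, ‖g x‖ ≤ 1) (j : ℕ) (q : ℝ)
    (hq : 1 ≤ q) (C : ℝ≥0∞)
    (H : ∀ t : ℝ, ∫⁻ ξ : E 3, ‖extn (fun x => g x * hsn t (eLast 2) x) ξ‖ₑ ^ q ≤ C) :
    ∫⁻ ξ : E 3, ‖extn (tpow j g) ξ‖ₑ ^ q ≤ C * r4K q j := by
  rcases j with _ | j
  · unfold r4K
    rw [mul_one]
    refine le_trans (le_of_eq ?_) (H 0)
    refine lintegral_congr fun ξ => ?_
    congr 3
    funext x
    unfold tpow hsn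
    rw [inner_eLast2]
    split_ifs <;> simp
  · have key := lintegral_mix_le (p := q) (C := C) hq
      (fun f : E 3 → ℂ => ∃ t : ℝ, f = fun x => g x * hsn t (eLast 2) x)
      (by
        rintro f _ _ ⟨t, rfl⟩
        exact H t)
      (powν j) (fun _ => LinearIsometryEquiv.refl ℝ (E 3)) (fun _ => 0)
      (fun t x => g x * hsn t (eLast 2) x)
      measurable_snd measurable_const (by
        have h1 : Measurable fun q : ℝ × E 3 => g q.2 := hg.comp measurable_snd
        refine h1.mul ?_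
        unfold hsn
        refine Measurable.ite ?_ measurable_const measurable_const
        exact measurableSet_lt measurable_fst (by fun_prop))
      (fun t x => by
        rw [norm_mul]
        exact mul_le_one₀ (hb _) (norm_nonneg _) (norm_hsn_le _ _ _))
      (fun t => ⟨t, rfl⟩)
    refine le_trans (le_of_eq ?_) key
    have : extn (tpow (j + 1) g : E 3 → ℂ) = extn (mix (powν j)
        (fun _ => LinearIsometryEquiv.refl ℝ (E 3)) (fun _ => 0)
        (fun t x => g x * hsn t (eLast 2) x)) := by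
      refine extn_congr_sphere fun x hx => ?_
      unfold mix
      simp only [inner_zero_right, mul_zero, Complex.ofReal_zero, zero_mul,
        Complex.exp_zero, one_mul, LinearIsometryEquiv.coe_refl, id]
      rw [integral_const_mul]
      have e1 : (fun t : ℝ => hsn t (eLast 2) x) =
          (Iio (x (Fin.last 2))).indicator fun _ => (1:ℂ) := by
        funext t
        unfold hsn
        rw [inner_eLast2]
        by_cases h : t < x (Fin.last 2)
        · rw [if_pos h, indicator_of_mem (mem_Iio.2 h)]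
        · rw [if_neg h, indicator_of_notMem]
          exact h
      rw [e1, integral_indicator_const _ measurableSet_Iio]
      unfold tpow Measure.real
      split_ifs with h
      · rw [powν_Iio j h ((le_abs_self _).trans ((abs_last_le x).trans hx.le)),
          ENNReal.toReal_ofReal (by positivity)]
        simp
      · rw [powν_Iio_neg j (not_lt.1 h)]
        simp
    rw [this]

theorem r4_tpow (D N j : ℕ) (V q : ℝ) (hV : 1 ≤ V) (hq : 3 < q) : ∃ C : ℝ≥0∞, C ≠ ∞ ∧
    ∀ g : E 3 → ℂ, r4cls D N 1 V g → ∫⁻ ξ : E 3, ‖extn (tpow j g) ξ‖ₑ ^ q ≤ C := by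
  obtain ⟨C, hC, H⟩ := main3_bv (D + 1) (N + 1) 1 q one_pos hq (by linarith)
  refine ⟨C * ENNReal.ofReal V ^ (q - 1) * r4K q j, ENNReal.mul_ne_top (ENNReal.mul_ne_top hC
    (ENNReal.rpow_ne_top_of_nonneg (by linarith) ENNReal.ofReal_ne_top))
    (r4K_ne_top (by linarith) j), ?_⟩
  rintro g hg
  refine r4_tpow_gen g (r4cls_measurable hg) (r4cls_norm hg) j q (by linarith) _ fun t => ?_
  obtain ⟨a, P, Q, ha, ha1, haV, hP, hQ, rfl⟩ := hg
  have h1 := H V a hV ha ha1 haV P (Fin.append Q (s6T t)) (hP.trans (Nat.le_succ D))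
    (s6_append_deg Q hQ t)
  refine le_trans (le_of_eq ?_) h1
  refine lintegral_congr fun ξ => ?_
  congr 3
  funext x
  rw [s6_pol, mul_assoc]

theorem high_bv (D N M l : ℕ) (hl : 2 ≤ l) (V p : ℝ) (hV : 1 ≤ V)
    (hp : 2 * ((l : ℝ) + 2) / (l + 1) < p) :
    ∃ C : ℝ≥0∞, C ≠ ∞ ∧ ∀ g : E 3 → ℂ, r4cls D N 1 V g →
    ∀ (v : Fin M → E (2 + l)) (c : Fin M → ℝ),
    ∫⁻ ξ : E (2 + l), ‖extn (fun x => lift g x * ∏ i, hsn (c i) (v i) x) ξ‖ₑ ^ p ≤ C := by
  obtain ⟨C, hC, H⟩ := multicut (2 + l) (by omega) (2 * ((l : ℝ) + 2) / (l + 1)) (by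
    rw [le_div_iff₀ (by positivity)]
    have : (0:ℝ) ≤ l := Nat.cast_nonneg l
    linarith) (fun g => ∃ G : E 3 → ℂ, r4cls D N 1 V G ∧ g = lift G) (by
    intro p' hp'
    obtain ⟨i, rfl⟩ : ∃ i, l = i + 2 := ⟨l - 2, by omega⟩
    have hi0 : (0:ℝ) ≤ i := Nat.cast_nonneg i
    push_cast at hp'
    have hp2 : 2 < p' := by
      refine lt_trans ?_ hp'
      rw [lt_div_iff₀ (by positivity)]
      linarith
    obtain ⟨C, hC, H⟩ := lifting 1 i 3 (by norm_num) (r4cls D N 1 V) (by
        intro j q hq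
        obtain ⟨C, hC, H⟩ := r4_tpow D N j V q hV hq
        exact ⟨C, hC, fun G _ _ hG => H G hG⟩) p' hp2 (by
        have h1 : 2 * ((i : ℝ) + 2 + 2) / (i + 2 + 1) = 2 + 2 / (i + 3) := by field_simp; ring
        have h2 : 2 / ((i:ℝ) + 3) < p' - 2 := by linarith
        have h3 := one_div_lt_one_div_of_lt (by positivity) h2
        rw [one_div_div] at h3
        refine h3.trans_le (le_of_eq ?_)
        norm_num
        ring)
    refine ⟨C, hC, ?_⟩
    rintro g _ _ ⟨G, hG, rfl⟩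
    exact H G (r4cls_measurable hG) (r4cls_norm hG) hG) M p hp
  refine ⟨C, hC, fun g hg v c => ?_⟩
  exact H (lift g) (measurable_lift (r4cls_measurable hg)) (fun x => r4cls_norm hg _)
    ⟨g, hg, rfl⟩ v c

theorem r4_measurable_param {W : Type*} [MeasurableSpace W] {N : ℕ} (a : W → E 3 → ℂ)
    (P : W → MvPolynomial (Fin 3) ℝ) (Q : W → Fin N → MvPolynomial (Fin 3) ℝ)
    (ha : Measurable fun q : W × E 3 => a q.1 q.2)
    (hP : Measurable fun q : W × E 3 => eval (fun i => q.2 i) (P q.1))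
    (hQ : ∀ i, Measurable fun q : W × E 3 => eval (fun j => q.2 j) (Q q.1 i)) :
    Measurable fun q : W × E 3 => a q.1 q.2 * pol (P q.1) (Q q.1) q.2 :=
  ha.mul (measurable_pol_param P Q hP hQ)

/-- Superpositions in dimension three. -/
theorem mix3_bv (D N : ℕ) (s p : ℝ) (hs : 0 < s) (hp3 : 3 < p) (hp : 1 + 2 / s < p) :
    ∃ C : ℝ≥0∞, C ≠ ∞ ∧ ∀ V : ℝ, 1 ≤ V →
    ∀ (W : Type) (_ : MeasurableSpace W) (ν : Measure W) (_ : IsFiniteMeasure ν)
      (R : W → (E 3 ≃ₗᵢ[ℝ] E 3)) (η : W → E 3) (a : W → E 3 → ℂ)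
      (P : W → MvPolynomial (Fin 3) ℝ) (Q : W → Fin N → MvPolynomial (Fin 3) ℝ),
      (Measurable fun q : W × E 3 => R q.1 q.2) → Measurable η →
      (Measurable fun q : W × E 3 => a q.1 q.2) → (∀ w x, ‖a w x‖ ≤ 1) →
      (∀ w, BVar s V (a w)) →
      (Measurable fun q : W × E 3 => eval (fun i => q.2 i) (P q.1)) →
      (∀ i, Measurable fun q : W × E 3 => eval (fun j => q.2 j) (Q q.1 i)) →
      (∀ w, (P w).totalDegree ≤ D) → (∀ w i, (Q w i).totalDegree ≤ D) →
      ∫⁻ ξ, ‖extn (mix ν R η fun w x => a w x * pol (P w) (Q w) x) ξ‖ₑ ^ p ≤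
        C * ENNReal.ofReal V ^ (p - 1) * ν univ ^ p := by
  obtain ⟨C, hC, H⟩ := main3_bv D N s p hs hp3 hp
  refine ⟨C, hC, ?_⟩
  intro V hV W _ ν _ R η a P Q hR hη ha ha1 haV hP hQ hd hd'
  have hc : ∀ w, r4cls D N s V (fun x => a w x * pol (P w) (Q w) x) := fun w =>
    ⟨a w, P w, Q w, ha.comp measurable_prodMk_left, ha1 w, haV w, hd w, hd' w, rfl⟩
  exact lintegral_mix_le (by linarith) (r4cls D N s V) (by
      rintro g _ _ ⟨a, P, Q, h1, h2, h3, h4, h5, rfl⟩
      exact H V a hV h1 h2 h3 P Q h4 h5) ν R η (fun w x => a w x * pol (P w) (Q w) x) hR hη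
    (r4_measurable_param a P Q ha hP hQ) (fun w x => r4cls_norm (hc w) x) hc

/-- Superpositions in higher dimensions. -/
theorem mixhigh_bv (D N M l : ℕ) (hl : 2 ≤ l) (V p : ℝ) (hV : 1 ≤ V)
    (hp : 2 * ((l : ℝ) + 2) / (l + 1) < p) :
    ∃ C : ℝ≥0∞, C ≠ ∞ ∧
    ∀ (W : Type) (_ : MeasurableSpace W) (ν : Measure W) (_ : IsFiniteMeasure ν)
      (R : W → (E (2 + l) ≃ₗᵢ[ℝ] E (2 + l))) (η : W → E (2 + l)) (a : W → E 3 → ℂ)
      (P : W → MvPolynomial (Fin 3) ℝ) (Q : W → Fin N → MvPolynomial (Fin 3) ℝ)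
      (v : W → Fin M → E (2 + l)) (c : W → Fin M → ℝ),
      (Measurable fun q : W × E (2 + l) => R q.1 q.2) → Measurable η →
      (Measurable fun q : W × E 3 => a q.1 q.2) → (∀ w x, ‖a w x‖ ≤ 1) →
      (∀ w, BVar 1 V (a w)) →
      (Measurable fun q : W × E 3 => eval (fun i => q.2 i) (P q.1)) →
      (∀ i, Measurable fun q : W × E 3 => eval (fun j => q.2 j) (Q q.1 i)) →
      Measurable v → Measurable c →
      (∀ w, (P w).totalDegree ≤ D) → (∀ w i, (Q w i).totalDegree ≤ D) →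
      ∫⁻ ξ, ‖extn (mix ν R η fun w x =>
        lift (fun y => a w y * pol (P w) (Q w) y) x * ∏ i, hsn (c w i) (v w i) x) ξ‖ₑ ^ p ≤
        C * ν univ ^ p := by
  obtain ⟨C, hC, H⟩ := high_bv D N M l hl V p hV hp
  refine ⟨C, hC, ?_⟩
  intro W _ ν _ R η a P Q v c hR hη ha ha1 haV hP hQ hv hc hd hd'
  have hcl : ∀ w, r4cls D N 1 V (fun x => a w x * pol (P w) (Q w) x) := fun w =>
    ⟨a w, P w, Q w, ha.comp measurable_prodMk_left, ha1 w, haV w, hd w, hd' w, rfl⟩
  have hp1 : 1 ≤ p := by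
    refine le_trans ?_ hp.le
    rw [le_div_iff₀ (by positivity)]
    have : (0:ℝ) ≤ l := Nat.cast_nonneg l
    linarith
  refine lintegral_mix_le hp1 (fun g => ∃ (G : E 3 → ℂ) (v : Fin M → E (2 + l)) (c : Fin M → ℝ),
    r4cls D N 1 V G ∧ g = fun x => lift G x * ∏ i, hsn (c i) (v i) x) (by
      rintro g _ _ ⟨G, v, c, hG, rfl⟩
      exact H G hG v c) ν R η
      (fun w x => lift (fun y => a w y * pol (P w) (Q w) y) x * ∏ i, hsn (c w i) (v w i) x)
      hR hη ?_ (fun w x => ?_) (fun w => ⟨_, v w, c w, hcl w, rfl⟩)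
  · have h1 : Measurable fun q : W × E (2 + l) =>
        (q.1, (join (fstE (k := 2) (l := l) q.2) ‖(sndE q.2 : E l)‖ : E 3)) := by
      refine measurable_fst.prodMk ?_
      have h2 : Measurable fun q : W × E (2 + l) =>
          ((fstE (k := 2) (l := l) q.2 : E 2), ‖(sndE q.2 : E l)‖) :=
        (continuous_fstE.measurable.comp measurable_snd).prodMk
          ((continuous_sndE.norm).measurable.comp measurable_snd)
      exact measurable_join.comp h2
    have h3 : Measurable fun q : W × E (2 + l) =>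
        (lift (fun y => a q.1 y * pol (P q.1) (Q q.1) y) q.2 : ℂ) := by
      have h7 : Measurable fun r : W × E 3 => a r.1 r.2 * pol (P r.1) (Q r.1) r.2 :=
        r4_measurable_param a P Q ha hP hQ
      have h8 := h7.comp h1
      simp only [Function.comp_def] at h8
      unfold lift
      exact h8
    have h4 : Measurable fun q : W × E (2 + l) => ∏ i, hsn (c q.1 i) (v q.1 i) q.2 := by
      refine Finset.measurable_prod _ fun i _ => ?_
      unfold hsn
      refine Measurable.ite ?_ measurable_const measurable_const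
      have h5 : Measurable fun q : W × E (2 + l) => c q.1 i :=
        (measurable_pi_iff.1 hc i).comp measurable_fst
      have h6 : Measurable fun q : W × E (2 + l) => v q.1 i :=
        (measurable_pi_iff.1 hv i).comp measurable_fst
      exact measurableSet_lt h5 (measurable_snd.inner h6)
    exact h3.mul h4
  · rw [norm_mul]
    exact mul_le_one₀ (r4cls_norm (hcl w) _) (norm_nonneg _) (norm_prod_hsn_le _ _ _)

end Pool.Agent.BVA
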