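import Pool.Agent.BVA.Defs
import Pool.Agent.MP_6cbfb8_an.Slice

/-!
ROW R5a: the measure of a cap, densities with a modulus of continuity, products.
-/

namespace Pool.Agent.BVA

open MeasureTheory Set Pool.Agent.MP_6cbfb8_an Pool.Agent.PPH
open scoped ENNReal Real RealInnerProductSpace

/-- the pole -/
noncomputable def pole : S 3 := ⟨join (0 : E 2) 1, by
  rw [mem_sphere_zero_iff_norm]
  have h : ‖(join (0 : E 2) 1 : E 3)‖ ^ 2 = 1 := by
    rw [norm_join_sq]
    simp
  nlinarith [norm_nonneg (join (0 : E 2) 1 : E 3)]⟩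

theorem cap_pole (r : ℝ) (hr : 0 < r) :
    sm 3 (Metric.closedBall pole r) ≤ ENNReal.ofReal (π ^ 2 / 4 * r ^ 2) * sm 2 univ := by
  have hπ := Real.pi_pos
  have hms : MeasurableSet (Metric.closedBall (pole : E 3) r) :=
    Metric.isClosed_closedBall.measurableSet
  have h1 : sm 3 (Metric.closedBall pole r) =
      ∫⁻ x : S 3, (Metric.closedBall (pole : E 3) r).indicator 1 (x : E 3) ∂(sm 3) := by
    have h2 : (fun x : S 3 => (Metric.closedBall (pole : E 3) r).indicator (1 : E 3 → ℝ≥0∞) x) =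
        (Metric.closedBall pole r).indicator 1 := by
      funext x
      by_cases hx : x ∈ Metric.closedBall pole r
      · rw [indicator_of_mem hx, indicator_of_mem]
        · rfl
        · exact hx
      · rw [indicator_of_notMem hx, indicator_of_notMem]
        exact hx
    rw [h2, lintegral_indicator_one Metric.isClosed_closedBall.measurableSet]
  rw [h1]
  have h3 := lintegral_slice 1 ((Metric.closedBall (pole : E 3) r).indicator (1 : E 3 → ℝ≥0∞))
    (measurable_one.indicator hms)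
  refine h3.le.trans ?_
  have h4 : ∀ θ ∈ Ioo (0 : ℝ) π, ENNReal.ofReal (Real.sin θ ^ 1) *
      (∫⁻ ω : S 2, (Metric.closedBall (pole : E 3) r).indicator (1 : E 3 → ℝ≥0∞)
        (pt θ (ω : E 2)) ∂(sm 2)) ≤
      (Icc (0 : ℝ) (π / 2 * r)).indicator (fun _ => ENNReal.ofReal (π / 2 * r) * sm 2 univ) θ := by
    intro θ hθ
    by_cases hc : θ ≤ π / 2 * r
    · rw [indicator_of_mem (show θ ∈ Icc (0 : ℝ) (π / 2 * r) from ⟨hθ.1.le, hc⟩)]
      gcongr
      · rw [pow_one]
        exact (Real.sin_le hθ.1.le).trans hc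
      · calc ∫⁻ ω : S 2, (Metric.closedBall (pole : E 3) r).indicator (1 : E 3 → ℝ≥0∞)
              (pt θ (ω : E 2)) ∂(sm 2) ≤ ∫⁻ _ : S 2, 1 ∂(sm 2) :=
              lintegral_mono fun ω => by
                refine (indicator_le_self' (fun _ _ => zero_le) _).trans ?_
                simp
          _ = sm 2 univ := by simp
    · have h5 : ∀ ω : S 2, (Metric.closedBall (pole : E 3) r).indicator (1 : E 3 → ℝ≥0∞)
          (pt θ (ω : E 2)) = 0 := by
        intro ω
        refine indicator_of_notMem (fun hm => hc ?_) _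
        rw [Metric.mem_closedBall, dist_eq_norm] at hm
        have e1 : pt θ (ω : E 2) - (pole : E 3) =
            join (Real.sin θ • (ω : E 2)) (Real.cos θ - 1) := by
          change join (Real.sin θ • (ω : E 2)) (Real.cos θ) - join (0 : E 2) 1 = _
          ext i
          rw [PiLp.sub_apply]
          refine Fin.lastCases ?_ (fun j => ?_) i
          · rw [join_last, join_last, join_last]
          · rw [join_castSucc, join_castSucc, join_castSucc]
            simp
        have e2 : ‖pt θ (ω : E 2) - (pole : E 3)‖ ^ 2 = 2 - 2 * Real.cos θ := by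
          rw [e1, norm_join_sq, norm_smul]
          have : ‖(ω : E 2)‖ = 1 := by simp
          rw [this, mul_one, Real.norm_eq_abs, sq_abs]
          nlinarith [Real.sin_sq_add_cos_sq θ]
        have e3 : ‖pt θ (ω : E 2) - (pole : E 3)‖ ^ 2 ≤ r ^ 2 := by
          gcongr
        have e4 : Real.cos θ = 1 - 2 * Real.sin (θ / 2) ^ 2 := by
          have := Real.cos_sq' (θ / 2)
          have h6 := Real.cos_two_mul (θ / 2)
          rw [show 2 * (θ / 2) = θ by ring] at h6
          rw [h6, this]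
          ring
        have e5 : 2 / π * (θ / 2) ≤ Real.sin (θ / 2) :=
          Real.mul_le_sin (by linarith [hθ.1]) (by linarith [hθ.2])
        have e6 : (2 * Real.sin (θ / 2)) ^ 2 ≤ r ^ 2 := by nlinarith
        have e7 : 2 * Real.sin (θ / 2) ≤ r := (le_abs_self _).trans (abs_le_of_sq_le_sq e6 hr.le)
        have e8 : 2 * (2 / π * (θ / 2)) ≤ r := by linarith
        have e9 : 2 * (2 / π * (θ / 2)) = θ * (2 / π) := by ring
        rw [e9] at e8
        calc θ = θ * (2 / π) * (π / 2) := by field_simp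
          _ ≤ r * (π / 2) := by gcongr
          _ = π / 2 * r := by ring
      simp only [h5, lintegral_zero, mul_zero]
      exact zero_le
  calc ∫⁻ θ in Ioo 0 π, ENNReal.ofReal (Real.sin θ ^ 1) *
      (∫⁻ ω : S 2, (Metric.closedBall (pole : E 3) r).indicator (1 : E 3 → ℝ≥0∞)
        (pt θ (ω : E 2)) ∂(sm 2))
      ≤ ∫⁻ θ in Ioo 0 π, (Icc (0 : ℝ) (π / 2 * r)).indicator
        (fun _ => ENNReal.ofReal (π / 2 * r) * sm 2 univ) θ :=
        setLIntegral_mono' measurableSet_Ioo h4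
    _ ≤ ∫⁻ θ, (Icc (0 : ℝ) (π / 2 * r)).indicator
        (fun _ => ENNReal.ofReal (π / 2 * r) * sm 2 univ) θ := setLIntegral_le_lintegral _ _
    _ = ENNReal.ofReal (π / 2 * r) * sm 2 univ * ENNReal.ofReal (π / 2 * r) := by
        rw [lintegral_indicator_const measurableSet_Icc, Real.volume_Icc, sub_zero]
    _ = ENNReal.ofReal (π ^ 2 / 4 * r ^ 2) * sm 2 univ := by
        rw [mul_right_comm, ← ENNReal.ofReal_mul (by positivity)]
        congr 2
        ring

theorem cap_eq (x : S 3) (r : ℝ) :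
    sm 3 (Metric.closedBall x r) = sm 3 (Metric.closedBall pole r) := by
  have hn : ‖(x : E 3)‖ = ‖(pole : E 3)‖ := by
    rw [show ‖(x : E 3)‖ = 1 by simp, show ‖(pole : E 3)‖ = 1 by simp]
  obtain ⟨R, hR⟩ : ∃ R : E 3 ≃ₗᵢ[ℝ] E 3, R (x : E 3) = (pole : E 3) :=
    ⟨(ℝ ∙ ((x : E 3) - (pole : E 3)))ᗮ.reflection, Submodule.reflection_sub hn⟩
  have h1 := (measurePreserving_isometry R).measure_preimage
    (s := Metric.closedBall pole r) Metric.isClosed_closedBall.measurableSet.nullMeasurableSet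
  rw [← h1]
  congr 1
  ext y
  simp only [Metric.mem_closedBall, mem_preimage, Subtype.dist_eq]
  rw [← hR, R.dist_map]

theorem cap_le : ∃ K : ℝ, 1 ≤ K ∧ ∀ (x : S 3) (r : ℝ), 0 < r →
    sm 3 (Metric.closedBall x r) ≤ ENNReal.ofReal (K * r ^ 2) := by
  have hf : sm 2 univ ≠ ∞ := measure_ne_top _ _
  refine ⟨max 1 (π ^ 2 / 4 * (sm 2 univ).toReal), le_max_left _ _, fun x r hr => ?_⟩
  rw [cap_eq x r]
  refine (cap_pole r hr).trans ?_
  rw [← ENNReal.ofReal_toReal hf, ← ENNReal.ofReal_mul (by positivity)]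
  refine ENNReal.ofReal_le_ofReal ?_
  rw [ENNReal.toReal_ofReal ENNReal.toReal_nonneg]
  calc π ^ 2 / 4 * r ^ 2 * (sm 2 univ).toReal = π ^ 2 / 4 * (sm 2 univ).toReal * r ^ 2 := by ring
    _ ≤ max 1 (π ^ 2 / 4 * (sm 2 univ).toReal) * r ^ 2 := by
        gcongr
        exact le_max_right _ _

/-- Functions with the modulus of continuity `L t^s` are of class `BVar s`. -/
theorem bvar_holder : ∃ K : ℝ, 1 ≤ K ∧ ∀ (s L : ℝ) (u : E 3 → ℂ), 0 < s → 0 ≤ L →
    (∀ x y : S 3, ‖u x - u y‖ ≤ L * ‖(x : E 3) - y‖ ^ s) → BVar s (K * L) u := by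
  obtain ⟨K, hK, hcap⟩ := cap_le
  have hf : sm 3 univ ≠ ∞ := measure_ne_top _ _
  refine ⟨max 1 (K * (sm 3 univ).toReal), le_max_left _ _, fun s L u hs hL hu r hr => ?_⟩
  calc ∫⁻ x : S 3, (∫⁻ y in Metric.closedBall x r, ‖u x - u y‖ₑ ∂(sm 3)) ∂(sm 3)
      ≤ ∫⁻ _ : S 3, ENNReal.ofReal (L * r ^ s) * ENNReal.ofReal (K * r ^ 2) ∂(sm 3) := by
        refine lintegral_mono fun x => ?_
        calc ∫⁻ y in Metric.closedBall x r, ‖u x - u y‖ₑ ∂(sm 3)
            ≤ ∫⁻ _ in Metric.closedBall x r, ENNReal.ofReal (L * r ^ s) ∂(sm 3) := by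
              refine setLIntegral_mono' Metric.isClosed_closedBall.measurableSet fun y hy => ?_
              rw [← ofReal_norm]
              refine ENNReal.ofReal_le_ofReal ((hu x y).trans ?_)
              rw [Metric.mem_closedBall, dist_comm, Subtype.dist_eq, dist_eq_norm] at hy
              gcongr
          _ = ENNReal.ofReal (L * r ^ s) * sm 3 (Metric.closedBall x r) := by simp
          _ ≤ _ := by
              gcongr
              exact hcap x r hr
    _ = ENNReal.ofReal (L * r ^ s) * ENNReal.ofReal (K * r ^ 2) * sm 3 univ := by simp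
    _ ≤ ENNReal.ofReal (max 1 (K * (sm 3 univ).toReal) * L * r ^ (2 + s)) := by
        rw [← ENNReal.ofReal_toReal hf, ← ENNReal.ofReal_mul (by positivity),
          ← ENNReal.ofReal_mul (by positivity)]
        refine ENNReal.ofReal_le_ofReal ?_
        rw [ENNReal.toReal_ofReal ENNReal.toReal_nonneg, Real.rpow_add hr, Real.rpow_two]
        calc L * r ^ s * (K * r ^ 2) * (sm 3 univ).toReal =
            (K * (sm 3 univ).toReal) * L * (r ^ 2 * r ^ s) := by ring
          _ ≤ max 1 (K * (sm 3 univ).toReal) * L * (r ^ 2 * r ^ s) := by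
              gcongr
              exact le_max_right _ _

/-- Lipschitz functions are of class `BVar 1`. -/
theorem bvar_lip : ∃ K : ℝ, 1 ≤ K ∧ ∀ (L : ℝ) (u : E 3 → ℂ), 0 ≤ L →
    (∀ x y : S 3, ‖u x - u y‖ ≤ L * ‖(x : E 3) - y‖) → BVar 1 (K * L) u := by
  obtain ⟨K, hK, h⟩ := bvar_holder
  refine ⟨K, hK, fun L u hL hu => h 1 L u one_pos hL fun x y => ?_⟩
  rw [Real.rpow_one]
  exact hu x y

theorem norm_exp_sub_le (a b : ℝ) :
    ‖Complex.exp ((a : ℂ) * Complex.I) - Complex.exp ((b : ℂ) * Complex.I)‖ ≤ |a - b| := by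
  have h1 : Complex.exp ((a : ℂ) * Complex.I) - Complex.exp ((b : ℂ) * Complex.I) =
      Complex.exp ((b : ℂ) * Complex.I) * (Complex.exp (Complex.I * ((a - b : ℝ) : ℂ)) - 1) := by
    rw [mul_sub, ← Complex.exp_add, mul_one]
    congr 2
    push_cast
    ring
  rw [h1, norm_mul, Complex.norm_exp_ofReal_mul_I, one_mul]
  refine (Real.norm_exp_I_mul_ofReal_sub_one_le (x := a - b)).trans ?_
  rw [Real.norm_eq_abs]

/-- The product rule. -/
theorem bvar_mul {s V W : ℝ} {a b : E 3 → ℂ} (hV : 0 ≤ V) (hW : 0 ≤ W) (ha : Measurable a)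
    (hba : ∀ x, ‖a x‖ ≤ 1) (hbb : ∀ x, ‖b x‖ ≤ 1) (h1 : BVar s V a) (h2 : BVar s W b) :
    BVar s (V + W) (fun x => a x * b x) := by
  intro r hr
  have hm : Measurable fun q : S 3 × S 3 => ‖a q.1 - a q.2‖ₑ := by
    have e1 : Measurable fun q : S 3 × S 3 => a (q.1 : E 3) :=
      ha.comp (measurable_subtype_coe.comp measurable_fst)
    have e2 : Measurable fun q : S 3 × S 3 => a (q.2 : E 3) :=
      ha.comp (measurable_subtype_coe.comp measurable_snd)
    exact (e1.sub e2).enorm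
  have hmc : MeasurableSet {q : S 3 × S 3 | q.2 ∈ Metric.closedBall q.1 r} := by
    have : IsClosed {q : S 3 × S 3 | dist q.2 q.1 ≤ r} :=
      isClosed_le (continuous_snd.dist continuous_fst) continuous_const
    exact this.measurableSet
  have hm2 : Measurable fun x : S 3 =>
      ∫⁻ y in Metric.closedBall x r, ‖a x - a y‖ₑ ∂(sm 3) := by
    have e1 : ∀ x : S 3, ∫⁻ y in Metric.closedBall x r, ‖a x - a y‖ₑ ∂(sm 3) =
        ∫⁻ y, ({q : S 3 × S 3 | q.2 ∈ Metric.closedBall q.1 r}).indicator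
          (fun q => ‖a q.1 - a q.2‖ₑ) (x, y) ∂(sm 3) := by
      intro x
      rw [← lintegral_indicator Metric.isClosed_closedBall.measurableSet]
      rfl
    simp only [e1]
    exact (hm.indicator hmc).lintegral_prod_right'
  have hpt : ∀ x y : S 3, ‖a x * b x - a y * b y‖ₑ ≤ ‖a x - a y‖ₑ + ‖b x - b y‖ₑ := by
    intro x y
    have e1 : a x * b x - a y * b y = (a x - a y) * b x + a y * (b x - b y) := by ring
    have n1 : ‖b x‖ₑ ≤ 1 := by
      rw [← ofReal_norm]
      exact ENNReal.ofReal_le_one.2 (hbb x)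
    have n2 : ‖a y‖ₑ ≤ 1 := by
      rw [← ofReal_norm]
      exact ENNReal.ofReal_le_one.2 (hba y)
    calc ‖a x * b x - a y * b y‖ₑ ≤ ‖(a x - a y) * b x‖ₑ + ‖a y * (b x - b y)‖ₑ := by
          rw [e1]
          exact enorm_add_le _ _
      _ = ‖a x - a y‖ₑ * ‖b x‖ₑ + ‖a y‖ₑ * ‖b x - b y‖ₑ := by rw [enorm_mul, enorm_mul]
      _ ≤ ‖a x - a y‖ₑ * 1 + 1 * ‖b x - b y‖ₑ := by gcongr
      _ = _ := by rw [mul_one, one_mul]
  calc ∫⁻ x : S 3, (∫⁻ y in Metric.closedBall x r, ‖a x * b x - a y * b y‖ₑ ∂(sm 3)) ∂(sm 3)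
      ≤ ∫⁻ x : S 3, ((∫⁻ y in Metric.closedBall x r, ‖a x - a y‖ₑ ∂(sm 3)) +
          ∫⁻ y in Metric.closedBall x r, ‖b x - b y‖ₑ ∂(sm 3)) ∂(sm 3) := by
        refine lintegral_mono fun x => ?_
        have e1 : Measurable fun y : S 3 => ‖a x - a y‖ₑ :=
          (measurable_const.sub (ha.comp measurable_subtype_coe)).enorm
        rw [← lintegral_add_left e1]
        exact lintegral_mono fun y => hpt x y
    _ = (∫⁻ x : S 3, (∫⁻ y in Metric.closedBall x r, ‖a x - a y‖ₑ ∂(sm 3)) ∂(sm 3)) +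
          ∫⁻ x : S 3, (∫⁻ y in Metric.closedBall x r, ‖b x - b y‖ₑ ∂(sm 3)) ∂(sm 3) :=
        lintegral_add_left hm2 _
    _ ≤ ENNReal.ofReal (V * r ^ (2 + s)) + ENNReal.ofReal (W * r ^ (2 + s)) :=
        add_le_add (h1 r hr) (h2 r hr)
    _ = ENNReal.ofReal ((V + W) * r ^ (2 + s)) := by
        rw [← ENNReal.ofReal_add (by positivity) (by positivity)]
        congr 1
        ring

/-- For `0 < s ≤ 1`, the class `BVar s` contains `BVar 1`. -/
theorem bvar_mono {s V : ℝ} {a : E 3 → ℂ} (hs1 : s ≤ 1) (hV : 0 ≤ V) (hs : 0 < s)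
    (h : BVar 1 V a) : BVar s (2 * V) a := by
  intro r hr
  have h2s : (2 : ℝ) ^ (1 - s) ≤ 2 := by
    calc (2 : ℝ) ^ (1 - s) ≤ 2 ^ (1 : ℝ) :=
          Real.rpow_le_rpow_of_exponent_le (by norm_num) (by linarith)
      _ = 2 := Real.rpow_one 2
  by_cases hr2 : r ≤ 2
  · refine (h r hr).trans (ENNReal.ofReal_le_ofReal ?_)
    have e1 : r ^ ((2 : ℝ) + 1) = r ^ (2 + s) * r ^ (1 - s) := by
      rw [← Real.rpow_add hr]
      congr 1
      ring
    have e2 : r ^ (1 - s) ≤ 2 := (Real.rpow_le_rpow hr.le hr2 (by linarith)).trans h2s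
    calc V * r ^ ((2 : ℝ) + 1) = V * (r ^ (2 + s) * r ^ (1 - s)) := by rw [e1]
      _ ≤ V * (r ^ (2 + s) * 2) := by gcongr
      _ = 2 * V * r ^ (2 + s) := by ring
  · push Not at hr2
    have e0 : ∀ x : S 3, Metric.closedBall x r = Metric.closedBall x 2 := by
      intro x
      ext y
      have : dist y x ≤ 2 := by
        rw [Subtype.dist_eq, dist_eq_norm]
        refine (norm_sub_le _ _).trans ?_
        rw [show ‖(y : E 3)‖ = 1 by simp, show ‖(x : E 3)‖ = 1 by simp]
        norm_num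
      simp only [Metric.mem_closedBall, this, iff_true]
      linarith
    simp only [e0]
    refine (h 2 two_pos).trans (ENNReal.ofReal_le_ofReal ?_)
    have e1 : (2 : ℝ) ^ ((2 : ℝ) + 1) = 2 ^ (2 + s) * 2 ^ (1 - s) := by
      rw [← Real.rpow_add two_pos]
      congr 1
      ring
    calc V * (2 : ℝ) ^ ((2 : ℝ) + 1) = V * (2 ^ (2 + s) * 2 ^ (1 - s)) := by rw [e1]
      _ ≤ V * (r ^ (2 + s) * 2) := by
          gcongr
      _ = 2 * V * r ^ (2 + s) := by ring

/-- A density times `exp (i u)` with `u` Lipschitz. -/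
theorem bvar_phase : ∃ K : ℝ, 1 ≤ K ∧ ∀ (V L : ℝ) (a : E 3 → ℂ) (u : E 3 → ℝ), 0 ≤ V → 0 ≤ L →
    Measurable a → (∀ x, ‖a x‖ ≤ 1) → BVar 1 V a →
    (∀ x y : S 3, |u x - u y| ≤ L * ‖(x : E 3) - y‖) →
    BVar 1 (V + K * L) (fun x => a x * Complex.exp ((u x : ℂ) * Complex.I)) := by
  obtain ⟨K, hK, h⟩ := bvar_lip
  refine ⟨K, hK, fun V L a u hV hL ha hb hbv hu => ?_⟩
  refine bvar_mul hV (by positivity) ha hb (fun x => ?_) hbv
    (h L (fun x => Complex.exp ((u x : ℂ) * Complex.I)) hL fun x y => ?_)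
  · rw [Complex.norm_exp_ofReal_mul_I]
  · exact (norm_exp_sub_le _ _).trans (hu x y)

end Pool.Agent.BVA
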