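import Pool.Agent.BVA.R5a
import Pool.Agent.MP_6cbfb8_an.Sphere

/-!
R5c: indicators of half spaces are of bounded variation on the sphere.
-/

namespace Pool.Agent.BVA

open MeasureTheory Set Pool.Agent.MP_6cbfb8_an
open scoped ENNReal Real RealInnerProductSpace

/-- the north pole -/
noncomputable def r5ce : E 3 := join (0 : E 2) 1

lemma r5c_norm_e : ‖r5ce‖ = 1 := by
  have h := norm_join_sq (0 : E 2) 1
  have h2 : ‖r5ce‖ ^ 2 = 1 := by
    unfold r5ce
    rw [h]; simp
  nlinarith [norm_nonneg r5ce]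

lemma r5c_inner (θ : ℝ) (ω : S 2) : ⟪(pt θ (ω : E 2) : E 3), r5ce⟫ = Real.cos θ := by
  unfold pt r5ce join
  rw [PiLp.inner_apply, Fin.sum_univ_castSucc]
  simp only [Fin.snoc_castSucc, Fin.snoc_last]
  simp

lemma r5c_sin (c r : ℝ) :
    ∫⁻ θ in {θ : ℝ | |Real.cos θ - c| ≤ r} ∩ Ioo 0 π, ENNReal.ofReal (Real.sin θ ^ 1) ≤
      ENNReal.ofReal (2 * r) := by
  by_cases h1 : c + r < -1
  · have : {θ : ℝ | |Real.cos θ - c| ≤ r} ∩ Ioo 0 π = ∅ := by
      ext θ
      simp only [mem_inter_iff, mem_ofPred_eq, mem_empty_iff_false, iff_false, not_and]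
      intro h
      have := (abs_le.1 h).2
      have := Real.neg_one_le_cos θ
      linarith
    rw [this]; simp
  by_cases h2 : 1 < c - r
  · have : {θ : ℝ | |Real.cos θ - c| ≤ r} ∩ Ioo 0 π = ∅ := by
      ext θ
      simp only [mem_inter_iff, mem_ofPred_eq, mem_empty_iff_false, iff_false, not_and]
      intro h
      have := (abs_le.1 h).1
      have := Real.cos_le_one θ
      linarith
    rw [this]; simp
  push Not at h1 h2
  have hsub : {θ : ℝ | |Real.cos θ - c| ≤ r} ∩ Ioo 0 π ⊆
      Ioc (Real.arccos (c + r)) (Real.arccos (c - r)) ∪ {Real.arccos (c + r)} := by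
    rintro θ ⟨h, hθ⟩
    have h3 := abs_le.1 (show |Real.cos θ - c| ≤ r from h)
    have e : Real.arccos (Real.cos θ) = θ := Real.arccos_cos hθ.1.le hθ.2.le
    have h4 : Real.arccos (c + r) ≤ θ := by
      rw [← e]; exact Real.antitone_arccos (by linarith [h3.2])
    have h5 : θ ≤ Real.arccos (c - r) := by
      conv_lhs => rw [← e]
      exact Real.antitone_arccos (by linarith [h3.1])
    rcases h4.lt_or_eq with h6 | h6
    · left; exact ⟨h6, h5⟩
    · right; exact h6.symm
  by_cases hr : 0 ≤ r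
  · have hle : Real.arccos (c + r) ≤ Real.arccos (c - r) := Real.antitone_arccos (by linarith)
    have h5 : ∫⁻ θ in Ioc (Real.arccos (c + r)) (Real.arccos (c - r)),
        ENNReal.ofReal (Real.sin θ ^ 1) = ENNReal.ofReal
          (Real.cos (Real.arccos (c + r)) - Real.cos (Real.arccos (c - r))) := by
      simp_rw [pow_one]
      rw [← integral_sin, intervalIntegral.integral_of_le hle,
        ofReal_integral_eq_lintegral_ofReal]
      · exact (Real.continuous_sin.integrableOn_Icc).mono_set Ioc_subset_Icc_self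
      · filter_upwards [ae_restrict_mem measurableSet_Ioc] with θ hθ
        exact Real.sin_nonneg_of_nonneg_of_le_pi
          ((Real.arccos_nonneg _).trans hθ.1.le) (hθ.2.trans (Real.arccos_le_pi _))
    have h6 : Real.cos (Real.arccos (c + r)) ≤ c + r := by
      by_cases h : c + r ≤ 1
      · rw [Real.cos_arccos h1 h]
      · push Not at h
        exact (Real.cos_le_one _).trans h.le
    have h7 : c - r ≤ Real.cos (Real.arccos (c - r)) := by
      by_cases h : -1 ≤ c - r
      · rw [Real.cos_arccos h h2]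
      · push Not at h
        exact h.le.trans (Real.neg_one_le_cos _)
    calc _ ≤ ∫⁻ θ in Ioc (Real.arccos (c + r)) (Real.arccos (c - r)) ∪ {Real.arccos (c + r)},
          ENNReal.ofReal (Real.sin θ ^ 1) := lintegral_mono_set hsub
      _ ≤ (∫⁻ θ in Ioc (Real.arccos (c + r)) (Real.arccos (c - r)),
          ENNReal.ofReal (Real.sin θ ^ 1)) +
          ∫⁻ θ in {Real.arccos (c + r)}, ENNReal.ofReal (Real.sin θ ^ 1) :=
            lintegral_union_le _ _ _
      _ = ∫⁻ θ in Ioc (Real.arccos (c + r)) (Real.arccos (c - r)),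
          ENNReal.ofReal (Real.sin θ ^ 1) := by
            have h0 : ∫⁻ θ in {Real.arccos (c + r)}, ENNReal.ofReal (Real.sin θ ^ 1) = 0 :=
              setLIntegral_measure_zero _ _ (by simp)
            rw [h0, add_zero]
      _ ≤ _ := by
            rw [h5]
            exact ENNReal.ofReal_le_ofReal (by linarith)
  · have : {θ : ℝ | |Real.cos θ - c| ≤ r} ∩ Ioo 0 π = ∅ := by
      ext θ
      simp only [mem_inter_iff, mem_ofPred_eq, mem_empty_iff_false, iff_false, not_and]
      intro h
      have := abs_nonneg (Real.cos θ - c)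
      linarith
    rw [this]; simp

/-- bands orthogonal to the pole -/
lemma r5c_band_pole (c r : ℝ) :
    sm 3 {y : S 3 | |⟪(y : E 3), r5ce⟫ - c| ≤ r} ≤ ENNReal.ofReal (2 * r) * sm 2 univ := by
  have hmp := slicing 1
  have hA : MeasurableSet {y : S 3 | |⟪(y : E 3), r5ce⟫ - c| ≤ r} := by
    refine measurableSet_le ?_ measurable_const
    exact (by fun_prop : Continuous fun y : S 3 => |⟪(y : E 3), r5ce⟫ - c|).measurable
  rw [← hmp.measure_preimage hA.nullMeasurableSet]
  have hsub : (fun q : ℝ × S 2 => (⟨pt q.1 (q.2 : E 2), pt_mem q.1 q.2⟩ : S 3)) ⁻¹'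
      {y : S 3 | |⟪(y : E 3), r5ce⟫ - c| ≤ r} ⊆
      {θ : ℝ | |Real.cos θ - c| ≤ r} ×ˢ univ := by
    rintro ⟨θ, ω⟩ h
    simp only [mem_preimage, mem_ofPred_eq] at h
    refine ⟨?_, mem_univ _⟩
    simp only [mem_ofPred_eq]
    rw [← r5c_inner θ ω]
    exact h
  refine (measure_mono hsub).trans ?_
  rw [Measure.prod_prod]
  have hm : MeasurableSet {θ : ℝ | |Real.cos θ - c| ≤ r} :=
    measurableSet_le (by fun_prop) measurable_const
  gcongr
  rw [withDensity_apply _ hm, Measure.restrict_restrict hm]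
  exact r5c_sin c r

/-- Bands of the sphere: the measure of the points at distance at most `r` from a plane. -/
theorem band_le : ∃ K : ℝ, 1 ≤ K ∧ ∀ (v : E 3) (c r : ℝ), ‖v‖ = 1 → 0 ≤ r →
    sm 3 {y : S 3 | |⟪(y : E 3), v⟫ - c| ≤ r} ≤ ENNReal.ofReal (K * r) := by
  have hfin : sm 2 univ ≠ ∞ := measure_ne_top _ _
  have h0 : (0 : ℝ) ≤ (sm 2 univ).toReal := ENNReal.toReal_nonneg
  refine ⟨1 + 2 * (sm 2 univ).toReal, by linarith, fun v c r hv hr => ?_⟩
  obtain ⟨R, hR⟩ : ∃ R : E 3 ≃ₗᵢ[ℝ] E 3, R r5ce = v :=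
    ⟨_, Submodule.reflection_sub (r5c_norm_e.trans hv.symm)⟩
  have hmp := measurePreserving_isometry R
  have hA : MeasurableSet {y : S 3 | |⟪(y : E 3), v⟫ - c| ≤ r} := by
    refine measurableSet_le ?_ measurable_const
    exact (by fun_prop : Continuous fun y : S 3 => |⟪(y : E 3), v⟫ - c|).measurable
  rw [← hmp.measure_preimage hA.nullMeasurableSet]
  have e : (fun y : S 3 => (⟨R y, by simp⟩ : S 3)) ⁻¹' {y : S 3 | |⟪(y : E 3), v⟫ - c| ≤ r}
      = {y : S 3 | |⟪(y : E 3), r5ce⟫ - c| ≤ r} := by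
    ext y
    simp only [mem_preimage, mem_ofPred_eq]
    rw [← hR, R.inner_map_map]
  rw [e]
  refine (r5c_band_pole c r).trans ?_
  rw [← ENNReal.ofReal_toReal hfin, ← ENNReal.ofReal_mul (by positivity)]
  refine ENNReal.ofReal_le_ofReal ?_
  rw [ENNReal.toReal_ofReal h0]
  nlinarith

/-- A function which is constant on the balls of radius `r` centred outside a set of measure
`M r^s`, for all `r`, is of bounded variation of order `s`. -/
theorem bvar_exc : ∃ K : ℝ, 1 ≤ K ∧ ∀ (s M : ℝ) (a : E 3 → ℂ), 0 ≤ M → (∀ x, ‖a x‖ ≤ 1) →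
    (∀ r : ℝ, 0 < r → ∃ T : Set (S 3), MeasurableSet T ∧ sm 3 T ≤ ENNReal.ofReal (M * r ^ s) ∧
      ∀ x : S 3, x ∉ T → ∀ y ∈ Metric.closedBall x r, a (y : E 3) = a (x : E 3)) →
    BVar s (K * M) a := by
  obtain ⟨K, hK, hcap⟩ := cap_le
  refine ⟨2 * K, by linarith, fun s M a hM ha h r hr => ?_⟩
  obtain ⟨T, hT, hTm, hTc⟩ := h r hr
  have h1 : ∀ x : S 3, ∫⁻ y in Metric.closedBall x r, ‖a x - a y‖ₑ ∂(sm 3) ≤
      T.indicator (fun _ => ENNReal.ofReal (2 * (K * r ^ 2))) x := by
    intro x
    by_cases hx : x ∈ T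
    · rw [indicator_of_mem hx]
      calc ∫⁻ y in Metric.closedBall x r, ‖a x - a y‖ₑ ∂(sm 3)
          ≤ ∫⁻ _y in Metric.closedBall x r, ENNReal.ofReal 2 ∂(sm 3) := by
            refine lintegral_mono fun y => ?_
            rw [← ofReal_norm]
            apply ENNReal.ofReal_le_ofReal
            refine (norm_sub_le _ _).trans ?_
            linarith [ha x, ha y]
        _ = ENNReal.ofReal 2 * sm 3 (Metric.closedBall x r) := by
            rw [lintegral_const, Measure.restrict_apply MeasurableSet.univ, univ_inter]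
        _ ≤ ENNReal.ofReal 2 * ENNReal.ofReal (K * r ^ 2) := by
            gcongr
            exact hcap x r hr
        _ = _ := (ENNReal.ofReal_mul (by norm_num)).symm
    · rw [indicator_of_notMem hx]
      refine le_of_eq ?_
      rw [setLIntegral_congr_fun (g := fun _ => 0) Metric.isClosed_closedBall.measurableSet]
      · simp
      · intro y hy
        simp only
        rw [hTc x hx y hy, sub_self]
        simp
  calc ∫⁻ x : S 3, (∫⁻ y in Metric.closedBall x r, ‖a x - a y‖ₑ ∂(sm 3)) ∂(sm 3)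
      ≤ ∫⁻ x : S 3, T.indicator (fun _ => ENNReal.ofReal (2 * (K * r ^ 2))) x ∂(sm 3) :=
        lintegral_mono h1
    _ = ENNReal.ofReal (2 * (K * r ^ 2)) * sm 3 T := by
        rw [lintegral_indicator hT, lintegral_const, Measure.restrict_apply MeasurableSet.univ,
          univ_inter]
    _ ≤ ENNReal.ofReal (2 * (K * r ^ 2)) * ENNReal.ofReal (M * r ^ s) := by gcongr
    _ = ENNReal.ofReal (2 * K * M * r ^ (2 + s)) := by
        rw [← ENNReal.ofReal_mul (by positivity), Real.rpow_add hr]
        congr 1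
        have : r ^ (2 : ℝ) = r ^ 2 := by rw [← Real.rpow_natCast]; norm_num
        rw [this]
        ring

/-- The indicator of a half space is of bounded variation, with an absolute constant. -/
theorem bvar_half : ∃ K : ℝ, 1 ≤ K ∧ ∀ (v : E 3) (c : ℝ),
    BVar 1 K (fun x => if c < ⟪x, v⟫ then 1 else 0) := by
  obtain ⟨K, hK, hexc⟩ := bvar_exc
  obtain ⟨B, hB, hband⟩ := band_le
  have unit : ∀ (v : E 3) (c : ℝ), ‖v‖ = 1 →
      BVar 1 (K * B) (fun x => if c < ⟪x, v⟫ then 1 else 0) := by
    intro v c hv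
    refine hexc 1 B _ (by linarith) (fun x => ?_) (fun r hr => ?_)
    · split_ifs <;> simp
    · refine ⟨{y : S 3 | |⟪(y : E 3), v⟫ - c| ≤ r}, ?_, ?_, ?_⟩
      · refine measurableSet_le ?_ measurable_const
        exact (by fun_prop : Continuous fun y : S 3 => |⟪(y : E 3), v⟫ - c|).measurable
      · rw [Real.rpow_one]
        exact hband v c r hv hr.le
      · intro x hx y hy
        simp only [mem_ofPred_eq, not_le] at hx
        rw [Metric.mem_closedBall, Subtype.dist_eq, dist_eq_norm] at hy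
        have h1 : |⟪(y : E 3), v⟫ - ⟪(x : E 3), v⟫| ≤ r := by
          rw [← inner_sub_left]
          refine (abs_real_inner_le_norm _ _).trans ?_
          rw [hv, mul_one]
          exact hy
        have h2 := abs_le.1 h1
        rcases lt_abs.1 hx with h3 | h3
        · rw [if_pos (by linarith), if_pos (by linarith)]
        · rw [if_neg (by linarith), if_neg (by linarith)]
  refine ⟨K * B, by nlinarith, fun v c => ?_⟩
  by_cases hv : v = 0
  · subst hv
    have e : (fun x : E 3 => if c < ⟪x, (0 : E 3)⟫ then (1 : ℂ) else 0)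
        = fun _ => if c < 0 then (1 : ℂ) else 0 := by
      funext x
      simp
    rw [e]
    intro r hr
    simp
  · have hn : 0 < ‖v‖ := norm_pos_iff.2 hv
    have h1 := unit (‖v‖⁻¹ • v) (‖v‖⁻¹ * c) (by
      rw [norm_smul, norm_inv, norm_norm, inv_mul_cancel₀ hn.ne'])
    convert h1 using 2 with x
    rw [inner_smul_right]
    congr 1
    apply propext
    constructor
    · intro h
      exact mul_lt_mul_of_pos_left h (inv_pos.2 hn)
    · intro h
      exact lt_of_mul_lt_mul_left h (inv_pos.2 hn).le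

end Pool.Agent.BVA
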