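import Pool.Agent.BVA.Defs2
import Pool.Agent.BVA.R3
import Pool.Agent.BVA.R5a
import Pool.Agent.VAN.Defs

/-!
ROW S2: the crude bound.
-/

namespace Pool.Agent.BVA

open MeasureTheory Set MvPolynomial Pool.Agent.PPH Pool.Agent.MP_6cbfb8_an Pool.Agent.VAN
open scoped ENNReal Real

/-- Smooth functions are Lipschitz on the sphere. -/
theorem s2_lip1 (f : E 3 → ℝ) (hf : ContDiff ℝ ((⊤ : ℕ∞) : WithTop ℕ∞) f) :
    ∃ K : ℝ, 0 ≤ K ∧ ∀ x y : S 3, |f x - f y| ≤ K * ‖(x : E 3) - y‖ := by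
  have hc : Continuous (fderiv ℝ f) := hf.continuous_fderiv (by simp)
  obtain ⟨K, hK⟩ := (isCompact_closedBall (0 : E 3) 1).exists_bound_of_continuousOn
    (f := fun x => fderiv ℝ f x) hc.continuousOn
  refine ⟨max K 0, le_max_right _ _, fun x y => ?_⟩
  have hx : (x : E 3) ∈ Metric.closedBall (0 : E 3) 1 := by simp
  have hy : (y : E 3) ∈ Metric.closedBall (0 : E 3) 1 := by simp
  have h := Convex.norm_image_sub_le_of_norm_fderiv_le (𝕜 := ℝ) (f := f) (C := max K 0)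
    (s := Metric.closedBall (0 : E 3) 1) (x := (y : E 3)) (y := (x : E 3))
    (fun z _ => (hf.differentiable (by simp)) z)
    (fun z hz => (hK z hz).trans (le_max_left _ _)) (convex_closedBall _ _) hy hx
  rwa [Real.norm_eq_abs] at h

theorem s2_lip {d : ℕ} (φ : Fin d → E 3 → ℝ)
    (hφ : ∀ j, ContDiff ℝ ((⊤ : ℕ∞) : WithTop ℕ∞) (φ j)) :
    ∃ K : ℝ, 0 ≤ K ∧ ∀ (c : Fin d → ℝ) (x y : S 3),
      |fam φ c x - fam φ c y| ≤ K * ‖c‖ * ‖(x : E 3) - y‖ := by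
  choose K hK0 hK using fun j => s2_lip1 (φ j) (hφ j)
  refine ⟨∑ j, K j, Finset.sum_nonneg fun j _ => hK0 j, fun c x y => ?_⟩
  unfold fam
  rw [← Finset.sum_sub_distrib, Finset.sum_mul, Finset.sum_mul]
  refine (Finset.abs_sum_le_sum_abs _ _).trans (Finset.sum_le_sum fun j _ => ?_)
  rw [← mul_sub, abs_mul]
  have h1 : |c j| ≤ ‖c‖ := norm_le_pi_norm c j
  calc |c j| * |φ j x - φ j y| ≤ ‖c‖ * (K j * ‖(x : E 3) - y‖) := by
        gcongr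
        exact hK j x y
    _ = K j * ‖c‖ * ‖(x : E 3) - y‖ := by ring

theorem s2_meas {d : ℕ} (φ : Fin d → E 3 → ℝ)
    (hφ : ∀ j, ContDiff ℝ ((⊤ : ℕ∞) : WithTop ℕ∞) (φ j)) (c : Fin d → ℝ) :
    Measurable (fam φ c) := by
  unfold fam
  have : Continuous fun x : E 3 => ∑ j, c j * φ j x :=
    continuous_finsetSum _ fun j _ => continuous_const.mul (hφ j).continuous
  exact this.measurable

/-- The class of amplitudes times a phase. -/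
theorem s2_cl {d : ℕ} (φ : Fin d → E 3 → ℝ)
    (hφ : ∀ j, ContDiff ℝ ((⊤ : ℕ∞) : WithTop ℕ∞) (φ j)) (s V : ℝ) (hs : 0 < s) (hs1 : s ≤ 1)
    (hV : 1 ≤ V) : ∃ M : ℝ, 1 ≤ M ∧ ∀ a : E 3 → ℂ, Cl s V a → ∀ c : Fin d → ℝ,
      Cl s (M * (1 + ‖c‖)) (fun x => Complex.exp (((fam φ c x : ℝ) : ℂ) * Complex.I) * a x) := by
  obtain ⟨K, hK0, hK⟩ := s2_lip φ hφ
  obtain ⟨K1, hK1, hlip⟩ := bvar_lip
  refine ⟨V + 2 * (K1 * K), by nlinarith [mul_nonneg (by linarith : (0:ℝ) ≤ K1) hK0],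
    fun a ha c => ?_⟩
  have hm : Measurable fun x : E 3 => Complex.exp (((fam φ c x : ℝ) : ℂ) * Complex.I) := by
    have := s2_meas φ hφ c
    fun_prop
  have hn : ∀ x : E 3, ‖Complex.exp (((fam φ c x : ℝ) : ℂ) * Complex.I)‖ ≤ 1 := fun x => by
    rw [Complex.norm_exp_ofReal_mul_I]
  refine ⟨hm.mul ha.1, fun x => ?_, ?_⟩
  · rw [norm_mul, Complex.norm_exp_ofReal_mul_I, one_mul]
    exact ha.2.1 x
  · have hc0 : 0 ≤ ‖c‖ := norm_nonneg c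
    have h1 : BVar 1 (K1 * (K * ‖c‖))
        (fun x => Complex.exp (((fam φ c x : ℝ) : ℂ) * Complex.I)) :=
      hlip (K * ‖c‖) _ (by positivity) fun x y => (norm_exp_sub_le _ _).trans (hK c x y)
    have h2 := bvar_mono hs1 (by positivity) hs h1
    have h3 := bvar_mul (s := s) (V := 2 * (K1 * (K * ‖c‖))) (W := V) (by positivity)
      (by linarith) hm hn ha.2.1 h2 ha.2.2
    intro r hr
    refine (h3 r hr).trans (ENNReal.ofReal_le_ofReal ?_)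
    have h4 : 2 * (K1 * (K * ‖c‖)) + V ≤ (V + 2 * (K1 * K)) * (1 + ‖c‖) := by
      have h5 : 0 ≤ 2 * (K1 * K) := by positivity
      have h6 : 0 ≤ V * ‖c‖ := by positivity
      nlinarith
    gcongr

/-- The estimate with the variation of the amplitude. -/
theorem s2_main (s q : ℝ) (hs : 0 < s) (hq3 : 3 < q) (hq : 1 + 2 / s < q) :
    ∃ C : ℝ≥0∞, C ≠ ∞ ∧ ∀ (V : ℝ) (a : E 3 → ℂ), 1 ≤ V → Cl s V a →
      ∫⁻ ξ : E 3, ‖extn a ξ‖ₑ ^ q ≤ C * ENNReal.ofReal V ^ (q - 1) := by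
  obtain ⟨C, hC, H⟩ := main3_bv 0 0 s q hs hq3 hq
  refine ⟨C, hC, fun V a hV ha => ?_⟩
  have h := H V a hV ha.1 ha.2.1 ha.2.2 0 (fun i => i.elim0) (by simp) (fun i => i.elim0)
  have e : (fun x => a x * pol 0 (fun i : Fin 0 => i.elim0) x) = a := by
    funext x
    simp [pol]
  rwa [e] at h

theorem crude_bv {d : ℕ} (φ : Fin d → E 3 → ℝ)
    (hφ : ∀ j, ContDiff ℝ ((⊤ : ℕ∞) : WithTop ℕ∞) (φ j)) (s V q : ℝ) (hs : 0 < s) (hs1 : s ≤ 1)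
    (hV : 1 ≤ V) (hq3 : 3 < q) (hq : 1 + 2 / s < q) :
    ∃ C : ℝ≥0∞, C ≠ ∞ ∧ ∀ a : E 3 → ℂ, Cl s V a → ∀ c : Fin d → ℝ,
      ∫⁻ ξ, ‖extn (fun x => Complex.exp (((fam φ c x : ℝ) : ℂ) * Complex.I) * a x) ξ‖ₑ ^ q ≤
        C * ENNReal.ofReal ((1 + ‖c‖) ^ (4 * q)) := by
  obtain ⟨M, hM, hcl⟩ := s2_cl φ hφ s V hs hs1 hV
  obtain ⟨C, hC, H⟩ := s2_main s q hs hq3 hq
  refine ⟨C * ENNReal.ofReal M ^ (q - 1),
    ENNReal.mul_ne_top hC (ENNReal.rpow_ne_top_of_nonneg (by linarith) ENNReal.ofReal_ne_top),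
    fun a ha c => ?_⟩
  have hc0 : 0 ≤ ‖c‖ := norm_nonneg c
  have h1 : 1 ≤ M * (1 + ‖c‖) := one_le_mul_of_one_le_of_one_le hM (by linarith)
  refine (H _ _ h1 (hcl a ha c)).trans ?_
  rw [ENNReal.ofReal_mul (by linarith), ENNReal.mul_rpow_of_nonneg _ _ (by linarith), ← mul_assoc]
  gcongr
  rw [ENNReal.ofReal_rpow_of_nonneg (by linarith) (by linarith)]
  refine ENNReal.ofReal_le_ofReal ?_
  exact Real.rpow_le_rpow_of_exponent_le (by linarith) (by linarith)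

end Pool.Agent.BVA
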