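import Pool.Agent.VAN.D2
import Pool.Agent.BVA.R3
import Pool.Agent.BVA.Defs2

/-!
The local bound for smooth phases with an amplitude of bounded variation.
-/

namespace Pool.Agent.BVA

open MeasureTheory Set MvPolynomial Pool.Agent.MP_6cbfb8_an Pool.Agent.PPH Pool.Agent.VAN
open scoped ENNReal Real

theorem s3_cells (A : ℕ) (s V p : ℝ) (hs : 0 < s) (hV : 1 ≤ V) (hp : 3 < p)
    (hps : 1 + 2 / s < p) : ∃ C : ℝ≥0∞, C ≠ ∞ ∧ ∀ a : E 3 → ℂ, Cl s V a → ∀ (M : ℕ), 0 < M →
    ∀ T : (Fin 3 → Fin (2 * M + 1)) → MvPolynomial (Fin 3) ℝ, (∀ κ, (T κ).totalDegree ≤ A) →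
    ∫⁻ ξ, ‖extn (fun x : E 3 => (∑ κ, d2cel M κ x *
      Complex.exp (((eval (fun i => x i) (T κ) : ℝ) : ℂ) * Complex.I)) * a x) ξ‖ₑ ^ p ≤
      C * ENNReal.ofReal ((6 * M) ^ (3 * p)) := by
  obtain ⟨C0, hC0, H0⟩ := main3_bv (A + 1) 3 s p hs hp hps
  obtain ⟨C, hCdef⟩ : ∃ C : ℝ≥0∞, C = C0 * ENNReal.ofReal V ^ (p - 1) := ⟨_, rfl⟩
  have hC : C ≠ ∞ := by
    rw [hCdef]
    exact ENNReal.mul_ne_top hC0 (ENNReal.rpow_ne_top_of_nonneg (by linarith) ENNReal.ofReal_ne_top)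
  refine ⟨C, hC, fun a ha M hM T hT => ?_⟩
  obtain ⟨ham, ha1, hab⟩ := ha
  have H : ∀ (P : MvPolynomial (Fin 3) ℝ) (Q : Fin 3 → MvPolynomial (Fin 3) ℝ),
      P.totalDegree ≤ A + 1 → (∀ i, (Q i).totalDegree ≤ A + 1) →
      ∫⁻ ξ : E 3, ‖extn (fun x => a x * pol P Q x) ξ‖ₑ ^ p ≤ C := by
    intro P Q h1 h2
    rw [hCdef]
    exact H0 V a hV ham ha1 hab P Q h1 h2
  have hQ : ∀ w i, (d2Q M w i).totalDegree ≤ A + 1 := by
    intro w i
    unfold d2Q
    refine (totalDegree_sub _ _).trans (max_le ?_ ?_)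
    · rw [totalDegree_X]; omega
    · rw [totalDegree_C]; omega
  have hb0 : ∀ w x, ‖d2h M T w x‖ ≤ 1 := by
    intro w x
    unfold d2h
    rw [norm_mul]
    rcases d2_sign w.2 with h | h <;> rw [h] <;> simpa using norm_pol_le _ _ x
  have hb : ∀ w x, ‖d2h M T w x * a x‖ ≤ 1 := by
    intro w x
    rw [norm_mul]
    exact mul_le_one₀ (hb0 w x) (norm_nonneg _) (ha1 x)
  have hm : ∀ w, Measurable (fun x => d2h M T w x * a x) := fun w =>
    ((measurable_pol _ _).const_mul _).mul ham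
  have key := lintegral_mix_le (p := p) (C := C) (by linarith)
    (fun g : E 3 → ℂ => ∃ (P : MvPolynomial (Fin 3) ℝ) (Q : Fin 3 → MvPolynomial (Fin 3) ℝ),
      P.totalDegree ≤ A + 1 ∧ (∀ i, (Q i).totalDegree ≤ A + 1) ∧
        (g = (fun x => a x * pol P Q x) ∨ g = fun x => -1 * (a x * pol P Q x)))
    (by
      rintro g _ _ ⟨P, Q, h1, h2, rfl | rfl⟩
      · exact H P Q h1 h2
      · refine le_trans (le_of_eq ?_) (H P Q h1 h2)
        refine lintegral_congr fun ξ => ?_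
        congr 1
        have : extn (fun x => -1 * (a x * pol P Q x)) ξ = -1 * extn (fun x => a x * pol P Q x) ξ := by
          unfold extn
          rw [← integral_const_mul]
          refine integral_congr_ae (Filter.Eventually.of_forall fun x => ?_)
          simp only
          ring
        rw [this, enorm_mul]
        simp)
    (Measure.count : Measure ((Fin 3 → Fin (2 * M + 1)) × (Fin 3 → Fin 2)))
    (fun _ => LinearIsometryEquiv.refl ℝ (E 3)) (fun _ => 0) (fun w x => d2h M T w x * a x)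
    measurable_snd measurable_const
    (measurable_from_prod_countable_right hm) hb
    (fun w => ⟨T w.1, d2Q M w, (hT _).trans (Nat.le_succ A), hQ w, by
      rcases d2_sign w.2 with h | h
      · left
        funext x
        unfold d2h
        rw [h, one_mul, mul_comm]
      · right
        funext x
        unfold d2h
        rw [h, mul_assoc, mul_comm (a x)]⟩)
  have e1 : (fun x : E 3 => (∑ κ, d2cel M κ x *
      Complex.exp (((eval (fun i => x i) (T κ) : ℝ) : ℂ) * Complex.I)) * a x) =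
      mix (Measure.count : Measure ((Fin 3 → Fin (2 * M + 1)) × (Fin 3 → Fin 2)))
        (fun _ => LinearIsometryEquiv.refl ℝ (E 3)) (fun _ => 0)
        (fun w x => d2h M T w x * a x) := by
    funext x
    rw [d2_expand]
    unfold mix
    rw [integral_count, Finset.sum_mul]
    refine Finset.sum_congr rfl fun w _ => ?_
    simp
  rw [e1]
  refine key.trans ?_
  gcongr
  have hM1 : (1:ℝ) ≤ M := by exact_mod_cast hM
  rw [Measure.count_univ]
  have e2 : ((ENat.card ((Fin 3 → Fin (2 * M + 1)) × (Fin 3 → Fin 2)) : ℕ∞) : ℝ≥0∞) =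
      ENNReal.ofReal ((2 * M + 1) ^ 3 * 2 ^ 3) := by
    rw [ENat.card_eq_coe_fintype_card, Fintype.card_prod]
    simp only [Fintype.card_pi, Fintype.card_fin, Finset.prod_const, Finset.card_univ]
    rw [show ((2 * (M:ℝ) + 1) ^ 3 * 2 ^ 3) = (((2 * M + 1) ^ 3 * 2 ^ 3 : ℕ) : ℝ) by push_cast; ring,
      ENNReal.ofReal_natCast]
    rfl
  rw [e2, ENNReal.ofReal_rpow_of_nonneg (by positivity) (by linarith)]
  refine ENNReal.ofReal_le_ofReal ?_
  rw [Real.rpow_mul (by positivity)]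
  refine Real.rpow_le_rpow (by positivity) ?_ (by linarith)
  rw [show ((3:ℝ)) = ((3:ℕ):ℝ) by norm_num, Real.rpow_natCast, ← mul_pow]
  refine pow_le_pow_left₀ (by positivity) ?_ 3
  linarith

/-- The local bound with an amplitude. -/
theorem local_bound_bv {d : ℕ} (φ : Fin d → E 3 → ℝ)
    (hφ : ∀ j, ContDiff ℝ ((⊤ : ℕ∞) : WithTop ℕ∞) (φ j)) (s V q ε B : ℝ) (hs : 0 < s)
    (hV : 1 ≤ V) (hq3 : 3 < q) (hq : 1 + 2 / s < q) (hε : 0 < ε) (hB : 0 ≤ B) :
    ∃ C : ℝ≥0∞, C ≠ ∞ ∧ ∀ a : E 3 → ℂ, Cl s V a → ∀ c : Fin d → ℝ,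
      ∫⁻ ξ in Metric.closedBall 0 ((1 + ‖c‖) ^ B),
        ‖extn (fun x => Complex.exp (((fam φ c x : ℝ) : ℂ) * Complex.I) * a x) ξ‖ₑ ^ q ≤
          C * ENNReal.ofReal ((1 + ‖c‖) ^ ε) := by
  obtain ⟨p, hpq⟩ : ∃ p : ℝ, p = q := ⟨_, rfl⟩
  rw [← hpq]
  have hp : 3 < p := by rw [hpq]; exact hq3
  have hps : 1 + 2 / s < p := by rw [hpq]; exact hq
  clear hpq hq hq3
  have hp0 : 0 < p := by linarith
  obtain ⟨e, he⟩ : ∃ e : ℝ, e = ε / (3 * p) := ⟨_, rfl⟩
  have he0 : 0 < e := by rw [he]; positivity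
  obtain ⟨A, hA⟩ := exists_nat_ge ((1 + 3 * B) / e)
  have hA' : 1 - e * (A + 1) ≤ -(3 * B) := by
    rw [div_le_iff₀ he0] at hA
    nlinarith
  obtain ⟨K, hK0, hK⟩ := d2_approx φ hφ A
  obtain ⟨C1, hC1, H1⟩ := s3_cells A s V p hs hV hp hps
  set S0 : ℝ := (sm 3).real univ with hsdef
  have hs0 : 0 ≤ S0 := measureReal_nonneg
  obtain ⟨v, hv⟩ : ∃ v : ℝ≥0∞, v = volume (Metric.closedBall (0 : E 3) 1) := ⟨_, rfl⟩
  have hvt : v ≠ ∞ := by
    rw [hv]
    exact (isCompact_closedBall (0 : E 3) 1).measure_ne_top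
  refine ⟨2 ^ (p - 1) * (C1 * ENNReal.ofReal (12 ^ (3 * p)) +
    ENNReal.ofReal ((S0 * (K * 2 ^ (A + 1))) ^ p) * v), ?_, fun a ha c => ?_⟩
  · refine ENNReal.mul_ne_top (ENNReal.rpow_ne_top_of_nonneg (by linarith) (by norm_num)) ?_
    exact ENNReal.add_ne_top.2 ⟨ENNReal.mul_ne_top hC1 ENNReal.ofReal_ne_top,
      ENNReal.mul_ne_top ENNReal.ofReal_ne_top hvt⟩
  obtain ⟨L, hL⟩ : ∃ L : ℝ, L = 1 + ‖c‖ := ⟨_, rfl⟩
  have hL1 : 1 ≤ L := by rw [hL]; linarith [norm_nonneg c]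
  have hL0 : 0 < L := by linarith
  rw [← hL]
  obtain ⟨M, hM⟩ : ∃ M : ℕ, M = ⌈L ^ e⌉₊ := ⟨_, rfl⟩
  have hLe : 1 ≤ L ^ e := Real.one_le_rpow hL1 he0.le
  have hM1 : L ^ e ≤ M := by rw [hM]; exact Nat.le_ceil _
  have hM2 : (M : ℝ) ≤ 2 * L ^ e := by
    have := Nat.ceil_lt_add_one (show 0 ≤ L ^ e by positivity)
    rw [← hM] at this
    linarith
  have hM0 : 0 < M := by
    have : (0:ℝ) < M := by linarith
    exact_mod_cast this
  have hM0' : (0:ℝ) < M := by exact_mod_cast hM0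
  obtain ⟨T, hT, hTd⟩ := hK M hM0 c
  -- the error
  have herr : ‖c‖ * K * (2 / M) ^ (A + 1) ≤ K * 2 ^ (A + 1) * L ^ (-(3 * B)) := by
    have h1 : (1 / (M:ℝ)) ^ (A + 1) ≤ L ^ (-(e * (A + 1))) := by
      have h2 : 1 / (M:ℝ) ≤ L ^ (-e) := by
        rw [Real.rpow_neg hL0.le, ← one_div]
        exact one_div_le_one_div_of_le (by positivity) hM1
      calc (1 / (M:ℝ)) ^ (A + 1) ≤ (L ^ (-e)) ^ (A + 1) := pow_le_pow_left₀ (by positivity) h2 _
        _ = L ^ (-(e * (A + 1))) := by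
          rw [← Real.rpow_natCast, ← Real.rpow_mul hL0.le]
          congr 1
          push_cast
          ring
    have h3 : ‖c‖ ≤ L := by rw [hL]; linarith
    calc ‖c‖ * K * (2 / M) ^ (A + 1) = ‖c‖ * (K * 2 ^ (A + 1)) * (1 / (M:ℝ)) ^ (A + 1) := by
          rw [div_eq_mul_one_div (2:ℝ) (M:ℝ), mul_pow]
          ring
      _ ≤ L * (K * 2 ^ (A + 1)) * L ^ (-(e * (A + 1))) := by gcongr
      _ = K * 2 ^ (A + 1) * L ^ (1 - e * (A + 1)) := by
          rw [sub_eq_add_neg, Real.rpow_add hL0, Real.rpow_one]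
          ring
      _ ≤ K * 2 ^ (A + 1) * L ^ (-(3 * B)) := by
          gcongr
  have hgm : Measurable fun x : E 3 => Complex.exp (((fam φ c x : ℝ) : ℂ) * Complex.I) := by
    have h1 : Continuous fun x : E 3 => fam φ c x := by
      unfold fam
      exact continuous_finsetSum _ fun j _ => continuous_const.mul (hφ j).continuous
    have h2 : Continuous fun x : E 3 => Complex.exp (((fam φ c x : ℝ) : ℂ) * Complex.I) := by
      fun_prop
    exact h2.measurable
  have hcmp := fun ξ => d2_extn_le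
    (fun x : E 3 => Complex.exp (((fam φ c x : ℝ) : ℂ) * Complex.I) * a x)
    (fun x => (∑ κ, d2cel M κ x *
      Complex.exp (((eval (fun i => x i) (T κ) : ℝ) : ℂ) * Complex.I)) * a x)
    (hgm.mul ha.1) ((d2_meas_cel M T).mul ha.1) 1 (K * 2 ^ (A + 1) * L ^ (-(3 * B)))
    (fun x _ => by
      rw [norm_mul, norm_phase, one_mul]
      exact ha.2.1 x)
    (fun x hx => by
      rw [← sub_mul, norm_mul]
      calc _ ≤ ‖Complex.exp (((fam φ c x : ℝ) : ℂ) * Complex.I) - ∑ κ, d2cel M κ x *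
            Complex.exp (((eval (fun i => x i) (T κ) : ℝ) : ℂ) * Complex.I)‖ * 1 :=
            mul_le_mul_of_nonneg_left (ha.2.1 x) (norm_nonneg _)
        _ ≤ _ := by
            rw [mul_one]
            exact (hTd x hx).trans herr) ξ
  obtain ⟨m, hm⟩ : ∃ m : E 3 → ℂ, m = fun x => (∑ κ, d2cel M κ x *
      Complex.exp (((eval (fun i => x i) (T κ) : ℝ) : ℂ) * Complex.I)) * a x := ⟨_, rfl⟩
  rw [← hm] at hcmp
  have hmm : Measurable m := by rw [hm]; exact (d2_meas_cel M T).mul ha.1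
  have hme : Measurable fun ξ => ‖extn m ξ‖ₑ ^ p := by
    have h1 := measurable_extn_param (W := Unit) (fun _ => m) (hmm.comp measurable_snd)
    exact ((h1.comp (f := fun ξ : E 3 => ((), ξ)) (by fun_prop)).enorm).pow_const p
  calc ∫⁻ ξ in Metric.closedBall 0 (L ^ B),
        ‖extn (fun x => Complex.exp (((fam φ c x : ℝ) : ℂ) * Complex.I) * a x) ξ‖ₑ ^ p
      ≤ ∫⁻ ξ in Metric.closedBall 0 (L ^ B), 2 ^ (p - 1) * (‖extn m ξ‖ₑ ^ p +
          ENNReal.ofReal (S0 * (K * 2 ^ (A + 1) * L ^ (-(3 * B)))) ^ p) := by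
        refine lintegral_mono fun ξ => ?_
        exact (ENNReal.rpow_le_rpow (hcmp ξ) hp0.le).trans
          (ENNReal.rpow_add_le_mul_rpow_add_rpow _ _ (by linarith))
    _ = 2 ^ (p - 1) * ((∫⁻ ξ in Metric.closedBall 0 (L ^ B), ‖extn m ξ‖ₑ ^ p) +
          ENNReal.ofReal (S0 * (K * 2 ^ (A + 1) * L ^ (-(3 * B)))) ^ p *
            volume (Metric.closedBall (0 : E 3) (L ^ B))) := by
        rw [lintegral_const_mul' _ _ (ENNReal.rpow_ne_top_of_nonneg (by linarith) (by norm_num)),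
          lintegral_add_left hme, lintegral_const, Measure.restrict_apply_univ]
    _ ≤ 2 ^ (p - 1) * (C1 * ENNReal.ofReal ((6 * M) ^ (3 * p)) +
          ENNReal.ofReal ((S0 * (K * 2 ^ (A + 1))) ^ p * L ^ (-(3 * B))) *
            (ENNReal.ofReal (L ^ (3 * B)) * v)) := by
        gcongr
        · refine (setLIntegral_le_lintegral _ _).trans ?_
          rw [hm]
          exact H1 a ha M hM0 T hT
        · rw [ENNReal.ofReal_rpow_of_nonneg (by positivity) hp0.le]
          refine ENNReal.ofReal_le_ofReal ?_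
          rw [show S0 * (K * 2 ^ (A + 1) * L ^ (-(3 * B))) =
            (S0 * (K * 2 ^ (A + 1))) * L ^ (-(3 * B)) by ring,
            Real.mul_rpow (by positivity) (by positivity)]
          gcongr
          rw [← Real.rpow_mul hL0.le]
          refine Real.rpow_le_rpow_of_exponent_le hL1 ?_
          nlinarith
        · rw [Measure.addHaar_closedBall' volume (0 : E 3) (by positivity), finrank_euclideanSpace,
            Fintype.card_fin, ← hv, ← Real.rpow_natCast, ← Real.rpow_mul hL0.le]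
          refine le_of_eq ?_
          congr 3
          push_cast
          ring
    _ ≤ 2 ^ (p - 1) * (C1 * ENNReal.ofReal (12 ^ (3 * p) * L ^ ε) +
          ENNReal.ofReal ((S0 * (K * 2 ^ (A + 1))) ^ p * L ^ ε) * v) := by
        gcongr 2 ^ (p - 1) * (C1 * ENNReal.ofReal ?_ + ?_)
        · calc (6 * (M:ℝ)) ^ (3 * p) ≤ (12 * L ^ e) ^ (3 * p) := by
                refine Real.rpow_le_rpow (by positivity) ?_ (by positivity)
                linarith
            _ = 12 ^ (3 * p) * L ^ ε := by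
                rw [Real.mul_rpow (by norm_num) (by positivity), ← Real.rpow_mul hL0.le]
                congr 2
                rw [he]
                field_simp
        · rw [← mul_assoc, ← ENNReal.ofReal_mul (by positivity)]
          refine mul_le_mul' (ENNReal.ofReal_le_ofReal ?_) le_rfl
          rw [mul_assoc, ← Real.rpow_add hL0, neg_add_cancel, Real.rpow_zero]
          exact mul_le_mul_of_nonneg_left (Real.one_le_rpow hL1 hε.le) (by positivity)
    _ = _ := by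
        rw [ENNReal.ofReal_mul (by positivity), ENNReal.ofReal_mul (by positivity)]
        ring

end Pool.Agent.BVA
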